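import Pool.Agent.Run7.h23.Tw.Ka

/-!
# Twisted cocycles with values in the rational Tate module
-/

set_option autoImplicit false
set_option linter.all false

open Polynomial IsDedekindDomain NumberField Topology
open scoped Classical

namespace Run7.h23.Tw

open Pool.Agent.Y160.SE
open Pool.Agent.TH115.GD (incl rs ak exists_restrict)

section uni

variable {K Ω : Type} [Field K] [Field Ω] [Algebra K Ω] {f : K[X]} {n : ℕ}
  {ρ : (Ω ≃ₐ[K] Ω) →* Matrix (Fin n) (Fin n) ℤ_[2]}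

/-- Torsion elements fixed by the twisted action vanish. -/
theorem fix_zero [IsGalois K Ω] [IsSepClosed Ω] (hg : Good 2 (-1 : K) f) (hirr : Irreducible f)
    (h1 : ∀ σ, Cg1 1 (ρ σ)) {R : Fin n → Jac 2 f Ω} (hR : ∀ i, Tt (R i))
    (hfix : ∀ σ, act ρ σ R = R) : R = 0 := by
  obtain ⟨k, hk⟩ := Tt.pi hR
  have key : ∀ k : ℕ, (∀ i, (2 ^ k : ℤ) • R i = 0) → R = 0 := by
    intro k
    induction k with
    | zero =>
      intro h
      funext i
      have := h i
      rw [pow_zero] at this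
      rw [one_smul] at this
      exact this
    | succ k ih =>
      intro h
      refine ih fun i => ?_
      have h2 : ∀ i, (2 : ℤ) • ((2 ^ k : ℤ) • R i) = 0 := fun i =>
        smul_tri 2 (2 ^ k) (2 ^ (k + 1)) (by ring) (h i)
      refine Pool.Agent.N615.JB.tor K Ω f hg hirr _ ?_ fun σ => ?_
      · rw [Run7.h23.Se.tor_iff2 hg, ← natCast_zsmul]
        exact h2 i
      · have h3 : act ρ σ ((2 ^ k : ℤ) • R) = (2 ^ k : ℤ) • R := by
          rw [act_smul hR, hfix]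
        have h4 : act ρ σ ((2 ^ k : ℤ) • R) = fun j => jm 2 f (ak σ) ((2 ^ k : ℤ) • R j) :=
          ta_cg (h1 σ) (fun j => by
            rw [← map_zsmul]
            have : (2 ^ 1 : ℤ) • ((2 ^ k : ℤ) • R j) = 0 := kill_succ (h2 j) 0
            exact (congrArg (jm 2 f (ak σ)) this).trans (map_zero _))
        rw [h4] at h3
        exact congrFun h3 i
  exact key k hk

theorem cob_inj [IsGalois K Ω] [IsSepClosed Ω] (hg : Good 2 (-1 : K) f) (hirr : Irreducible f)
    (h1 : ∀ σ, Cg1 1 (ρ σ)) {R R' : Fin n → Jac 2 f Ω} (hR : ∀ i, Tt (R i))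
    (hR' : ∀ i, Tt (R' i)) (h : ∀ σ, cob ρ R σ = cob ρ R' σ) : R = R' := by
  rw [← sub_eq_zero]
  refine fix_zero hg hirr h1 (fun i => (hR i).sub (hR' i)) fun σ => ?_
  have h2 := h σ
  rw [cob_eq, cob_eq] at h2
  rw [act_sub hR hR']
  have h3 : act ρ σ R - act ρ σ R' - (R - R') = 0 := by
    rw [sub_sub_sub_comm, h2, sub_self]
  exact sub_eq_zero.1 h3

end uni

section real

variable {M : Type} [Field M] [NumberField M] {F : M[X]} {n : ℕ}
  {ρ : (SeparableClosure M ≃ₐ[M] SeparableClosure M) →* Matrix (Fin n) (Fin n) ℤ_[2]}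

theorem coc_one {K Ω : Type} [Field K] [Field Ω] [Algebra K Ω] {f : K[X]} {n : ℕ}
    {ρ : (Ω ≃ₐ[K] Ω) →* Matrix (Fin n) (Fin n) ℤ_[2]}
    {b : (Ω ≃ₐ[K] Ω) → Fin n → Jac 2 f Ω} (hb : TCoc ρ b) : b 1 = 0 := by
  have h := hb.mul 1 1
  rw [mul_one] at h
  have h2 : ta (ρ 1) (fun j => jm 2 f (ak (1 : Ω ≃ₐ[K] Ω)) (b 1 j)) = b 1 :=
    act_one (ρ := ρ) (hb.tor 1)
  rw [h2] at h
  exact (left_eq_add).1 h

theorem real_loc [Algebra M ℝ] (hreal : Dec ρ ℝ (SeparableClosure ℝ) fun N => N = 1)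
    {b b' : (SeparableClosure M ≃ₐ[M] SeparableClosure M) → Fin n → Jac 2 F (SeparableClosure M)}
    (hb : TCoc ρ b) (hb' : TCoc ρ b') (h : ∀ σ, (2 : ℤ) • b' σ = b σ) :
    TLoc ρ ℝ (SeparableClosure ℝ) b := by
  let ι : SeparableClosure M →ₐ[M] SeparableClosure ℝ := IsSepClosed.lift
  by_cases hτ : ∃ τ₀ : SeparableClosure ℝ ≃ₐ[ℝ] SeparableClosure ℝ, τ₀ ≠ 1
  · obtain ⟨τ₀, hτ₀⟩ := hτ
    obtain ⟨σ₀, hσ₀⟩ := exists_restrict (F := M) (Ω := SeparableClosure M) (L := ℝ)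
      (Ω' := SeparableClosure ℝ) ι τ₀
    refine ⟨ι, fun i => -jm 2 F ι (b' σ₀ i), fun i => ((hb'.tor σ₀ i).map _).neg,
      fun τ σ hx => ?_⟩
    by_cases h1 : τ = 1
    · have hσ : σ = 1 := by
        refine AlgEquiv.ext fun x => ι.injective ?_
        show ι (σ x) = ι x
        rw [← hx, h1]
        rfl
      have e0 : (fun i => jm 2 F ι (b σ i)) = 0 := by
        funext i
        rw [hσ, coc_one hb]
        exact map_zero _
      have e1 : (fun j => jm 2 F (rs M τ) (-jm 2 F ι (b' σ₀ j))) =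
          fun j => -jm 2 F ι (b' σ₀ j) := by
        funext j
        rw [h1]
        exact jm_id _
      rw [e0, hσ, map_one, e1, ta_one (fun j => ((hb'.tor σ₀ j).map _).neg)]
      exact (sub_self _).symm
    · have hττ : τ = τ₀ := (real_inv τ).2 τ₀ h1 hτ₀
      have hσ : σ = σ₀ := by
        refine AlgEquiv.ext fun x => ι.injective ?_
        show ι (σ x) = ι (σ₀ x)
        rw [← hx, ← hσ₀, hττ]
      have hinv : σ₀ * σ₀ = 1 := inv_compat (real_inv τ₀).1 hσ₀
      have hρ : ρ σ₀ = 1 := hreal ι τ₀ σ₀ hσ₀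
      have hcomm : ∀ x, jm 2 F (rs M τ₀) (jm 2 F ι x) = jm 2 F ι (jm 2 F (ak σ₀) x) := by
        intro x
        rw [jm_jm, jm_jm]
        have e : ι.comp (ak σ₀) = (rs M τ₀).comp ι := AlgHom.ext fun x => (hσ₀ x).symm
        rw [e]
      -- the cocycle condition
      have h3 : ∀ i, b' σ₀ i + jm 2 F (ak σ₀) (b' σ₀ i) = 0 := by
        intro i
        have h4 := congrFun (hb'.mul σ₀ σ₀) i
        rw [hinv, coc_one hb', hρ, ta_one (fun j => (hb'.tor σ₀ j).map _)] at h4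
        exact h4.symm
      have e1 : (fun j => jm 2 F (rs M τ) (-jm 2 F ι (b' σ₀ j))) =
          fun j => jm 2 F ι (b' σ₀ j) := by
        funext j
        rw [hττ, map_neg, hcomm, eq_neg_of_add_eq_zero_right (h3 j), map_neg, neg_neg]
      rw [hσ, hρ, e1, ta_one (fun j => (hb'.tor σ₀ j).map _)]
      funext i
      show jm 2 F ι (b σ₀ i) = jm 2 F ι (b' σ₀ i) - -jm 2 F ι (b' σ₀ i)
      rw [← h, sub_neg_eq_add, ← two_zsmul, ← map_zsmul]
      rfl
  · push Not at hτ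
    refine ⟨ι, 0, fun i => Tt.zero, fun τ σ hx => ?_⟩
    have hσ : σ = 1 := by
      refine AlgEquiv.ext fun x => ι.injective ?_
      show ι (σ x) = ι x
      rw [← hx, hτ τ]
      rfl
    have e0 : (fun i => jm 2 F ι (b σ i)) = 0 := by
      funext i
      rw [hσ, coc_one hb]
      exact map_zero _
    have e1 : (fun j => jm 2 F (rs M τ) ((0 : Fin n → Jac 2 F (SeparableClosure ℝ)) j)) = 0 := by
      funext j
      exact map_zero _
    rw [e0, e1, ta_zero, sub_self]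

end real

section main

open Run7.h23.Gn.W (SelW LocU)

variable {M : Type} [Field M] [NumberField M] {F : M[X]} {n : ℕ}
  {ρ : (SeparableClosure M ≃ₐ[M] SeparableClosure M) →* Matrix (Fin n) (Fin n) ℤ_[2]}

/-- Everywhere locally trivial classes with values in the twisted rational Tate module vanish. -/
theorem vzero {SW : HeightOneSpectrum (𝓞 M) → Prop} (hg : Good 2 (-1 : M) F)
    (hirr : Irreducible F) (hρ : RhoK F SW ρ) (hsel : SelW (AW F ρ) F)
    (c : (SeparableClosure M ≃ₐ[M] SeparableClosure M) → Fin n → ℕ → Jac 2 F (SeparableClosure M))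
    (hc : ∀ m, TCoc ρ fun σ i => c σ i m)
    (h2 : ∀ σ i m, (2 : ℤ) • c σ i (m + 1) = c σ i m)
    (h4 : ∀ (w : HeightOneSpectrum (𝓞 M)) m,
      TLoc ρ (w.adicCompletion M) (SeparableClosure (w.adicCompletion M)) fun σ i => c σ i m) :
    ∃ x : Fin n → ℕ → Jac 2 F (SeparableClosure M),
      (∀ i m, (2 : ℤ) • x i (m + 1) = x i m ∧ Tt (x i m)) ∧
      ∀ σ m, (fun i => c σ i m) = cob ρ (fun j => x j m) σ := by
  have hexp : ∀ m, ∃ k : ℕ, ∀ σ i, (2 ^ k : ℤ) • c σ i m = 0 := by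
    intro m
    have h5 : ∀ i, ∃ k : ℕ, ∀ σ, (2 ^ k : ℤ) • c σ i m = 0 := by
      intro i
      have hfin : (Set.range fun σ => c σ i m).Finite := ((hc m).lc i).range_finite
      have h5 : ∀ y ∈ hfin.toFinset, ∃ k : ℕ, (2 ^ k : ℤ) • y = 0 := by
        intro y hy
        obtain ⟨σ, rfl⟩ := hfin.mem_toFinset.1 hy
        exact (hc m).tor σ i
      choose! k hk using h5
      refine ⟨hfin.toFinset.sup k, fun σ => ?_⟩
      have h6 : c σ i m ∈ hfin.toFinset := hfin.mem_toFinset.2 ⟨σ, rfl⟩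
      exact kill_mono (Finset.le_sup (f := k) h6) (hk _ h6)
    choose k hk using h5
    exact ⟨Finset.univ.sup k, fun σ i => kill_mono (Finset.le_sup (Finset.mem_univ i)) (hk i σ)⟩
  have key : ∀ m, ∃ R : Fin n → Jac 2 F (SeparableClosure M), (∀ i, Tt (R i)) ∧
      ∀ σ, (fun i => c σ i m) = cob ρ R σ := by
    intro m
    obtain ⟨k, hk⟩ := hexp m
    exact claimA hg hirr hρ hsel k _ (hc m) hk ⟨fun w => h4 w m, real_loc hρ.real (hc m)
      (hc (m + 1)) (fun σ => funext fun i => h2 σ i m)⟩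
  choose R hR1 hR2 using key
  refine ⟨fun i m => R m i, fun i m => ⟨?_, hR1 m i⟩, fun σ m => hR2 m σ⟩
  have h5 : (2 : ℤ) • R (m + 1) = R m := by
    refine cob_inj hg hirr hρ.two (fun i => (hR1 (m + 1) i).smul 2) (hR1 m) fun σ => ?_
    rw [cob_smul (hR1 (m + 1)), ← hR2, ← hR2]
    funext i
    exact h2 σ i m
  exact congrFun h5 i

end main

end Run7.h23.Tw
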