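import Pool.Agent.Run7.h23.Tw.Tc
import Pool.Agent.Run7.h23.Tw.Kv
import Pool.Agent.N498.PQ.Cpl

/-!
# The Tate twists
-/

set_option autoImplicit false
set_option linter.all false

open Polynomial IsDedekindDomain NumberField Topology
open scoped Classical

namespace Run7.h23.Tw

section cyc

variable (K : Type) [Field K]

/-- The 2-adic cyclotomic character. -/
noncomputable def cyc : (SeparableClosure K ≃ₐ[K] SeparableClosure K) →* ℤ_[2]ˣ :=
  (cyclotomicCharacter (SeparableClosure K) 2).comp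
    (MulSemiringAction.toRingAut (SeparableClosure K ≃ₐ[K] SeparableClosure K) (SeparableClosure K))

/-- The power `χ ^ m` as a representation of dimension one. -/
noncomputable def tate (m : ℤ) : (SeparableClosure K ≃ₐ[K] SeparableClosure K) →*
    Matrix (Fin 1) (Fin 1) ℤ_[2] where
  toFun σ := Matrix.scalar (Fin 1) (((cyc K σ) ^ m : ℤ_[2]ˣ) : ℤ_[2])
  map_one' := by
    rw [map_one, one_zpow, Units.val_one, map_one]
  map_mul' σ τ := by
    rw [map_mul, mul_zpow, Units.val_mul, map_mul]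

variable {K}

theorem tate_apply (m : ℤ) (σ : SeparableClosure K ≃ₐ[K] SeparableClosure K) (i j : Fin 1) :
    tate K m σ i j = (((cyc K σ) ^ m : ℤ_[2]ˣ) : ℤ_[2]) := by
  rw [Fin.fin_one_eq_zero i, Fin.fin_one_eq_zero j]
  show (Matrix.scalar (Fin 1) _) 0 0 = _
  rw [Matrix.scalar_apply, Matrix.diagonal_apply_eq]

theorem tate_eq_one {m : ℤ} {σ : SeparableClosure K ≃ₐ[K] SeparableClosure K}
    (h : (cyc K σ) ^ m = 1) : tate K m σ = 1 := by
  show Matrix.scalar (Fin 1) (((cyc K σ) ^ m : ℤ_[2]ˣ) : ℤ_[2]) = 1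
  rw [h, Units.val_one, map_one]

theorem cyc_cont : Continuous (cyc K) := cyclotomicCharacter.continuous 2 K (SeparableClosure K)

theorem tate_cont (m : ℤ) (i j : Fin 1) : Continuous fun σ => tate K m σ i j := by
  simp only [tate_apply]
  exact Units.continuous_val.comp (cyc_cont.zpow m)

theorem cyc_spec [CharZero K] (σ : SeparableClosure K ≃ₐ[K] SeparableClosure K) {n : ℕ}
    {t : SeparableClosure K} (ht : t ^ 2 ^ n = 1) :
    σ t = t ^ ((cyc K σ : ℤ_[2]).toZModPow n).val := by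
  haveI : NeZero ((2 : ℕ) : SeparableClosure K) := ⟨by
    haveI : CharZero (SeparableClosure K) :=
      charZero_of_injective_algebraMap (algebraMap K (SeparableClosure K)).injective
    exact_mod_cast (two_ne_zero (α := SeparableClosure K))⟩
  exact cyclotomicCharacter.spec 2 (MulSemiringAction.toRingAut _ _ σ) t ht

/-- An automorphism which fixes a primitive root of unity. -/
theorem cyc_of_fix [CharZero K] {σ : SeparableClosure K ≃ₐ[K] SeparableClosure K} {n : ℕ}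
    {t : SeparableClosure K} (ht : IsPrimitiveRoot t (2 ^ n)) (h : σ t = t) :
    (cyc K σ : ℤ_[2]).toZModPow n = 1 := by
  have h1 := cyc_spec σ ht.pow_eq_one
  rw [h] at h1
  rcases Nat.eq_zero_or_pos n with hn | hn
  · subst hn
    haveI : Subsingleton (ZMod (2 ^ 0)) := by rw [pow_zero]; infer_instance
    exact Subsingleton.elim _ _
  · have h2 : 1 < 2 ^ n := Nat.one_lt_two_pow (by omega)
    haveI : Fact (1 < 2 ^ n) := ⟨h2⟩
    haveI : NeZero (2 ^ n) := ⟨by positivity⟩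
    have h3 : ((cyc K σ : ℤ_[2]).toZModPow n).val = 1 := by
      have h4 : t ^ 1 = t ^ ((cyc K σ : ℤ_[2]).toZModPow n).val := by rw [pow_one]; exact h1
      exact (ht.pow_inj h2 (ZMod.val_lt _) h4).symm
    rw [← ZMod.natCast_zmod_val ((cyc K σ : ℤ_[2]).toZModPow n), h3, Nat.cast_one]

theorem cyc_dvd {σ : SeparableClosure K ≃ₐ[K] SeparableClosure K} {n : ℕ}
    (h : (cyc K σ : ℤ_[2]).toZModPow n = 1) : (2 : ℤ_[2]) ^ n ∣ (cyc K σ : ℤ_[2]) - 1 := by
  have h1 : (cyc K σ : ℤ_[2]) - 1 ∈ RingHom.ker (PadicInt.toZModPow (p := 2) n) := by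
    rw [RingHom.mem_ker, map_sub, map_one, h, sub_self]
  rw [PadicInt.ker_toZModPow, Ideal.mem_span_singleton] at h1
  exact_mod_cast h1

/-- Congruences for powers of units. -/
theorem dvd_zpow {u : ℤ_[2]ˣ} {k : ℕ} (h : (2 : ℤ_[2]) ^ k ∣ (u : ℤ_[2]) - 1) (m : ℤ) :
    (2 : ℤ_[2]) ^ k ∣ ((u ^ m : ℤ_[2]ˣ) : ℤ_[2]) - 1 := by
  have hn : ∀ n : ℕ, (2 : ℤ_[2]) ^ k ∣ ((u ^ n : ℤ_[2]ˣ) : ℤ_[2]) - 1 := by
    intro n
    rw [Units.val_pow_eq_pow_val]
    have := sub_one_dvd_pow_sub_one (u : ℤ_[2]) n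
    exact h.trans this
  obtain ⟨n, rfl | rfl⟩ := m.eq_nat_or_neg
  · rw [zpow_natCast]
    exact hn n
  · rw [zpow_neg, zpow_natCast]
    have e : (((u ^ n)⁻¹ : ℤ_[2]ˣ) : ℤ_[2]) - 1 =
        -((((u ^ n)⁻¹ : ℤ_[2]ˣ) : ℤ_[2]) * (((u ^ n : ℤ_[2]ˣ) : ℤ_[2]) - 1)) := by
      rw [mul_sub, Units.inv_mul, mul_one]
      ring
    rw [e]
    exact (Dvd.dvd.mul_left (hn n) _).neg_right

theorem unit_odd (u : ℤ_[2]ˣ) : (2 : ℤ_[2]) ∣ (u : ℤ_[2]) - 1 := by
  have h1 : (u : ℤ_[2]) - 1 ∈ RingHom.ker (PadicInt.toZMod (p := 2)) := by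
    rw [RingHom.mem_ker, map_sub, map_one, sub_eq_zero]
    have h2 : IsUnit (PadicInt.toZMod (p := 2) (u : ℤ_[2])) := u.isUnit.map _
    revert h2
    generalize PadicInt.toZMod (p := 2) (u : ℤ_[2]) = z
    revert z
    decide
  rw [PadicInt.ker_toZMod, PadicInt.maximalIdeal_eq_span_p, Ideal.mem_span_singleton] at h1
  exact_mod_cast h1

theorem unit_sq (u : ℤ_[2]ˣ) : (2 : ℤ_[2]) ^ 2 ∣ ((u ^ 2 : ℤ_[2]ˣ) : ℤ_[2]) - 1 := by
  obtain ⟨a, ha⟩ := unit_odd u
  rw [Units.val_pow_eq_pow_val]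
  refine ⟨a * (a + 1), ?_⟩
  have e : (u : ℤ_[2]) = 1 + 2 * a := by rw [← ha]; ring
  rw [e]
  ring

theorem tate_cg {m : ℤ} {k : ℕ} {σ : SeparableClosure K ≃ₐ[K] SeparableClosure K}
    (h : (2 : ℤ_[2]) ^ k ∣ (((cyc K σ) ^ m : ℤ_[2]ˣ) : ℤ_[2]) - 1) : Cg1 k (tate K m σ) := by
  intro i j
  rw [tate_apply, Fin.fin_one_eq_zero i, Fin.fin_one_eq_zero j, Matrix.one_apply_eq]
  exact h

theorem tate_two (m : ℤ) (σ : SeparableClosure K ≃ₐ[K] SeparableClosure K) :
    Cg1 1 (tate K m σ) := tate_cg (by rw [pow_one]; exact unit_odd _)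

theorem tate_four {m : ℤ} (hm : Even m) (σ : SeparableClosure K ≃ₐ[K] SeparableClosure K) :
    Cg1 2 (tate K m σ) := by
  obtain ⟨l, rfl⟩ := hm
  refine tate_cg ?_
  rw [← two_mul, mul_comm, zpow_mul, zpow_ofNat]
  exact unit_sq _

end cyc

section loc

variable {K : Type} [Field K] [NumberField K]

theorem exists_prim (n : ℕ) : ∃ t : SeparableClosure K, IsPrimitiveRoot t (2 ^ n) := by
  haveI : NeZero ((2 ^ n : ℕ) : SeparableClosure K) := ⟨by
    haveI : CharZero (SeparableClosure K) :=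
      charZero_of_injective_algebraMap (algebraMap K (SeparableClosure K)).injective
    exact_mod_cast pow_ne_zero n (two_ne_zero (α := SeparableClosure K))⟩
  exact HasEnoughRootsOfUnity.exists_primitiveRoot _ _

/-- The cyclotomic character is trivial on the inertia groups at the odd places. -/
theorem cyc_inert {w : HeightOneSpectrum (𝓞 K)} (h2 : (2 : 𝓞 K) ∉ w.asIdeal)
    {ι : SeparableClosure K →ₐ[K] SeparableClosure (w.adicCompletion K)}
    {τ : SeparableClosure (w.adicCompletion K) ≃ₐ[w.adicCompletion K]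
      SeparableClosure (w.adicCompletion K)}
    {σ : SeparableClosure K ≃ₐ[K] SeparableClosure K} (hx : ∀ x, τ (ι x) = ι (σ x))
    (hτ : ∀ (N : ℕ) (ζ : SeparableClosure (w.adicCompletion K)), (N : 𝓞 K) ∉ w.asIdeal →
      ζ ^ N = 1 → τ ζ = ζ) : cyc K σ = 1 := by
  apply Units.ext
  rw [Units.val_one]
  refine PadicInt.ext_of_toZModPow.mp fun n => ?_
  rw [map_one]
  obtain ⟨t, ht⟩ := exists_prim (K := K) n
  refine cyc_of_fix ht (ι.injective ?_)
  show ι (σ t) = ι t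
  rw [← hx]
  refine hτ (2 ^ n) _ ?_ ?_
  · intro hm
    apply h2
    haveI := w.isPrime
    push_cast at hm
    exact w.isPrime.mem_of_pow_mem n hm
  · rw [← map_pow, ht.pow_eq_one, map_one]

theorem cyc_conj {e : SeparableClosure K →+* ℂ} {σ : SeparableClosure K ≃ₐ[K] SeparableClosure K}
    (h : ∀ z, e (σ z) = (starRingEnd ℂ) (e z)) {m : ℤ} (hm : Even m) : (cyc K σ) ^ m = 1 := by
  have h1 : σ * σ = 1 := by
    refine AlgEquiv.ext fun x => e.injective ?_
    show e (σ (σ x)) = e x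
    rw [h, h, Complex.conj_conj]
  obtain ⟨l, rfl⟩ := hm
  rw [← two_mul, zpow_mul, zpow_ofNat, pow_two, ← map_mul, h1, map_one, one_zpow]

theorem sq_neg_one (q : ℕ) [Fact q.Prime] (h : q % 8 = 1) : ∃ δ : ℚ_[q], δ ^ 2 = -1 := by
  have hq4 : q % 4 ≠ 3 := by omega
  obtain ⟨a, ha⟩ := (ZMod.exists_sq_eq_neg_one_iff (p := q)).2 hq4
  obtain ⟨b, rfl⟩ := ZMod.intCast_surjective a
  have h0 : (q : ℤ) ∣ b ^ 2 + 1 := by
    rw [← ZMod.intCast_zmod_eq_zero_iff_dvd]
    push_cast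
    rw [pow_two, ← ha]
    ring
  have hqo : ¬ (q : ℤ) ∣ 2 * b := by
    intro hd
    have hp : Prime (q : ℤ) := Nat.prime_iff_prime_int.1 (Fact.out : q.Prime)
    have hb : (q : ℤ) ∣ b := by
      rcases hp.dvd_or_dvd hd with h2 | h2
      · exfalso
        have := Int.le_of_dvd (by norm_num) h2
        have h3 := (Fact.out : q.Prime).two_le
        omega
      · exact h2
    have h1 : (q : ℤ) ∣ 1 := by
      have h2 : (q : ℤ) ∣ b ^ 2 := Dvd.dvd.pow hb two_ne_zero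
      have := dvd_sub h0 h2
      simpa using this
    exact hp.not_dvd_one h1
  obtain ⟨F, hF⟩ : ∃ F : ℤ[X], F = X ^ 2 + 1 := ⟨_, rfl⟩
  have h1 : F.aeval (b : ℤ_[q]) = ((b ^ 2 + 1 : ℤ) : ℤ_[q]) := by
    rw [hF]
    simp
  have h2 : F.derivative.aeval (b : ℤ_[q]) = ((2 * b : ℤ) : ℤ_[q]) := by
    rw [hF]
    simp
    left
    exact map_ofNat _ 2
  have h3 : ‖F.aeval (b : ℤ_[q])‖ < ‖F.derivative.aeval (b : ℤ_[q])‖ ^ 2 := by
    rw [h1, h2]
    have h4 : ‖((2 * b : ℤ) : ℤ_[q])‖ = 1 := by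
      rcases (PadicInt.norm_le_one ((2 * b : ℤ) : ℤ_[q])).lt_or_eq with h5 | h5
      · exact absurd ((PadicInt.norm_int_lt_one_iff_dvd _).1 h5) hqo
      · exact h5
    rw [h4, one_pow]
    exact (PadicInt.norm_int_lt_one_iff_dvd _).2 h0
  obtain ⟨z, hz, -⟩ := hensels_lemma h3
  refine ⟨(z : ℚ_[q]), ?_⟩
  rw [hF] at hz
  simp only [map_add, map_pow, aeval_X, map_one] at hz
  have h5 := congrArg (fun x : ℤ_[q] => (x : ℚ_[q])) hz
  simp only [PadicInt.coe_add, PadicInt.coe_pow, PadicInt.coe_one, PadicInt.coe_zero] at h5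
  linear_combination h5

/-- At the places over primes which are 1 modulo 8 the cyclotomic character is 1 modulo 4. -/
theorem cyc_four {w : HeightOneSpectrum (𝓞 K)} {q : ℕ} (hq : q.Prime) (hq8 : q % 8 = 1)
    (hqw : (q : 𝓞 K) ∈ w.asIdeal)
    {ι : SeparableClosure K →ₐ[K] SeparableClosure (w.adicCompletion K)}
    {τ : SeparableClosure (w.adicCompletion K) ≃ₐ[w.adicCompletion K]
      SeparableClosure (w.adicCompletion K)}
    {σ : SeparableClosure K ≃ₐ[K] SeparableClosure K} (hx : ∀ x, τ (ι x) = ι (σ x)) (m : ℤ) :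
    Cg1 2 (tate K m σ) := by
  haveI : Fact q.Prime := ⟨hq⟩
  obtain ⟨δ, hδ⟩ := sq_neg_one q hq8
  obtain ⟨j, -, -, -⟩ := Pool.Agent.N498.PQ.cpl K q w hqw
  have h1 : (j δ) ^ 2 = -1 := by rw [← map_pow, hδ, map_neg, map_one]
  obtain ⟨t, ht⟩ := exists_prim (K := K) 2
  have ht2 : t ^ 2 = -1 := by
    have h2 : (t ^ 2) ^ 2 = 1 := by
      rw [← pow_mul]
      exact ht.pow_eq_one
    rcases sq_eq_one_iff.1 h2 with h3 | h3
    · exact absurd (ht.dvd_of_pow_eq_one 2 h3) (by norm_num)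
    · exact h3
  have h2 : ι t = algebraMap _ _ (j δ) ∨ ι t = -algebraMap _ _ (j δ) := by
    rw [← sq_eq_sq_iff_eq_or_eq_neg, ← map_pow, ht2, ← map_pow, h1, map_neg, map_one, map_neg,
      map_one]
  have h3 : σ t = t := by
    apply ι.injective
    show ι (σ t) = ι t
    rw [← hx]
    rcases h2 with h2 | h2
    · rw [h2, τ.commutes]
    · rw [h2, map_neg, τ.commutes]
  exact tate_cg (dvd_zpow (cyc_dvd (cyc_of_fix ht h3)) m)

end loc

end Run7.h23.Tw
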