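import Pool.Agent.Run7.h23.Tw.Fv

/-!
# The multiplicative notation
-/

set_option autoImplicit false
set_option linter.all false

open Polynomial IsDedekindDomain NumberField Topology
open scoped Classical

namespace Run7.h23.Tw

open Pool.Agent.Y160.SE
open Pool.Agent.TH115.GD (incl rs ak)
open Pool.Agent.N874.Jac (J mapJ Gal)
open Pool.Agent.N106.JB (ad_mapJ)
open Run7.h23.Bk (rsE rsE_cont HK HK_normal toK rsE_toK bc bc' bc_nat bc'_nat bc'_bc bc_bc')
open Run7.h23.Gn.W (SelW LocU)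

section conv

variable {K : Type} [Field K] (P : K[X]) {Ω Ω' : Type} [Field Ω] [Algebra K Ω] [Field Ω']
  [Algebra K Ω'] {n : ℕ}

/-- The power with a 2-adic exponent. -/
noncomputable def pw (x : J P Ω) (a : ℤ_[2]) : J P Ω := x ^ a.appr (orderOf x)

/-- The action of a matrix. -/
noncomputable def pa (M : Matrix (Fin n) (Fin n) ℤ_[2]) (y : Fin n → J P Ω) (i : Fin n) : J P Ω :=
  ∏ j, pw P (y j) (M i j)

/-- The elements of the rational Tate module. -/
def VV (x : ℕ → J P Ω) : Prop := ∀ m, x (m + 1) ^ 2 = x m ∧ ∃ k : ℕ, x m ^ 2 ^ k = 1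

variable {P}

/-- The additive notation. -/
def aa (x : J P Ω) : Jac 2 P Ω := Additive.ofMul x

def mm (x : Jac 2 P Ω) : J P Ω := Additive.toMul x

theorem aa_pw (x : J P Ω) (a : ℤ_[2]) : aa (pw P x a) = zm a (aa x) := by
  have h : addOrderOf (aa x) = orderOf x := addOrderOf_ofMul_eq_orderOf x
  unfold zm
  rw [h]
  rfl

theorem aa_pa (M : Matrix (Fin n) (Fin n) ℤ_[2]) (y : Fin n → J P Ω) (i : Fin n) :
    aa (pa P M y i) = ta M (fun j => aa (y j)) i := by
  have h1 : ∀ s : Finset (Fin n), aa (∏ j ∈ s, pw P (y j) (M i j)) =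
      ∑ j ∈ s, zm (M i j) (aa (y j)) := by
    intro s
    induction s using Finset.induction_on with
    | empty => rw [Finset.prod_empty, Finset.sum_empty]; rfl
    | insert j s hj ih =>
      rw [Finset.prod_insert hj, Finset.sum_insert hj, ← ih, ← aa_pw]
      rfl
  exact h1 Finset.univ

theorem aa_map (φ : Ω →ₐ[K] Ω') (x : J P Ω) : aa (mapJ P φ x) = jm 2 P φ (aa x) :=
  ad_mapJ φ (x : Pool.Agent.Y713.Jac.J 2 P Ω)

theorem aa_tt {x : J P Ω} (h : ∃ k : ℕ, x ^ 2 ^ k = 1) : Tt (aa x) := by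
  obtain ⟨k, hk⟩ := h
  refine ⟨k, ?_⟩
  have h1 : (2 ^ k : ℕ) • aa x = 0 := hk
  rw [← natCast_zsmul] at h1
  exact_mod_cast h1

theorem aa_two {x y : J P Ω} (h : x ^ 2 = y) : (2 : ℤ) • aa x = aa y := by
  have h1 : (2 : ℕ) • aa x = aa y := h
  rw [← natCast_zsmul] at h1
  exact_mod_cast h1

theorem mm_tt {x : Jac 2 P Ω} (h : Tt x) : ∃ k : ℕ, (mm x) ^ 2 ^ k = 1 := by
  obtain ⟨k, hk⟩ := h
  refine ⟨k, ?_⟩
  have h1 : (2 ^ k : ℕ) • x = 0 := by
    rw [← natCast_zsmul]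
    exact_mod_cast hk
  exact h1

theorem mm_two {x y : Jac 2 P Ω} (h : (2 : ℤ) • x = y) : (mm x) ^ 2 = mm y := by
  have h1 : (2 : ℕ) • x = y := by
    rw [← natCast_zsmul]
    exact_mod_cast h
  exact h1

variable {ρ : (Ω ≃ₐ[K] Ω) →* Matrix (Fin n) (Fin n) ℤ_[2]}
  {c : (Ω ≃ₐ[K] Ω) → Fin n → ℕ → J P Ω}

theorem tcoc_of (h1 : ∀ i m, IsLocallyConstant fun σ => c σ i m) (h2 : ∀ σ i, VV P (c σ i))
    (h3 : ∀ σ τ i m, c (σ * τ) i m =
      c σ i m * pa P (ρ σ) (fun j => mapJ P σ.toAlgHom (c τ j m)) i) (m : ℕ) :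
    TCoc ρ fun σ i => aa (c σ i m) where
  lc i := (h1 i m).comp aa
  tor σ i := aa_tt (h2 σ i m).2
  mul σ τ := by
    funext i
    have h4 := congrArg aa (h3 σ τ i m)
    have h5 : aa (c σ i m * pa P (ρ σ) (fun j => mapJ P σ.toAlgHom (c τ j m)) i) =
        aa (c σ i m) + aa (pa P (ρ σ) (fun j => mapJ P σ.toAlgHom (c τ j m)) i) := rfl
    rw [h5, aa_pa] at h4
    have e : (fun j => aa (mapJ P σ.toAlgHom (c τ j m))) =
        fun j => jm 2 P (ak σ) (aa (c τ j m)) := funext fun j => aa_map _ _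
    rw [e] at h4
    exact h4

theorem tloc_of {E : Type} [Field E] [Algebra E Ω'] [Algebra K E] [IsScalarTower K E Ω']
    (h : ∃ (ι : Ω →ₐ[K] Ω') (x : Fin n → ℕ → J P Ω'), (∀ i, VV P (x i)) ∧
      ∀ (τ : Ω' ≃ₐ[E] Ω') (σ : Ω ≃ₐ[K] Ω), (∀ z, τ (ι z) = ι (σ z)) → ∀ i m,
        mapJ P ι (c σ i m) =
          pa P (ρ σ) (fun j => mapJ P (τ.toAlgHom.restrictScalars K) (x j m)) i / x i m)
    (m : ℕ) : TLoc ρ E Ω' fun σ i => aa (c σ i m) := by
  obtain ⟨ι, x, hx, h⟩ := h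
  refine ⟨ι, fun i => aa (x i m), fun i => aa_tt (hx i m).2, fun τ σ hz => ?_⟩
  funext i
  have h1 := congrArg aa (h τ σ hz i m)
  have h5 : aa (pa P (ρ σ) (fun j => mapJ P (τ.toAlgHom.restrictScalars K) (x j m)) i / x i m) =
      aa (pa P (ρ σ) (fun j => mapJ P (τ.toAlgHom.restrictScalars K) (x j m)) i) -
        aa (x i m) := rfl
  rw [h5, aa_pa, aa_map] at h1
  have e : (fun j => aa (mapJ P (τ.toAlgHom.restrictScalars K) (x j m))) =
      fun j => jm 2 P (rs K τ) (aa (x j m)) := funext fun j => aa_map _ _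
  rw [e] at h1
  exact h1

theorem cob_of {x : Fin n → Jac 2 P Ω} {m : ℕ} {σ : Ω ≃ₐ[K] Ω}
    (h : (fun i => aa (c σ i m)) = cob ρ x σ) (i : Fin n) :
    c σ i m = pa P (ρ σ) (fun j => mapJ P σ.toAlgHom (mm (x j))) i / mm (x i) := by
  have h1 := congrFun h i
  have h2 : cob ρ x σ i = aa (pa P (ρ σ) (fun j => mapJ P σ.toAlgHom (mm (x j))) i / mm (x i)) := by
    have h5 : aa (pa P (ρ σ) (fun j => mapJ P σ.toAlgHom (mm (x j))) i / mm (x i)) =
      aa (pa P (ρ σ) (fun j => mapJ P σ.toAlgHom (mm (x j))) i) - x i := rfl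
    rw [h5, aa_pa]
    have e : (fun j => aa (mapJ P σ.toAlgHom (mm (x j)))) =
      fun j => jm 2 P (ak σ) (x j) := funext fun j => aa_map _ _
    rw [e]
    rfl
  exact h1.trans h2

end conv

section ov1

variable {M : Type} [Field M] [NumberField M] {F : M[X]} {n : ℕ}
  {ρ : (SeparableClosure M ≃ₐ[M] SeparableClosure M) →* Matrix (Fin n) (Fin n) ℤ_[2]}

theorem over_mul {SW : HeightOneSpectrum (𝓞 M) → Prop} (hg : Good 2 (-1 : M) F)
    (hirr : Irreducible F) (hρ : RhoK F SW ρ) (hsel : SelW (AW F ρ) F)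
    (c : Gal M → Fin n → ℕ → J F (SeparableClosure M))
    (h1 : ∀ i m, IsLocallyConstant fun σ => c σ i m) (h2 : ∀ σ i, VV F (c σ i))
    (h3 : ∀ σ τ i m, c (σ * τ) i m =
      c σ i m * pa F (ρ σ) (fun j => mapJ F σ.toAlgHom (c τ j m)) i)
    (h4 : ∀ w : HeightOneSpectrum (𝓞 M),
      ∃ (ι : SeparableClosure M →ₐ[M] SeparableClosure (w.adicCompletion M))
        (x : Fin n → ℕ → J F (SeparableClosure (w.adicCompletion M))), (∀ i, VV F (x i)) ∧
      ∀ (τ : SeparableClosure (w.adicCompletion M) ≃ₐ[w.adicCompletion M]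
          SeparableClosure (w.adicCompletion M))
        (σ : SeparableClosure M ≃ₐ[M] SeparableClosure M), (∀ z, τ (ι z) = ι (σ z)) → ∀ i m,
        mapJ F ι (c σ i m) =
          pa F (ρ σ) (fun j => mapJ F (τ.toAlgHom.restrictScalars M) (x j m)) i / x i m) :
    ∃ x : Fin n → ℕ → J F (SeparableClosure M), (∀ i, VV F (x i)) ∧
      ∀ σ i m, c σ i m = pa F (ρ σ) (fun j => mapJ F σ.toAlgHom (x j m)) i / x i m := by
  obtain ⟨x, hx1, hx2⟩ := vzero hg hirr hρ hsel (fun σ i m => aa (c σ i m))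
    (fun m => tcoc_of h1 h2 h3 m) (fun σ i m => aa_two (h2 σ i m).1)
    (fun w m => tloc_of (h4 w) m)
  exact ⟨fun i m => mm (x i m), fun i m => ⟨mm_two (hx1 i m).1, mm_tt (hx1 i m).2⟩,
    fun σ i m => cob_of (hx2 σ m) i⟩

end ov1

section base

variable {F K : Type} [Field F] [NumberField F] [Field K] [NumberField K] [Algebra F K]
  [Normal F K] [Algebra F (SeparableClosure K)] [IsScalarTower F K (SeparableClosure K)]
  {P : F[X]} {n : ℕ}
  {ρ : (SeparableClosure K ≃ₐ[F] SeparableClosure K) →* Matrix (Fin n) (Fin n) ℤ_[2]}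

theorem base_mul {SW : HeightOneSpectrum (𝓞 K) → Prop}
    (hg : Good 2 (-1 : K) (P.map (algebraMap F K)))
    (hirr : Irreducible (P.map (algebraMap F K)))
    (hρ : RhoK (P.map (algebraMap F K)) SW (ρ.comp (rsH F K (SeparableClosure K))))
    (hsel : SelW (AW (P.map (algebraMap F K)) (ρ.comp (rsH F K (SeparableClosure K))))
      (P.map (algebraMap F K)))
    (c : (SeparableClosure K ≃ₐ[F] SeparableClosure K) → Fin n → ℕ → J P (SeparableClosure K))
    (h1 : ∀ i m, IsLocallyConstant fun σ => c σ i m) (h2 : ∀ σ i, VV P (c σ i))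
    (h3 : ∀ σ τ i m, c (σ * τ) i m =
      c σ i m * pa P (ρ σ) (fun j => mapJ P σ.toAlgHom (c τ j m)) i)
    (h4 : ∀ w : HeightOneSpectrum (𝓞 K),
      ∃ (ι : SeparableClosure K →ₐ[K] SeparableClosure (w.adicCompletion K))
        (x : Fin n → ℕ → J (P.map (algebraMap F K)) (SeparableClosure (w.adicCompletion K))),
        (∀ i, VV (P.map (algebraMap F K)) (x i)) ∧
      ∀ (τ : SeparableClosure (w.adicCompletion K) ≃ₐ[w.adicCompletion K]
          SeparableClosure (w.adicCompletion K))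
        (σ : SeparableClosure K ≃ₐ[K] SeparableClosure K), (∀ z, τ (ι z) = ι (σ z)) → ∀ i m,
        mapJ (P.map (algebraMap F K)) ι (bc K P (SeparableClosure K) (c (rsE σ) i m)) =
          pa (P.map (algebraMap F K)) (ρ.comp (rsH F K (SeparableClosure K)) σ)
            (fun j => mapJ (P.map (algebraMap F K)) (τ.toAlgHom.restrictScalars K) (x j m)) i /
              x i m) :
    ∃ x : Fin n → ℕ → J P (SeparableClosure K), (∀ i, VV P (x i)) ∧
      ∀ σ i m, c σ i m = pa P (ρ σ) (fun j => mapJ P σ.toAlgHom (x j m)) i / x i m := by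
  have hT : ∀ m, TCoc ρ fun σ i => aa (c σ i m) := fun m => tcoc_of h1 h2 h3 m
  obtain ⟨x, hx1, hx2⟩ := vzero hg hirr hρ hsel
    (fun σ i m => bA (K := K) P (aa (c (rsE σ) i m)))
    (fun m => (hT m).restrict P) (fun σ i m => by
      rw [← map_zsmul, aa_two (h2 (rsE σ) i m).1])
    (fun w m => tloc_of (c := fun σ i m => bc K P (SeparableClosure K) (c (rsE σ) i m)) (h4 w) m)
  refine ⟨fun i m => mm (bA' P (x i m)), fun i m => ⟨?_, ?_⟩, fun σ i m => ?_⟩
  · refine mm_two ?_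
    rw [← map_zsmul, (hx1 i m).1]
  · exact mm_tt ((hx1 i m).2.map _)
  · have h5 := descend P hg hirr hρ.two (hT m) (x := fun i => x i m) (fun i => (hx1 i m).2)
      (fun σ => hx2 σ m) σ
    exact cob_of h5 i

end base

end Run7.h23.Tw
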