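import Pool.Agent.Run7.h23.Tw.Unr
import Pool.Agent.Run7.h23.Gn.Cnd

/-!
# The local condition over the maximal unramified extension: even valuations
-/

set_option autoImplicit false
set_option linter.all false

open Polynomial IsDedekindDomain WithZero NumberField
open scoped Classical NNReal

namespace Run7.h23.Tw

open Pool.Agent.N783.PF
open Pool.Agent.N874.PP (Ev)
open Pool.Agent.N874.PM (Lies)
open Pool.Agent.N783.PQ (LocIm)
open Pool.Agent.N352.PJ (CV ac)
open Pool.Agent.N704.PP (vx ev_of near_one)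
open Pool.Agent.N704.PJ (WV wv_le wv_lt wv_eq wv_sq)
open Pool.Agent.N123.JM (emb vemb eval_emb one_of root_le der_scale emb_comp)

/-- Good reduction, even valuations; the field need not be complete. -/
theorem e1' (E : Type) [Field E] (w : Valuation (AlgebraicClosure E) ℝ≥0)
    (hw : ∀ (σ : AlgebraicClosure E ≃ₐ[E] AlgebraicClosure E) (x : AlgebraicClosure E), w (σ x) = w x)
    (f u v : E[X]) (θ : E) (hf : f.Monic) (hodd : Odd f.natDegree)
    (hint : ∀ i, w (ac (f.coeff i)) ≤ 1) (hθ : w (ac θ) ≤ 1) (hfθ : f.eval θ = 0)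
    (hd : w (ac ((derivative f).eval θ)) = 1) (hu : u.Monic) (hc : IsCoprime u f)
    (huv : u ∣ v ^ 2 - f) : ∃ y : E, y ≠ 0 ∧ w (ac (u.eval θ)) = w (ac y) ^ 2 := by
  have key : ∀ n : ℕ, ∀ u : E[X], u.natDegree ≤ n → u.Monic → IsCoprime u f → u ∣ v ^ 2 - f →
      ∃ y : E, y ≠ 0 ∧ w (ac (u.eval θ)) = w (ac y) ^ 2 := by
    intro n
    induction n with
    | zero =>
      intro u hn hu _ _
      have : u = 1 := by
        have h0 : u.natDegree = 0 := by omega
        exact eq_one_of_monic_natDegree_zero hu h0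
      refine ⟨1, one_ne_zero, ?_⟩
      rw [this, eval_one, ac, map_one, map_one, one_pow]
    | succ n ih =>
      intro u hn hu hc huv
      by_cases hun : IsUnit u
      · have : u = 1 := hu.eq_one_of_isUnit hun
        refine ⟨1, one_ne_zero, ?_⟩
        rw [this, eval_one, ac, map_one, map_one, one_pow]
      · obtain ⟨q, hqm, hqi, u', rfl⟩ := exists_monic_irreducible_factor u hun
        have hu' : u'.Monic := hqm.of_mul_monic_left hu
        have hdeg : (q * u').natDegree = q.natDegree + u'.natDegree :=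
          natDegree_mul hqm.ne_zero hu'.ne_zero
        have hq1 : 0 < q.natDegree := hqi.natDegree_pos
        obtain ⟨y1, hy1, h1⟩ := Pool.Agent.N427.PJ.irr w hw f q v θ hf hodd hint hθ hfθ hd hqm
          (IsCoprime.of_mul_left_left hc) ((dvd_mul_right q u').trans huv) hqi
        obtain ⟨y2, hy2, h2⟩ := ih u' (by omega) hu' (IsCoprime.of_mul_left_right hc)
          ((dvd_mul_left u' q).trans huv)
        refine ⟨y1 * y2, mul_ne_zero hy1 hy2, ?_⟩
        have e1 : ac ((q * u').eval θ) = ac (q.eval θ) * ac (u'.eval θ) := by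
          unfold ac; rw [eval_mul, map_mul]
        have e2 : ac (y1 * y2) = ac y1 * ac y2 := by unfold ac; rw [map_mul]
        rw [e1, e2, map_mul, map_mul, h1, h2, mul_pow]
  exact key u.natDegree u le_rfl hu hc huv

/-- The same for a valuation of any algebraically closed field which is algebraic over `E`. -/
theorem e1A (E A : Type) [Field E] [Field A] [Algebra E A] [IsAlgClosed A]
    [Algebra.IsAlgebraic E A] (W : Valuation A ℝ≥0)
    (hW : ∀ (σ : A ≃ₐ[E] A) (x : A), W (σ x) = W x)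
    (f u v : E[X]) (θ : E) (hf : f.Monic) (hodd : Odd f.natDegree)
    (hint : ∀ i, W (algebraMap E A (f.coeff i)) ≤ 1) (hθ : W (algebraMap E A θ) ≤ 1)
    (hfθ : f.eval θ = 0) (hd : W (algebraMap E A ((derivative f).eval θ)) = 1) (hu : u.Monic)
    (hc : IsCoprime u f) (huv : u ∣ v ^ 2 - f) :
    ∃ y : E, y ≠ 0 ∧ W (algebraMap E A (u.eval θ)) = W (algebraMap E A y) ^ 2 := by
  haveI : IsAlgClosure E A := ⟨inferInstance, inferInstance⟩
  let e : AlgebraicClosure E ≃ₐ[E] A := IsAlgClosure.equiv E (AlgebraicClosure E) A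
  let w : Valuation (AlgebraicClosure E) ℝ≥0 := W.comap (e : AlgebraicClosure E →+* A)
  have hwx : ∀ x : AlgebraicClosure E, w x = W (e x) := fun x => rfl
  have hwE : ∀ x : E, w (ac x) = W (algebraMap E A x) := fun x => by
    rw [hwx, ac, e.commutes]
  have hw : ∀ (σ : AlgebraicClosure E ≃ₐ[E] AlgebraicClosure E) (x : AlgebraicClosure E),
      w (σ x) = w x := by
    intro σ x
    have h1 := hW ((e.symm.trans σ).trans e) (e x)
    have e1 : ((e.symm.trans σ).trans e) (e x) = e (σ x) := by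
      simp [AlgEquiv.trans_apply]
    rw [hwx, hwx, ← h1, e1]
  obtain ⟨y, hy0, hy⟩ := e1' E w hw f u v θ hf hodd (fun i => by rw [hwE]; exact hint i)
    (by rw [hwE]; exact hθ) hfθ (by rw [hwE]; exact hd) hu hc huv
  exact ⟨y, hy0, by rw [← hwE, ← hwE]; exact hy⟩

section nr

variable {M : Type} [Field M] [NumberField M] (w : HeightOneSpectrum (𝓞 M))

/-- The roots of unity of order prime to `w`. -/
def mu : Set (SeparableClosure (w.adicCompletion M)) :=
  {ζ | ∃ N : ℕ, (N : 𝓞 M) ∉ w.asIdeal ∧ ζ ^ N = 1}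

/-- The extension of the completion generated by the roots of unity of order prime to `w`. -/
noncomputable abbrev Nr : IntermediateField (w.adicCompletion M) (SeparableClosure (w.adicCompletion M)) :=
  IntermediateField.adjoin (w.adicCompletion M) (mu w)

end nr

section res

variable {Ω : Type} [Field Ω] [NumberField Ω] (𝔓 : HeightOneSpectrum (𝓞 Ω))

/-- The valuation of the completion and the residue field. -/
theorem exists_dat (h2 : 𝔓.valuation Ω 2 = 1) :
    ∃ (W : Valuation (AlgebraicClosure (𝔓.adicCompletion Ω)) ℝ≥0) (c : ℝ≥0) (p f : ℕ),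
      CV (𝔓.adicCompletion Ω) W c ∧ WV W c ∧ Dat (𝔓.adicCompletion Ω) W c p f := by
  obtain ⟨W, c, hc, hW⟩ := Pool.Agent.N787.PJ.ext (𝓞 Ω) Ω 𝔓 h2
  change WV W c at hW
  haveI hmax : 𝔓.asIdeal.IsMaximal := 𝔓.isMaximal
  letI : Field (𝓞 Ω ⧸ 𝔓.asIdeal) := Ideal.Quotient.field _
  haveI : Finite (𝓞 Ω ⧸ 𝔓.asIdeal) := Ideal.finiteQuotientOfFreeOfNeBot _ 𝔓.ne_bot
  haveI : Fintype (𝓞 Ω ⧸ 𝔓.asIdeal) := Fintype.ofFinite _
  obtain ⟨p, hp⟩ := CharP.exists (𝓞 Ω ⧸ 𝔓.asIdeal)
  haveI := hp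
  obtain ⟨n, hpp, hcard⟩ := FiniteField.card (𝓞 Ω ⧸ 𝔓.asIdeal) p
  refine ⟨W, c, p, n, hc, hW, hc.c0, hc.c1, hc.disc, ?_, hc.conj, hpp, ?_, n.ne_zero, ?_⟩
  · obtain ⟨π, hπ⟩ := 𝔓.valuation_exists_uniformizer Ω
    refine ⟨algebraMap Ω _ π, ?_⟩
    rw [hW _ 1 (by rw [vx, hπ]), zpow_one]
  · have h3 : (p : 𝓞 Ω) ∈ 𝔓.asIdeal := by
      rw [← Ideal.Quotient.eq_zero_iff_mem, map_natCast]
      exact CharP.cast_eq_zero _ p
    have h4 := (wv_lt hc hW (algebraMap Ω _ (p : Ω))).2 (by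
      rw [vx]
      exact (Run7.h23.Gn.nat_mem 𝔓 p).1 h3)
    rw [ac, map_natCast, map_natCast] at h4
    exact h4
  · intro a ha
    have ha1 := (wv_le hc hW a).1 ha
    obtain ⟨r, hr⟩ := Pool.Agent.N507.JM.resC (M := Ω) 𝔓 a ha1
    have hq : p ^ (n : ℕ) = Fintype.card (𝓞 Ω ⧸ 𝔓.asIdeal) := hcard.symm
    have h3 : r ^ p ^ (n : ℕ) - r ∈ 𝔓.asIdeal := by
      rw [← Ideal.Quotient.eq_zero_iff_mem, map_sub, map_pow, hq, FiniteField.pow_card, sub_self]
    have e : algebraMap (𝔓.adicCompletion Ω) (AlgebraicClosure (𝔓.adicCompletion Ω)) a ^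
        p ^ (n : ℕ) - algebraMap _ _ a = ac (a ^ p ^ (n : ℕ) - a) := by
      rw [ac, map_sub, map_pow]
    rw [e]
    refine (wv_lt hc hW _).2 ?_
    set b : 𝔓.adicCompletion Ω := algebraMap Ω _ (algebraMap (𝓞 Ω) Ω r) with hb
    have h4 : Valued.v (Γ₀ := WithZero (Multiplicative ℤ)) (b ^ p ^ (n : ℕ) - b) < 1 := by
      rw [hb, ← map_pow, ← map_pow, ← map_sub, ← map_sub, vx]
      exact (HeightOneSpectrum.valuation_lt_one_iff_mem (K := Ω) 𝔓 _).2 h3
    have hb1 : Valued.v (Γ₀ := WithZero (Multiplicative ℤ)) b ≤ 1 := by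
      rw [hb, vx]
      exact HeightOneSpectrum.valuation_le_one 𝔓 r
    have h5 : Valued.v (Γ₀ := WithZero (Multiplicative ℤ)) (a ^ p ^ (n : ℕ) - b ^ p ^ (n : ℕ)) <
        1 := by
      have h6 : (a - b) ∣ a ^ p ^ (n : ℕ) - b ^ p ^ (n : ℕ) := sub_dvd_pow_sub_pow _ _ _
      rw [← Commute.geom_sum₂_mul (Commute.all a b)]
      rw [map_mul]
      have h7 : Valued.v (Γ₀ := WithZero (Multiplicative ℤ))
          (∑ i ∈ Finset.range (p ^ (n : ℕ)), a ^ i * b ^ (p ^ (n : ℕ) - 1 - i)) ≤ 1 := by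
        refine Valuation.map_sum_le _ fun i _ => ?_
        rw [map_mul, map_pow, map_pow]
        exact mul_le_one' (pow_le_one' ha1 _) (pow_le_one' hb1 _)
      exact lt_of_le_of_lt (mul_le_of_le_one_left' h7) hr
    have e2 : a ^ p ^ (n : ℕ) - a =
        (a ^ p ^ (n : ℕ) - b ^ p ^ (n : ℕ)) + (b ^ p ^ (n : ℕ) - b) - (a - b) := by ring
    rw [e2]
    exact lt_of_le_of_lt (Valuation.map_sub _ _ _)
      (max_lt (lt_of_le_of_lt (Valuation.map_add _ _ _) (max_lt h5 h4)) hr)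

end res

section ev

variable {M Ω : Type} [Field M] [NumberField M] [Field Ω] [NumberField Ω] [Algebra M Ω]

/-- A map of the unramified extension of the completion at `w` to that at `𝔓`. -/
theorem exists_map {w : HeightOneSpectrum (𝓞 M)} {𝔓 : HeightOneSpectrum (𝓞 Ω)}
    (ι : w.adicCompletion M →+* 𝔓.adicCompletion Ω)
    (W : Valuation (AlgebraicClosure (𝔓.adicCompletion Ω)) ℝ≥0)
    (hN : ∀ N : ℕ, (N : 𝓞 M) ∉ w.asIdeal → W (N : AlgebraicClosure (𝔓.adicCompletion Ω)) = 1) :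
    ∃ ψ : Nr w →+* IntermediateField.adjoin (𝔓.adicCompletion Ω) (muS W),
      ∀ x : w.adicCompletion M, ψ (algebraMap _ _ x) = algebraMap _ _ (ι x) := by
  letI : Algebra (w.adicCompletion M) (AlgebraicClosure (𝔓.adicCompletion Ω)) :=
    ((algebraMap (𝔓.adicCompletion Ω) (AlgebraicClosure (𝔓.adicCompletion Ω))).comp ι).toAlgebra
  let φ : SeparableClosure (w.adicCompletion M) →ₐ[w.adicCompletion M]
      AlgebraicClosure (𝔓.adicCompletion Ω) := IsAlgClosed.lift
  have hφ : ∀ x : w.adicCompletion M, φ (algebraMap _ _ x) = algebraMap _ _ (ι x) := fun x =>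
    φ.commutes x
  have key : ∀ x ∈ Nr w, φ x ∈ IntermediateField.adjoin (𝔓.adicCompletion Ω) (muS W) := by
    intro x hx
    induction hx using IntermediateField.adjoin_induction with
    | mem x hx =>
      obtain ⟨N, h1, h2⟩ := hx
      refine IntermediateField.subset_adjoin _ _ ⟨N, hN N h1, ?_⟩
      rw [← map_pow, h2, map_one]
    | algebraMap x =>
      rw [hφ]
      exact IntermediateField.algebraMap_mem _ _
    | add x y hx hy ihx ihy =>
      rw [map_add]
      exact add_mem ihx ihy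
    | mul x y hx hy ihx ihy =>
      rw [map_mul]
      exact mul_mem ihx ihy
    | inv x hx ih =>
      rw [map_inv₀]
      exact inv_mem ih
  let ψ : Nr w →+* IntermediateField.adjoin (𝔓.adicCompletion Ω) (muS W) :=
    ((φ : SeparableClosure (w.adicCompletion M) →+* _).comp (algebraMap (Nr w) _)).codRestrict
      (IntermediateField.adjoin (𝔓.adicCompletion Ω) (muS W)) (fun x => key x x.2)
  refine ⟨ψ, fun x => ?_⟩
  apply Subtype.ext
  exact hφ x

/-- Primes not dividing `2 D` at which `f'(θ)` is a unit. -/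
theorem ev_nr {g : ℕ} {f : (𝓞 M)[X]} {θ : Ω} (hG : IsGen g f θ)
    {w : HeightOneSpectrum (𝓞 M)} {𝔓 : HeightOneSpectrum (𝓞 Ω)}
    (hL : Lies (M := M) (Ω := Ω) w 𝔓) (h2 : (2 : 𝓞 M) ∉ w.asIdeal) {D : ℕ}
    (hD : (D : 𝓞 M) ∉ w.asIdeal) (h : M[X])
    (hder : 𝔓.valuation Ω (aeval θ (derivative (fF f))) = 1)
    (hloc : LocIm (Nr w)
      (((fF (f.scaleRoots ((D : ℕ) : 𝓞 M))).map (algebraMap M (w.adicCompletion M))).map
        (algebraMap (w.adicCompletion M) (Nr w)))
      ((h.map (algebraMap M (w.adicCompletion M))).map (algebraMap (w.adicCompletion M) (Nr w))))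
    (hne : aeval ((D : Ω) * θ) h ≠ 0) : Ev 𝔓 (aeval ((D : Ω) * θ) h) := by
  have v2 : w.valuation M 2 = 1 := by
    have := Pool.Agent.N78.PF.val_one h2
    rwa [Pool.Agent.N78.PF.two_cast] at this
  have vD : w.valuation M (D : M) = 1 := by
    have := Pool.Agent.N78.PF.val_one hD
    simpa using this
  have v2' : 𝔓.valuation Ω 2 = 1 := by
    have := one_of hL v2
    rwa [map_ofNat] at this
  have hvD : 𝔓.valuation Ω (D : Ω) = 1 := by
    have := one_of hL vD
    rwa [map_natCast] at this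
  obtain ⟨ι, hι, -, -⟩ := Pool.Agent.N814.JM.cpl M Ω (𝓞 M) (𝓞 Ω) w 𝔓 hL
  obtain ⟨W, c, p, n, hc, hW, hDat⟩ := exists_dat 𝔓 v2'
  set A := AlgebraicClosure (𝔓.adicCompletion Ω) with hA
  have hN : ∀ N : ℕ, (N : 𝓞 M) ∉ w.asIdeal → W (N : A) = 1 := by
    intro N hN
    have h1 := Pool.Agent.N78.PF.val_one hN
    have h3 : w.valuation M (N : M) = 1 := by simpa using h1
    have h4 := one_of hL h3
    rw [map_natCast] at h4
    have h5 := (wv_eq hc hW (algebraMap Ω _ (N : Ω))).2 (by rw [vx]; exact h4)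
    rw [ac, map_natCast, map_natCast] at h5
    exact h5
  haveI : CharZero (𝔓.adicCompletion Ω) :=
    charZero_of_injective_algebraMap (algebraMap Ω (𝔓.adicCompletion Ω)).injective
  obtain ⟨E, hval, ψ, hψ⟩ : ∃ E : IntermediateField (𝔓.adicCompletion Ω)
      (AlgebraicClosure (𝔓.adicCompletion Ω)), (∀ x ∈ E, x ≠ 0 → ∃ n : ℤ, W x = c ^ n) ∧
      ∃ ψ : Nr w →+* E, ∀ x : w.adicCompletion M, ψ (algebraMap _ _ x) = algebraMap _ _ (ι x) :=
    ⟨_, fun x hx hx0 => hDat.val_nr hx hx0, exists_map ι W hN⟩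
  haveI : Algebra.IsAlgebraic E A := Algebra.IsAlgebraic.tower_top (K := 𝔓.adicCompletion Ω) E
  have hWE : ∀ (σ : A ≃ₐ[E] A) (x : A), W (σ x) = W x := fun σ x =>
    hc.conj (σ.restrictScalars (𝔓.adicCompletion Ω)) x
  -- the embedding of `Ω`
  let j : Ω →+* E := (algebraMap (𝔓.adicCompletion Ω) E).comp (algebraMap Ω (𝔓.adicCompletion Ω))
  have hj : ∀ x : Ω, W (algebraMap E A (j x)) = W (ac (algebraMap Ω (𝔓.adicCompletion Ω) x)) :=
    fun x => rfl
  have hjle : ∀ x : Ω, W (algebraMap E A (j x)) ≤ 1 ↔ 𝔓.valuation Ω x ≤ 1 := fun x => by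
    rw [hj, wv_le hc hW, vx]
  have hjeq : ∀ x : Ω, W (algebraMap E A (j x)) = 1 ↔ 𝔓.valuation Ω x = 1 := fun x => by
    rw [hj, wv_eq hc hW, vx]
  have hmap : ∀ q : M[X], (((q.map (algebraMap M (w.adicCompletion M))).map
      (algebraMap (w.adicCompletion M) (Nr w))).map ψ) = (q.map (algebraMap M Ω)).map j := by
    intro q
    rw [Polynomial.map_map, Polynomial.map_map, Polynomial.map_map]
    congr 1
    refine RingHom.ext fun x => ?_
    show ψ (algebraMap _ _ (algebraMap M (w.adicCompletion M) x)) = j (algebraMap M Ω x)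
    rw [hψ, hι]
    rfl
  have h3 := Run7.h23.Gn.locIm_map ψ hloc
  rw [hmap, hmap] at h3
  obtain ⟨l, s, hl1, hl2⟩ := h3
  set F : M[X] := fF (f.scaleRoots ((D : ℕ) : 𝓞 M)) with hF
  have hFs : F = (fF f).scaleRoots ((D : ℕ) : M) := Pool.Agent.N78.PF.fF_scale hG.mon D
  have hfm : (fF f).Monic := hG.mon.map _
  have hfd : (fF f).natDegree = 2 * g + 1 := by
    rw [fF, hG.mon.natDegree_map, hG.deg]
  have hFm : F.Monic := by rw [hFs]; exact (monic_scaleRoots_iff _).2 hfm
  have hFd : F.natDegree = 2 * g + 1 := by rw [hFs, natDegree_scaleRoots, hfd]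
  set Θ : Ω := (D : Ω) * θ with hΘ
  have eD : (D : Ω) = algebraMap M Ω (D : M) := by simp
  have hΘ0 : aeval Θ F = 0 := by
    rw [hΘ, hFs, eD]
    exact scaleRoots_aeval_eq_zero hG.root
  have heval : ∀ q : M[X], ((q.map (algebraMap M Ω)).map j).eval (j Θ) = j (aeval Θ q) := by
    intro q
    rw [Polynomial.map_map, eval_map, ← hom_eval₂, aeval_def]
  have hco : ∀ i, W (algebraMap E A ((((F.map (algebraMap M Ω)).map j)).coeff i)) ≤ 1 := by
    intro i
    rw [coeff_map, coeff_map, hjle]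
    refine hL.le _ ?_
    rw [hF, fF, coeff_map]
    exact HeightOneSpectrum.valuation_le_one (K := M) w _
  have hθ1 : 𝔓.valuation Ω θ ≤ 1 := by
    refine root_le hfm (fun i => hL.le _ ?_) hG.root
    rw [fF, coeff_map]
    exact HeightOneSpectrum.valuation_le_one (K := M) w _
  have hder' : 𝔓.valuation Ω (aeval Θ (derivative F)) = 1 := by
    have h4 := congrArg (𝔓.valuation Ω) (der_scale (Ω := Ω) (fF f) (D : M) θ)
    rw [map_mul, map_mul, map_pow, ← eD, hvD, one_pow, hder, mul_one, mul_one, ← hΘ, ← hFs] at h4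
    exact h4
  have key : ∀ q ∈ l, ∃ y : E, y ≠ 0 ∧
      W (algebraMap E A (q.1.eval (j Θ))) = W (algebraMap E A y) ^ 2 := by
    intro q hq
    obtain ⟨a1, a2, a3⟩ := hl1 q hq
    refine e1A E A W hWE ((F.map (algebraMap M Ω)).map j) q.1 q.2 (j Θ) ((hFm.map _).map _) ?_
      hco ?_ ?_ ?_ a1 a2 a3
    · rw [(hFm.map _).natDegree_map, hFm.natDegree_map, hFd]
      exact odd_two_mul_add_one g
    · rw [hjle, hΘ, map_mul, hvD, one_mul]
      exact hθ1
    · rw [heval, hΘ0, map_zero]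
    · rw [derivative_map, derivative_map, heval, hjeq]
      exact hder'
  have key2 : ∀ l' : List (E[X] × E[X]), (∀ q ∈ l', ∃ y : E, y ≠ 0 ∧
      W (algebraMap E A (q.1.eval (j Θ))) = W (algebraMap E A y) ^ 2) → ∃ y : E, y ≠ 0 ∧
      W (algebraMap E A ((l'.map fun q => (-1) ^ q.1.natDegree * q.1.eval (j Θ)).prod)) =
        W (algebraMap E A y) ^ 2 := by
    intro l'
    induction l' with
    | nil =>
      intro _
      exact ⟨1, one_ne_zero, by simp⟩
    | cons q l' ih =>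
      intro hq
      obtain ⟨y, hy0, hy⟩ := ih fun q hq' => hq q (List.mem_cons_of_mem _ hq')
      obtain ⟨z, hz0, hz⟩ := hq q List.mem_cons_self
      refine ⟨z * y, mul_ne_zero hz0 hy0, ?_⟩
      rw [List.map_cons, List.prod_cons, map_mul, map_mul, hy, map_mul, map_mul, hz, map_mul,
        map_mul, map_pow, map_pow, map_neg, map_one, Valuation.map_neg, map_one, one_pow, one_mul,
        mul_pow]
  obtain ⟨y, hy0, hy⟩ := key2 l key
  -- evaluate the relation at `Θ`
  obtain ⟨q, hq⟩ := hl2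
  have h5 := congrArg (eval (j Θ)) hq
  rw [eval_sub, eval_mul, eval_pow, eval_mul, heval, heval, hΘ0, map_zero, zero_mul,
    sub_eq_zero] at h5
  have h6 : (eval (j Θ) ((l.map fun p => (-1) ^ p.1.natDegree * p.1).prod)) =
      (l.map fun q => (-1) ^ q.1.natDegree * q.1.eval (j Θ)).prod := by
    rw [← coe_evalRingHom, map_list_prod, List.map_map]
    congr 2
    funext p
    simp
  rw [h6] at h5
  set pr := (l.map fun q => (-1) ^ q.1.natDegree * q.1.eval (j Θ)).prod with hpr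
  have hα0 : j (aeval Θ h) ≠ 0 := by rw [Ne, map_eq_zero]; exact hne
  have hWy : W (algebraMap E A y) ≠ 0 := by
    rw [Valuation.ne_zero_iff, Ne, map_eq_zero]
    exact hy0
  have hpr0 : pr ≠ 0 := by
    intro h0
    rw [h0, map_zero, map_zero] at hy
    exact pow_ne_zero 2 hWy hy.symm
  set z : E := eval (j Θ) s with hz
  have hz0 : z ≠ 0 := by
    intro h0
    rw [h0, zero_pow two_ne_zero] at h5
    exact mul_ne_zero hα0 hpr0 h5
  have h7 : W (algebraMap E A (j (aeval Θ h))) = (W (algebraMap E A (z / y))) ^ 2 := by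
    have h8 := congrArg (fun x => W (algebraMap E A x)) h5
    simp only [map_mul, map_pow] at h8
    rw [hy] at h8
    rw [map_div₀, map_div₀, div_pow, ← h8, mul_div_assoc, div_self (pow_ne_zero 2 hWy), mul_one]
  obtain ⟨m, hm⟩ := hval ((z / y : E) : A) (z / y : E).2 (by
    have h9 : (z / y : E) ≠ 0 := div_ne_zero hz0 hy0
    exact fun h10 => h9 (Subtype.ext h10))
  have h8 : W (algebraMap E A (z / y)) = c ^ m := hm
  rw [h8, hj] at h7
  obtain ⟨π, hπ⟩ := 𝔓.valuation_exists_uniformizer Ω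
  have hπ1 : W (ac (algebraMap Ω (𝔓.adicCompletion Ω) π)) = c := by
    rw [ac, hW _ 1 (by rw [vx, hπ]), zpow_one]
  have hπ0 : π ≠ 0 := by
    rintro rfl
    rw [map_zero] at hπ
    exact exp_ne_zero hπ.symm
  refine ev_of 𝔓 _ (algebraMap Ω (𝔓.adicCompletion Ω) (π ^ m)) ?_
  refine wv_sq (x := algebraMap Ω (𝔓.adicCompletion Ω) (aeval Θ h)) hc hW ?_ ?_ ?_
  · rw [Ne, map_eq_zero]
    exact hne
  · rw [Ne, map_eq_zero]
    exact zpow_ne_zero _ hπ0
  · rw [h7, map_zpow₀, ac, map_zpow₀, map_zpow₀]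
    congr 2
    exact hπ1.symm

end ev

end Run7.h23.Tw
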