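import Pool.Agent.Run7.h23.Tw.Kv
import Pool.Agent.Run7.h23.Bk.Art

/-!
# Descent of the coboundaries to the base field
-/

set_option autoImplicit false
set_option linter.all false

open Polynomial IsDedekindDomain NumberField Topology
open scoped Classical

namespace Run7.h23.Tw

open Pool.Agent.Y160.SE
open Pool.Agent.TH115.GD (incl rs ak exists_restrict)
open Run7.h23.Bk (rsE rsE_cont HK HK_normal toK rsE_toK bc bc' bc_nat bc'_nat bc'_bc bc_bc')
open Pool.Agent.N106.JB (ad mu ad_mapJ)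

section abs

variable {G A : Type} [Group G] [AddCommGroup A]

theorem abs_inf' (T : A → Prop) (hT0 : T 0) (hTs : ∀ x y, T x → T y → T (x - y))
    (α : G → A → A) (hαT : ∀ σ x, T x → T (α σ x))
    (hαs : ∀ σ x y, T x → T y → α σ (x - y) = α σ x - α σ y)
    (hα : ∀ σ τ y, T y → α (σ * τ) y = α σ (α τ y))
    (H : Subgroup G) (hH : ∀ σ, ∀ h ∈ H, σ⁻¹ * h * σ ∈ H) (c : G → A) (hcT : ∀ σ, T (c σ))
    (hc : ∀ σ τ, c (σ * τ) = c σ + α σ (c τ)) (x : A) (hxT : T x)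
    (hx : ∀ σ ∈ H, c σ = α σ x - x)
    (hS : ∀ y, T y → (∀ h ∈ H, α h y = y) → y = 0) (σ : G) : c σ = α σ x - x := by
  set d : G → A := fun σ => c σ - (α σ x - x) with hd
  have hdT : ∀ σ, T (d σ) := fun σ => hTs _ _ (hcT σ) (hTs _ _ (hαT σ x hxT) hxT)
  have hd1 : ∀ σ τ, d (σ * τ) = d σ + α σ (d τ) := by
    intro σ τ
    show c (σ * τ) - (α (σ * τ) x - x) = c σ - (α σ x - x) + α σ (c τ - (α τ x - x))
    rw [hc, hα σ τ x hxT, hαs σ _ _ (hcT τ) (hTs _ _ (hαT τ x hxT) hxT),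
      hαs σ _ _ (hαT τ x hxT) hxT]
    abel
  have hd2 : ∀ h ∈ H, d h = 0 := by
    intro h hh
    show c h - (α h x - x) = 0
    rw [hx h hh, sub_self]
  have hα0 : ∀ σ, α σ 0 = 0 := by
    intro σ
    have := hαs σ 0 0 hT0 hT0
    rwa [sub_self, sub_self] at this
  have hd3 : ∀ h ∈ H, α h (d σ) = d σ := by
    intro h hh
    have h1 := hd1 h σ
    rw [hd2 h hh, zero_add] at h1
    have h2 := hd1 σ (σ⁻¹ * h * σ)
    rw [hd2 _ (hH σ h hh), hα0, add_zero] at h2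
    have h3 : σ * (σ⁻¹ * h * σ) = h * σ := by group
    rw [h3] at h2
    rw [← h1, h2]
  exact sub_eq_zero.1 (hS _ (hdT σ) hd3)

end abs

section bcA

variable {F K : Type} [Field F] [Field K] [Algebra F K] (P : F[X])
  {Ω : Type} [Field Ω] [Algebra F Ω] [Algebra K Ω] [IsScalarTower F K Ω]

/-- The identification of the groups over the two base fields. -/
noncomputable def bA : Jac 2 P Ω →+ Jac 2 (P.map (algebraMap F K)) Ω :=
  MonoidHom.toAdditive (bc K P Ω)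

noncomputable def bA' : Jac 2 (P.map (algebraMap F K)) Ω →+ Jac 2 P Ω :=
  MonoidHom.toAdditive (bc' K P Ω)

theorem bA'_bA (x : Jac 2 P Ω) : bA' P (bA (K := K) P x) = x := bc'_bc K P x.toMul

theorem bA_bA' (x : Jac 2 (P.map (algebraMap F K)) Ω) : bA (K := K) P (bA' P x) = x :=
  bc_bc' K P x.toMul

theorem bA_nat (σ : Ω ≃ₐ[K] Ω) (x : Jac 2 P Ω) :
    bA (K := K) P (jm 2 P (ak (rsE σ : Ω ≃ₐ[F] Ω)) x) =
      jm 2 (P.map (algebraMap F K)) (ak σ) (bA P x) := by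
  have h := bc_nat K P σ.toAlgHom x.toMul
  have h1 := ad_mapJ (ak (rsE σ : Ω ≃ₐ[F] Ω)) (x.toMul : Pool.Agent.Y713.Jac.J 2 P Ω)
  have h2 := ad_mapJ (ak σ) ((bA (K := K) P x).toMul :
    Pool.Agent.Y713.Jac.J 2 (P.map (algebraMap F K)) Ω)
  refine (congrArg (bA (K := K) P) h1).symm.trans (Eq.trans ?_ h2)
  exact h

variable (F K Ω) in
/-- Restriction of scalars. -/
def rsH : (Ω ≃ₐ[K] Ω) →* (Ω ≃ₐ[F] Ω) where
  toFun := rsE
  map_one' := rfl
  map_mul' _ _ := rfl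

variable {n : ℕ} {ρ : (Ω ≃ₐ[F] Ω) →* Matrix (Fin n) (Fin n) ℤ_[2]}

theorem act_nat {y : Fin n → Jac 2 P Ω} (hy : ∀ j, Tt (y j)) (σ : Ω ≃ₐ[K] Ω) :
    act (ρ.comp (rsH F K Ω)) σ (fun j => bA (K := K) P (y j)) =
      fun i => bA P (act ρ (rsE σ) y i) := by
  unfold act
  have e : (fun j => jm 2 (P.map (algebraMap F K)) (ak σ) (bA P (y j))) =
      fun j => bA (K := K) P (jm 2 P (ak (rsE σ : Ω ≃ₐ[F] Ω)) (y j)) :=
    funext fun j => (bA_nat P σ (y j)).symm
  rw [e]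
  funext i
  exact (ta_map (fun j => (hy j).map _) (bA (K := K) P) i).symm

theorem TCoc.restrict [Algebra.IsAlgebraic K Ω] {b : (Ω ≃ₐ[F] Ω) → Fin n → Jac 2 P Ω}
    (h : TCoc ρ b) : TCoc (ρ.comp (rsH F K Ω)) fun σ i => bA (K := K) P (b (rsE σ) i) where
  lc i := ((h.lc i).comp_continuous rsE_cont).comp _
  tor σ i := (h.tor _ i).map _
  mul σ τ := by
    have h1 := h.mul (rsE σ) (rsE τ)
    have h2 : act (ρ.comp (rsH F K Ω)) σ (fun j => bA (K := K) P (b (rsE τ) j)) =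
      fun i => bA P (act ρ (rsE σ) (b (rsE τ)) i) := act_nat P (h.tor _) σ
    refine Eq.trans ?_ (congrArg (fun z => (fun i => bA (K := K) P (b (rsE σ) i)) + z) h2.symm)
    funext i
    have h3 := congrArg (bA (K := K) P) (congrFun h1 i)
    exact h3.trans (map_add _ _ _)

/-- From the restriction to `K` to the base field. -/
theorem descend [Normal F K] [IsGalois K Ω] [IsSepClosed Ω]
    (hg : Good 2 (-1 : K) (P.map (algebraMap F K)))
    (hirr : Irreducible (P.map (algebraMap F K))) (h1 : ∀ σ : Ω ≃ₐ[K] Ω, Cg1 1 (ρ (rsE σ)))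
    {b : (Ω ≃ₐ[F] Ω) → Fin n → Jac 2 P Ω} (hb : TCoc ρ b)
    {x : Fin n → Jac 2 (P.map (algebraMap F K)) Ω} (hx : ∀ i, Tt (x i))
    (h : ∀ σ : Ω ≃ₐ[K] Ω, (fun i => bA (K := K) P (b (rsE σ) i)) =
      cob (ρ.comp (rsH F K Ω)) x σ) (σ : Ω ≃ₐ[F] Ω) :
    b σ = cob ρ (fun i => bA' P (x i)) σ := by
  have hx' : ∀ i, Tt (bA' P (x i)) := fun i => (hx i).map _
  refine abs_inf' (fun y : Fin n → Jac 2 P Ω => ∀ i, Tt (y i)) (fun i => Tt.zero)
    (fun x y hx hy i => (hx i).sub (hy i)) (fun σ y => act ρ σ y) (fun σ x hx => act_tt hx σ)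
    (fun σ x y hx hy => act_sub hx hy σ) (fun σ τ y hy => act_mul hy σ τ)
    (HK F K Ω) (fun σ h hh => HK_normal σ h hh) b hb.tor hb.mul _ hx' (fun σ hσ => ?_)
    (fun y hy hyH => ?_) σ
  · have h5 := h (toK σ hσ)
    rw [rsE_toK] at h5
    have h6 : cob (ρ.comp (rsH F K Ω)) x (toK σ hσ) =
        fun i => bA (K := K) P ((act ρ σ (fun i => bA' P (x i)) - fun i => bA' P (x i)) i) := by
      have h7 := act_nat (K := K) (ρ := ρ) P hx' (toK σ hσ)
      have e : (fun j => bA (K := K) P (bA' P (x j))) = x := funext fun j => bA_bA' P (x j)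
      rw [rsE_toK] at h7
      have h8 : act (ρ.comp (rsH F K Ω)) (toK σ hσ) x =
          fun i => bA (K := K) P (act ρ σ (fun i => bA' P (x i)) i) := by
        rw [← h7, e]
      rw [cob_eq, h8]
      funext i
      show _ = bA (K := K) P (act ρ σ (fun i => bA' P (x i)) i - bA' P (x i))
      rw [map_sub, bA_bA']
      rfl
    rw [h6] at h5
    funext i
    have h7 := congrArg (bA' (K := K) P) (congrFun h5 i)
    rw [bA'_bA, bA'_bA] at h7
    exact h7
  · have h2 : (fun i => bA (K := K) P (y i)) = 0 := by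
      refine fix_zero (ρ := ρ.comp (rsH F K Ω)) hg hirr (fun σ => h1 σ) (fun i => (hy i).map _) fun τ => ?_
      rw [act_nat P hy τ]
      have hτ : rsE τ ∈ HK F K Ω := fun z => τ.commutes z
      have h3 := hyH _ hτ
      funext i
      exact congrArg (bA (K := K) P) (congrFun h3 i)
    funext i
    have h3 := congrArg (bA' (K := K) P) (congrFun h2 i)
    rw [bA'_bA] at h3
    exact h3.trans (map_zero _)

end bcA

end Run7.h23.Tw
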