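import Pool.Agent.N352.JB.All
import Pool.Agent.Y160.SE.Loc

/-!
# No points of order four at the primes of bad reduction
-/

set_option autoImplicit false
set_option linter.all false

open Polynomial WithZero
open scoped Classical

namespace Run7.h23.Tw

open Pool.Agent.Y160.SE
open Pool.Agent.TH115.GD (incl rs ak)

section alg

variable {E : Type} [Field E] {ζ : E} {F : E[X]}

/-- The ideal of the half of a divisor of ramified points. -/
noncomputable def HI (F u u' : E[X]) : Ideal (CR 2 F) :=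
  Ideal.span {xp 2 F (u' - u), yy 2 F + xp 2 F u}

theorem tw_y (hg : Good 2 ζ F) (hζ : ζ = -1) : hg.tw (yy 2 F) = - yy 2 F := by
  rw [tw_yy, hζ, C_neg, C_1, xp_neg, xp_one]
  ring

theorem HI_tw (hg : Good 2 ζ F) (hζ : ζ = -1) (u u' : E[X]) :
    (HI F u u').map hg.tw = Ideal.span {xp 2 F (u' - u), - yy 2 F + xp 2 F u} := by
  unfold HI
  rw [Ideal.map_span, Set.image_pair, map_add, tw_y hg hζ, tw_xp, tw_xp]

variable {u u' : E[X]} (hF : F = u * u')
include hF

theorem y_sq : yy 2 F * yy 2 F = xp 2 F u * xp 2 F u' := by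
  rw [← pow_two, yy_pow, ← xp_mul, ← hF]

theorem HI_mul (hg : Good 2 ζ F) (hζ : ζ = -1) (hc : IsCoprime u u') :
    HI F u u' * (HI F u u').map hg.tw = Ideal.span {xp 2 F (u' - u)} := by
  rw [HI_tw hg hζ]
  unfold HI
  obtain ⟨s, t, hst⟩ := hc
  have h1 : xp 2 F s * xp 2 F u + xp 2 F t * xp 2 F u' = 1 := by
    rw [← xp_mul, ← xp_mul, ← xp_add, hst, xp_one]
  have h2 := y_sq hF
  apply le_antisymm
  · rw [Ideal.span_pair_mul_span_pair, Ideal.span_le]
    rintro x (rfl | rfl | rfl | rfl)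
    · exact Ideal.mem_span_singleton.2 ⟨_, rfl⟩
    · exact Ideal.mem_span_singleton.2 ⟨_, rfl⟩
    · exact Ideal.mem_span_singleton.2 ⟨yy 2 F + xp 2 F u, by ring⟩
    · refine Ideal.mem_span_singleton.2 ⟨-xp 2 F u, ?_⟩
      rw [xp_sub]
      linear_combination -h2
  · rw [Ideal.span_singleton_le_iff_mem]
    have e : xp 2 F (u' - u) = -(xp 2 F s + xp 2 F t) *
        ((yy 2 F + xp 2 F u) * (- yy 2 F + xp 2 F u)) +
        xp 2 F t * (xp 2 F (u' - u) * xp 2 F (u' - u)) := by
      rw [xp_sub]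
      linear_combination (-(xp 2 F u' - xp 2 F u)) * h1 - (xp 2 F s + xp 2 F t) * h2
    have key : ∀ (S : Ideal (CR 2 F)) (z : CR 2 F), z = -(xp 2 F s + xp 2 F t) *
        ((yy 2 F + xp 2 F u) * (- yy 2 F + xp 2 F u)) +
        xp 2 F t * (xp 2 F (u' - u) * xp 2 F (u' - u)) →
        (yy 2 F + xp 2 F u) * (- yy 2 F + xp 2 F u) ∈ S →
        xp 2 F (u' - u) * xp 2 F (u' - u) ∈ S → z ∈ S := by
      rintro S z rfl h3 h4
      exact Ideal.add_mem _ (Ideal.mul_mem_left _ _ h3) (Ideal.mul_mem_left _ _ h4)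
    refine key _ _ e (Ideal.mul_mem_mul ?_ ?_) (Ideal.mul_mem_mul ?_ ?_)
    · exact Ideal.subset_span (Or.inr rfl)
    · exact Ideal.subset_span (Or.inr rfl)
    · exact Ideal.subset_span (Or.inl rfl)
    · exact Ideal.subset_span (Or.inl rfl)

theorem HI_cop (hc : IsCoprime u u') : HI F u u' ⊔ Ideal.span {yy 2 F} = ⊤ := by
  obtain ⟨s, t, hst⟩ := hc
  have h1 : xp 2 F s * xp 2 F u + xp 2 F t * xp 2 F u' = 1 := by
    rw [← xp_mul, ← xp_mul, ← xp_add, hst, xp_one]
  rw [Ideal.eq_top_iff_one]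
  have e : (1 : CR 2 F) = (xp 2 F t * xp 2 F (u' - u) +
      (xp 2 F s + xp 2 F t) * (yy 2 F + xp 2 F u)) + (-(xp 2 F s + xp 2 F t)) * yy 2 F := by
    rw [xp_sub]
    linear_combination -h1
  rw [e]
  refine Ideal.add_mem _ (Ideal.mem_sup_left ?_) (Ideal.mem_sup_right ?_)
  · exact Ideal.add_mem _ (Ideal.mul_mem_left _ _ (Ideal.subset_span (by simp)))
      (Ideal.mul_mem_left _ _ (Ideal.subset_span (by simp)))
  · exact Ideal.mul_mem_left _ _ (Ideal.subset_span rfl)

theorem HI_eqv (hg : Good 2 ζ F) (hζ : ζ = -1) :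
    Ideal.span {xp 2 F (u' - u)} * HI F u u' =
      Ideal.span {xp 2 F (u + u') + 2 * yy 2 F} * (HI F u u').map hg.tw := by
  rw [HI_tw hg hζ]
  unfold HI
  have h2 := y_sq hF
  have es : ∀ x y z : CR 2 F, Ideal.span {x} * Ideal.span {y, z} = Ideal.span {x * y, x * z} := by
    intro x y z
    rw [Ideal.span_insert y {z}, Ideal.mul_sup, Ideal.span_singleton_mul_span_singleton,
      Ideal.span_singleton_mul_span_singleton, ← Ideal.span_insert]
  rw [es, es]
  rw [xp_add, xp_sub]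
  set a := xp 2 F u
  set b := xp 2 F u'
  set y := yy 2 F
  apply le_antisymm
  · rw [Ideal.span_le]
    rintro x (rfl | rfl)
    · refine Ideal.mem_span_pair.2 ⟨1, 2, ?_⟩
      linear_combination (-4 : CR 2 F) * h2
    · refine Ideal.mem_span_pair.2 ⟨0, -1, ?_⟩
      linear_combination (2 : CR 2 F) * h2
  · rw [Ideal.span_le]
    rintro x (rfl | rfl)
    · refine Ideal.mem_span_pair.2 ⟨1, 2, ?_⟩
      ring
    · refine Ideal.mem_span_pair.2 ⟨0, -1, ?_⟩
      linear_combination (2 : CR 2 F) * h2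

end alg

section roots

variable {E : Type} [Field E] {ζ : E} {F : E[X]} {n : ℕ} {r : Fin n → E} (A : Finset (Fin n))

/-- The two factors. -/
noncomputable def uA (r : Fin n → E) (A : Finset (Fin n)) : E[X] := ∏ i ∈ A, (X - C (r i))

theorem uA_eval {i : Fin n} (hi : i ∈ A) : (uA r A).eval (r i) = 0 := by
  unfold uA
  rw [eval_prod]
  exact Finset.prod_eq_zero hi (by simp)

theorem uA_eval' {i : Fin n} : (uA r A).eval (r i) = ∏ j ∈ A, (r i - r j) := by
  unfold uA
  rw [eval_prod]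
  exact Finset.prod_congr rfl fun j _ => by simp

variable (hr : Function.Injective r) (hF : F = ∏ i, (X - C (r i)))

theorem F_eq (hF : F = ∏ i, (X - C (r i))) : F = uA r Aᶜ * uA r A := by
  rw [hF]
  unfold uA
  rw [mul_comm, Finset.prod_mul_prod_compl]

include hr in
theorem cop_uA : IsCoprime (uA r Aᶜ) (uA r A) := by
  unfold uA
  refine IsCoprime.prod_left fun i hi => IsCoprime.prod_right fun j hj => ?_
  refine isCoprime_X_sub_C_of_isUnit_sub (IsUnit.mk0 _ (sub_ne_zero.2 fun h => ?_))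
  have : i = j := hr h
  rw [this] at hi
  exact (Finset.mem_compl.1 hi) hj

include hF in
theorem F_root (i : Fin n) : F.eval (r i) = 0 := by
  rw [hF, eval_prod]
  exact Finset.prod_eq_zero (Finset.mem_univ i) (by simp)

include hF in
theorem root_F {x : E} (h : F.eval x = 0) : ∃ i, x = r i := by
  rw [hF, eval_prod, Finset.prod_eq_zero_iff] at h
  obtain ⟨i, -, hi⟩ := h
  rw [eval_sub, eval_X, eval_C, sub_eq_zero] at hi
  exact ⟨i, hi⟩

theorem ev_x (hF : F = ∏ i, (X - C (r i))) (i : Fin n) (p : E[X]) :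
    ev 2 F (r i) (xp 2 F p) = p.eval (r i) := by
  rw [ev_eq two_ne_zero (F_root hF i), evR_xp]

theorem ev_y (hF : F = ∏ i, (X - C (r i))) (i : Fin n) : ev 2 F (r i) (yy 2 F) = 0 := by
  rw [ev_eq two_ne_zero (F_root hF i), evR_yy]

theorem ev_add' (hF : F = ∏ i, (X - C (r i))) (i : Fin n) (a b : CR 2 F) :
    ev 2 F (r i) (a + b) = ev 2 F (r i) a + ev 2 F (r i) b := by
  rw [ev_eq two_ne_zero (F_root hF i), map_add]

theorem ev_mul' (hF : F = ∏ i, (X - C (r i))) (i : Fin n) (a b : CR 2 F) :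
    ev 2 F (r i) (a * b) = ev 2 F (r i) a * ev 2 F (r i) b := by
  rw [ev_eq two_ne_zero (F_root hF i), map_mul]

/-- The sign. -/
noncomputable def sgn (E : Type) [Field E] (A : Finset (Fin n)) (i : Fin n) : E :=
  if i ∈ A then -1 else 1

include hr hF in
theorem chi_HI (hn : Odd n) (hA : Even A.card) (hg : Good 2 ζ F) (hζ : ζ = -1) (k : Fin n) :
    Chi hg (r k) (sgn E A k) (HI F (uA r Aᶜ) (uA r A)) := by
  set u := uA r Aᶜ with hu
  set u' := uA r A with hu'
  have hFu := F_eq A hF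
  rw [← hu, ← hu'] at hFu
  have hc : IsCoprime u u' := cop_uA A hr
  have hne : ∀ i, (u + u').eval (r i) ≠ 0 := by
    intro i h
    rw [eval_add] at h
    obtain ⟨s, t, hst⟩ := hc
    have h1 := congrArg (eval (r i)) hst
    rw [eval_add, eval_mul, eval_mul, eval_one] at h1
    by_cases hi : i ∈ A
    · rw [hu', uA_eval A hi, add_zero] at h
      rw [h, hu', uA_eval A hi, mul_zero, mul_zero, add_zero] at h1
      exact zero_ne_one h1
    · rw [hu, uA_eval Aᶜ (Finset.mem_compl.2 hi), zero_add] at h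
      rw [h, hu, uA_eval Aᶜ (Finset.mem_compl.2 hi), mul_zero, mul_zero, add_zero] at h1
      exact zero_ne_one h1
  have e1 : ∀ i, ev 2 F (r i) (xp 2 F (u + u') + 2 * yy 2 F) = (u + u').eval (r i) := by
    intro i
    rw [ev_add' hF, ev_mul' hF, ev_y hF, ev_x hF, mul_zero, add_zero]
  have e2 : ∀ i, ev 2 F (r i) (xp 2 F (u' - u)) = sgn E A i * (u + u').eval (r i) := by
    intro i
    rw [ev_x hF, eval_sub, eval_add]
    unfold sgn
    split_ifs with hi
    · rw [hu', uA_eval A hi]; ring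
    · rw [hu, uA_eval Aᶜ (Finset.mem_compl.2 hi)]; ring
  have hs0 : ∀ i, sgn E A i ≠ 0 := by
    intro i
    unfold sgn
    split_ifs
    · exact neg_ne_zero.2 one_ne_zero
    · exact one_ne_zero
  have hroots : F.roots.toFinset = Finset.univ.image r := by
    ext x
    rw [Multiset.mem_toFinset, mem_roots hg.monic.ne_zero, Finset.mem_image]
    constructor
    · intro h
      obtain ⟨i, hi⟩ := root_F hF h
      exact ⟨i, Finset.mem_univ i, hi.symm⟩
    · rintro ⟨i, -, rfl⟩
      exact F_root hF i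
  have erat : ∀ a : CR 2 F, rat 2 F (r k) a = ∏ j, (ev 2 F (r k) a / ev 2 F (r j) a) := by
    intro a
    unfold rat
    rw [hroots, Finset.prod_image fun x _ y _ h => hr h]
  haveI := hyps.ring 2 E ζ F hg
  refine ⟨HI F u u', xp 2 F (u' - u), xp 2 F (u + u') + 2 * yy 2 F,
    ⟨1, 1, one_ne_zero, one_ne_zero, rfl⟩, HI_cop hFu hc, ?_, ?_, HI_eqv hFu hg hζ, ?_⟩
  · intro β hβ
    obtain ⟨i, rfl⟩ := root_F hF hβ
    rw [e2]
    exact mul_ne_zero (hs0 i) (hne i)
  · intro β hβ
    obtain ⟨i, rfl⟩ := root_F hF hβ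
    rw [e1]
    exact hne i
  · rw [erat, erat]
    have e3 : ∀ j, ev 2 F (r k) (xp 2 F (u' - u)) / ev 2 F (r j) (xp 2 F (u' - u)) =
        (sgn E A k / sgn E A j) * (ev 2 F (r k) (xp 2 F (u + u') + 2 * yy 2 F) /
          ev 2 F (r j) (xp 2 F (u + u') + 2 * yy 2 F)) := by
      intro j
      rw [e1, e1, e2, e2, mul_div_mul_comm]
    rw [Finset.prod_congr rfl fun j _ => e3 j, Finset.prod_mul_distrib]
    congr 1
    rw [Finset.prod_div_distrib, Finset.prod_const, Finset.card_univ, Fintype.card_fin]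
    have e4 : ∏ j, sgn E A j = 1 := by
      unfold sgn
      rw [Finset.prod_ite_mem, Finset.univ_inter, Finset.prod_const, hA.neg_one_pow]
    rw [e4, div_one]
    unfold sgn
    split_ifs
    · rw [hn.neg_one_pow]
    · rw [one_pow]

end roots

section half

variable {K L Ω : Type} [Field K] [Field L] [Field Ω] [Algebra K L] [Algebra L Ω] [Algebra K Ω]
  [IsScalarTower K L Ω] [IsGalois L Ω] [IsSepClosed Ω] {f : K[X]}

theorem pow_exp (v : ℤ) (n : ℕ) : (exp v : WithZero (Multiplicative ℤ)) ^ n = exp (n * v) := by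
  rw [← exp_nsmul, nsmul_eq_mul]

theorem half (hg : Good 2 (-1 : K) f) (v : Valuation L (WithZero (Multiplicative ℤ))) {n : ℕ}
    (hn : Odd n) (r : Fin n → L) (hr : Function.Injective r)
    (hf : f.map (algebraMap K L) = ∏ i, (X - C (r i)))
    (hv : ∀ i j, i ≠ j → v (r i - r j) = exp (-1 : ℤ)) (P : Jac 2 f L) (hP : 4 • P = 0) :
    jm 2 f (incl K L Ω) (2 • P) = 0 := by
  have H := hyps
  obtain ⟨d1, d2, d3⟩ := Pool.Agent.N615.JB.dbl K Ω f hg
  set R : Jac 2 f Ω := jm 2 f (incl K L Ω) (2 • P) with hR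
  have hRt : Tor hg R := by
    rw [d1, hR, ← map_nsmul, ← mul_smul, show 2 * 2 = 4 from rfl, hP, map_zero]
  -- the roots
  let ρ : Fin n → Ω := fun i => algebraMap L Ω (r i)
  have hρ : Function.Injective ρ := (algebraMap L Ω).injective.comp hr
  have hfΩ : f.map (algebraMap K Ω) = ∏ i, (X - C (ρ i)) := by
    rw [IsScalarTower.algebraMap_eq K L Ω, ← Polynomial.map_map, hf, Polynomial.map_prod]
    exact Finset.prod_congr rfl fun i _ => by rw [Polynomial.map_sub, map_X, map_C]
  have hrt : ∀ i, Rt f (ρ i) := fun i => rt_of (F_root hfΩ i)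
  have hrt' : ∀ β : Ω, Rt f β → ∃ i, β = ρ i := fun β hβ => root_F hfΩ hβ.ev
  -- the set of the indices with value `-1`
  set A : Finset (Fin n) := Finset.univ.filter fun i => chi hg (ρ i) R = -1 with hA
  have hpm : ∀ i, chi hg (ρ i) R = sgn Ω A i := by
    intro i
    unfold sgn
    split_ifs with hi
    · exact (Finset.mem_filter.1 hi).2
    · have h1 : chi hg (ρ i) R ^ 2 = 1 := chi_pow H hg hRt (hrt i)
      rcases sq_eq_one_iff.1 h1 with h | h
      · exact h
      · exact absurd (Finset.mem_filter.2 ⟨Finset.mem_univ i, h⟩) hi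
  by_cases hA0 : A = ∅
  · refine chi_inj H hg hRt fun β hβ => ?_
    obtain ⟨i, rfl⟩ := hrt' β hβ
    rw [hpm, hA0]
    unfold sgn
    rw [if_neg (Finset.notMem_empty i)]
  exfalso
  obtain ⟨i₀, hi₀⟩ := Finset.nonempty_iff_ne_empty.2 hA0
  have h2 : (-1 : Ω) ≠ 1 := by
    have := (hg.up Ω).root.ne_one (by norm_num)
    rwa [map_neg, map_one] at this
  have hcard : Even A.card := by
    have h1 := chi_prod H hg hRt
    have h3 : ((f.map (algebraMap K Ω)).roots.map fun β => chi hg β R).prod =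
        ∏ i, chi hg (ρ i) R := by
      have h4 : (∏ i, (X - C (ρ i)) : Polynomial Ω).roots = Finset.univ.val.map ρ := by
        have h5 := roots_multiset_prod_X_sub_C (Finset.univ.val.map ρ)
        rwa [Multiset.map_map] at h5
      rw [hfΩ, h4, Multiset.map_map]
      rfl
    rw [h3, Finset.prod_congr rfl fun i _ => hpm i] at h1
    unfold sgn at h1
    rw [Finset.prod_ite_mem, Finset.univ_inter, Finset.prod_const] at h1
    by_contra hodd
    rw [(Nat.not_even_iff_odd.1 hodd).neg_one_pow] at h1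
    exact h2 h1
  -- the ideal
  set u := uA r Aᶜ with hu
  set u' := uA r A with hu'
  have hFu : f.map (algebraMap K L) = u * u' := F_eq A hf
  have hc : IsCoprime u u' := cop_uA A hr
  have hζ : algebraMap K L (-1) = -1 := by rw [map_neg, map_one]
  haveI := hyps.ring 2 L _ _ (hg.up L)
  have hG0 : u' - u ≠ 0 := by
    intro h
    obtain ⟨s, t, hst⟩ := hc
    have h3 := congrArg (eval (r i₀)) hst
    rw [← sub_eq_zero.1 h, eval_add, eval_mul, eval_mul, hu', uA_eval A hi₀, mul_zero, mul_zero,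
      add_zero, eval_one] at h3
    exact zero_ne_one h3
  have hmem : xp 2 (f.map (algebraMap K L)) (u' - u) ∈ HI (f.map (algebraMap K L)) u u' :=
    Ideal.subset_span (Or.inl rfl)
  have hxG : xp 2 (f.map (algebraMap K L)) (u' - u) ≠ 0 := fun h =>
    hG0 (xp_inj two_ne_zero (h.trans xp_zero.symm))
  have hI0 : HI (f.map (algebraMap K L)) u u' ≠ ⊥ := by
    intro h
    rw [h, Ideal.mem_bot] at hmem
    exact hxG hmem
  obtain ⟨x, hx⟩ := cl_exists H hg hI0
  have hEq := HI_eqv hFu (hg.up L) hζ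
  have hb0 : xp 2 (f.map (algebraMap K L)) (u + u') + 2 * yy 2 (f.map (algebraMap K L)) ≠ 0 := by
    intro h
    rw [h, Ideal.span_singleton_zero, Ideal.bot_mul] at hEq
    rcases Ideal.mul_eq_bot.1 hEq with h3 | h3
    · exact hxG (Ideal.span_singleton_eq_bot.1 h3)
    · exact hI0 h3
  have hxt : Tor hg x := (tor_iff hg).2 ((cl_eq_iff H hg hx (cl_sg H hg hx)).2
    ⟨_, _, hxG, hb0, hEq⟩)
  have hxR : jm 2 f (incl K L Ω) x = R := by
    refine chi_ext H hg (hxt.map _) hRt fun β hβ => ?_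
    obtain ⟨i, rfl⟩ := hrt' β hβ
    rw [hpm]
    refine chi_eq H hg (hxt.map _) hβ ⟨_, cl_map H hg hx (incl K L Ω), ?_⟩
    have h3 := chi_HI A hr hf hn hcard (hg.up L) hζ i
    have h4 := H.chiF 2 L Ω ((incl K L Ω : L →ₐ[K] Ω) : L →+* Ω) _ _ _ (map_alg (incl K L Ω))
      (hg.up L) ?_ _ (r i) _ hI0 (F_root hf i) h3
    · have e : ((incl K L Ω : L →ₐ[K] Ω) : L →+* Ω) (algebraMap K L (-1)) = algebraMap K Ω (-1) :=
        (incl K L Ω).commutes (-1)
      have e2 : ((incl K L Ω : L →ₐ[K] Ω) : L →+* Ω) (sgn L A i) = sgn Ω A i := by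
        unfold sgn
        split_ifs
        · rw [map_neg, map_one]
        · rw [map_one]
      have key : ∀ (ζ' : Ω) (hg' : Good 2 ζ' (f.map (algebraMap K Ω))) (ζ'' : Ω)
          (hg'' : Good 2 ζ'' (f.map (algebraMap K Ω))) (z z' : Ω), ζ' = ζ'' → z = z' →
          Chi hg' (((incl K L Ω : L →ₐ[K] Ω) : L →+* Ω) (r i)) z
            ((HI (f.map (algebraMap K L)) u u').map (cm 2 f (incl K L Ω))) →
          Chi hg'' (ρ i) z' ((HI (f.map (algebraMap K L)) u u').map (cm 2 f (incl K L Ω))) := by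
        rintro ζ' hg' _ hg'' z _ rfl rfl h
        exact h
      exact key _ _ _ _ _ _ e e2 h4
    · rw [hf]
      exact Splits.prod fun i _ => Splits.X_sub_C _
  -- the Kummer class
  set P' : Jac 2 f Ω := jm 2 f (incl K L Ω) P with hP'
  have hGf : IsCoprime (u' - u) (f.map (algebraMap K L)) := by
    rw [hFu]
    refine IsCoprime.mul_right ?_ ?_
    · obtain ⟨s, t, hst⟩ := hc
      exact ⟨t, s + t, by linear_combination hst⟩
    · obtain ⟨s, t, hst⟩ := hc
      exact ⟨-s, s + t, by linear_combination hst⟩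
  obtain ⟨t, ht1, ht2⟩ := kcJ H hg (Ω := Ω) hx (HI_cop hFu hc) hGf (by
      rw [Finset.prod_range_succ, Finset.prod_range_one, pow_zero, pow_one]
      have h3 := HI_mul hFu (hg.up L) hζ hc
      have e : (HI (f.map (algebraMap K L)) u u').map (1 : CR 2 (f.map (algebraMap K L)) →+* _) =
        HI (f.map (algebraMap K L)) u u' := Ideal.map_id _
      rw [e, h3]) (P := P') (by rw [d2, hxR, hR, map_nsmul])
  have hfix : ∀ (τ : Ω ≃ₐ[L] Ω), jm 2 f (rs K τ) P' - P' = 0 := by
    intro τ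
    rw [hP', jm_jm]
    have e : (rs K τ).comp (incl K L Ω) = incl K L Ω := AlgHom.ext fun x => τ.commutes x
    rw [e, sub_self]
  have htL : ∀ i, ∃ y : L, algebraMap L Ω y = t (ρ i) := by
    intro i
    refine (InfiniteGalois.mem_range_algebraMap_iff_fixed (t (ρ i))).2 fun τ => ?_
    have h3 := ht2 τ (ρ i) (hrt i) (by rw [hfix]; exact Tor.zero)
    have e : τ (ρ i) = ρ i := τ.commutes _
    rw [hfix, e, chi_zero H hg (hrt i), one_mul] at h3
    exact h3
  obtain ⟨y, hy⟩ := htL i₀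
  obtain ⟨a1, a2, a3⟩ := ht1 (ρ i₀) (hrt i₀)
  -- down to `L`
  have hev : ∀ i, aeval (ρ i) (u' - u) = algebraMap L Ω ((u' - u).eval (r i)) := fun i =>
    aeval_algebraMap_apply_eq_algebraMap_eval _ _
  have hroots : (f.map (algebraMap K Ω)).roots = Finset.univ.val.map ρ := by
    have h5 := roots_multiset_prod_X_sub_C (Finset.univ.val.map ρ)
    rw [Multiset.map_map] at h5
    rw [hfΩ]
    exact h5
  have hdeg : f.natDegree = n := by
    rw [← natDegree_map (algebraMap K L), hf, natDegree_finset_prod_X_sub_C_eq_card,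
      Finset.card_univ, Fintype.card_fin]
  have hprod : ((f.map (algebraMap K Ω)).roots.map fun β' => aeval β' (u' - u)).prod =
      algebraMap L Ω (∏ i, (u' - u).eval (r i)) := by
    rw [hroots, Multiset.map_map, map_prod]
    exact Finset.prod_congr rfl fun i _ => hev i
  rw [hprod, ← hy, hev, hdeg, ← map_pow, ← map_pow, ← map_mul] at a3
  have a4 : y ^ 2 * ∏ i, (u' - u).eval (r i) = (u' - u).eval (r i₀) ^ n :=
    (algebraMap L Ω).injective a3
  -- the valuations
  have hv1 : ∀ i ∈ A, v ((u' - u).eval (r i)) = exp (-(Aᶜ.card : ℤ)) := by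
    intro i hi
    rw [eval_sub, hu', uA_eval A hi, zero_sub, Valuation.map_neg, hu, uA_eval', map_prod,
      Finset.prod_congr rfl fun j hj => hv i j (by
        rintro rfl
        exact (Finset.mem_compl.1 hj) hi), Finset.prod_const, pow_exp]
    congr 1
    ring
  have hv2 : ∀ i ∈ Aᶜ, v ((u' - u).eval (r i)) = exp (-(A.card : ℤ)) := by
    intro i hi
    rw [eval_sub, hu, uA_eval Aᶜ hi, sub_zero, hu', uA_eval', map_prod,
      Finset.prod_congr rfl fun j hj => hv i j (by
        rintro rfl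
        exact (Finset.mem_compl.1 hi) hj), Finset.prod_const, pow_exp]
    congr 1
    ring
  have hvp : v (∏ i, (u' - u).eval (r i)) = exp (-(2 * (A.card : ℤ) * Aᶜ.card)) := by
    rw [map_prod, ← Finset.prod_mul_prod_compl A, Finset.prod_congr rfl hv1,
      Finset.prod_congr rfl hv2, Finset.prod_const, Finset.prod_const, pow_exp, pow_exp, ← exp_add]
    congr 1
    ring
  have hy0 : v y ≠ 0 := by
    rw [Valuation.ne_zero_iff]
    rintro rfl
    rw [map_zero] at hy
    exact a1 hy.symm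
  have h5 := congrArg v a4
  rw [map_mul, map_pow, map_pow, hvp, hv1 i₀ hi₀, pow_exp] at h5
  obtain ⟨m, hm⟩ : ∃ m : ℤ, v y = exp m := ⟨log (v y), (exp_log hy0).symm⟩
  rw [hm, pow_exp, ← exp_add, exp_inj] at h5
  have hcc : Aᶜ.card = n - A.card := by rw [Finset.card_compl, Fintype.card_fin]
  have hle : A.card ≤ n := by
    have := Finset.card_le_univ A
    rwa [Fintype.card_fin] at this
  have hodd : Odd Aᶜ.card := by
    rw [hcc]
    exact Nat.Odd.sub_even hle hn hcard
  have h6 : Odd ((n : ℤ) * (Aᶜ.card : ℤ)) := by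
    exact_mod_cast hn.mul hodd
  obtain ⟨k, hk⟩ := h6
  have h7 : (2 : ℤ) * (m - (A.card : ℤ) * Aᶜ.card) = -(2 * k + 1) := by
    rw [← hk]
    push_cast at h5
    linear_combination h5
  omega

end half

end Run7.h23.Tw
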