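import Pool.Agent.Run7.h23.Tw.NoFour
import Pool.Agent.Run7.h23.Gn.Main

/-!
# Irreducible polynomials over the completions
-/

set_option autoImplicit false
set_option linter.all false

open Polynomial IsDedekindDomain WithZero NumberField
open scoped Classical NNReal

namespace Run7.h23.Tw

open Pool.Agent.Y160.SE
open Pool.Agent.TH115.GD (incl rs ak)
open Pool.Agent.N783.PF
open Pool.Agent.N704.PP (vx)

theorem nf_irr {K E : Type} [Field K] [Field E] [Algebra K E] {f : K[X]}
    (hg : Good 2 (-1 : K) f) (hirr : Irreducible (f.map (algebraMap K E))) : NF E f := by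
  intro P hP
  have h1 : Tor hg (jm 2 f (incl K E (SeparableClosure E)) (2 • P)) := by
    rw [Run7.h23.Se.tor_iff2 hg, ← map_nsmul, ← mul_smul, show 2 * 2 = 4 from rfl, hP, map_zero]
  have h2 := no_tor (F := E) hyps hg hirr h1 (fun σ => by
    rw [jm_jm]
    have e : (rs K σ).comp (incl K E (SeparableClosure E)) = incl K E (SeparableClosure E) :=
      AlgHom.ext fun x => σ.commutes x
    rw [e])
  refine Run7.h23.Se.jm_inj (Λ := SeparableClosure E) hg ?_
  rw [map_zero]
  exact h2

theorem irr_comp {M : Type} [Field M] [NumberField M] (w : HeightOneSpectrum (𝓞 M))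
    {f : (𝓞 M)[X]} (hm : f.Monic) (h : Irreducible (rd w.asIdeal f)) :
    Irreducible ((fF f).map (algebraMap M (w.adicCompletion M))) := by
  haveI : w.asIdeal.IsMaximal := w.isMaximal
  letI : Field (𝓞 M ⧸ w.asIdeal) := Ideal.Quotient.field _
  set R := w.adicCompletionIntegers M with hR
  let k := IsLocalRing.ResidueField R
  let ψ : 𝓞 M →+* R := algebraMap (𝓞 M) R
  have hψ : ∀ x : 𝓞 M, ((ψ x : R) : w.adicCompletion M) =
      algebraMap M (w.adicCompletion M) (algebraMap (𝓞 M) M x) := fun x => rfl
  have hres : ∀ y : R, Valued.v (Γ₀ := WithZero (Multiplicative ℤ)) (y : w.adicCompletion M) < 1 →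
      IsLocalRing.residue R y = 0 := by
    intro y hy
    rw [IsLocalRing.residue_eq_zero_iff]
    exact (Valuation.mem_maximalIdeal_iff _ _).2 hy
  have hle : ∀ x ∈ w.asIdeal, ((IsLocalRing.residue R).comp ψ) x = 0 := by
    intro x hx
    refine hres _ ?_
    rw [hψ, vx]
    exact (HeightOneSpectrum.valuation_lt_one_iff_mem (K := M) w x).2 hx
  let φ : (𝓞 M ⧸ w.asIdeal) →+* k := Ideal.Quotient.lift w.asIdeal _ hle
  have hφ : Function.Bijective φ := by
    refine ⟨φ.injective, fun y => ?_⟩
    obtain ⟨y, rfl⟩ := IsLocalRing.residue_surjective y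
    obtain ⟨r, hr⟩ := Pool.Agent.N507.JM.resC (M := M) w (y : w.adicCompletion M) y.2
    refine ⟨Ideal.Quotient.mk _ r, ?_⟩
    show IsLocalRing.residue R (ψ r) = IsLocalRing.residue R y
    rw [← sub_eq_zero, ← map_sub]
    refine hres _ ?_
    have e1 : ((ψ r - y : R) : w.adicCompletion M) = -((y : w.adicCompletion M) -
        algebraMap M (w.adicCompletion M) (algebraMap (𝓞 M) M r)) := by
      rw [neg_sub]; rfl
    rw [e1, Valuation.map_neg]
    exact hr
  let e : (𝓞 M ⧸ w.asIdeal) ≃+* k := RingEquiv.ofBijective φ hφ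
  have h1 : Irreducible ((f.map ψ).map (IsLocalRing.residue R)) := by
    have h2 : (mapEquiv e) (rd w.asIdeal f) = (f.map ψ).map (IsLocalRing.residue R) := by
      rw [mapEquiv_apply, rd, Polynomial.map_map, Polynomial.map_map]
      rfl
    rw [← h2]
    exact (MulEquiv.irreducible_iff (mapEquiv e)).2 h
  have h3 : Irreducible (f.map ψ) := Monic.irreducible_of_irreducible_map _ _ (hm.map _) h1
  have h4 := ((hm.map ψ).irreducible_iff_irreducible_map_fraction_map
    (K := w.adicCompletion M)).1 h3
  have h5 : (fF f).map (algebraMap M (w.adicCompletion M)) =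
      (f.map ψ).map (algebraMap R (w.adicCompletion M)) := by
    rw [fF, Polynomial.map_map, Polynomial.map_map]
    rfl
  rw [h5]
  exact h4

end Run7.h23.Tw
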