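import Pool.Agent.Run7.h23.Tw.EvU
import Pool.Agent.Run7.h23.Tw.IrrW

/-!
# The 2-Selmer groups with the unramified conditions, over all the extensions
-/

set_option autoImplicit false
set_option linter.all false

open Polynomial IsDedekindDomain WithZero NumberField
open scoped Classical IntermediateField

namespace Run7.h23.Gn.W

open Run7.h23.Tw
open Pool.Agent.Y160.SE (Good)
open Pool.Agent.N783.PF
open Pool.Agent.N874.PP (Ev Sq1 U0)
open Pool.Agent.N783.PQ (LocIm)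
open Pool.Agent.N874.JM (LocF)

/-- The class of `h(θ)` comes from a point over the maximal unramified extension of the
completion. -/
def LocU {M : Type} [Field M] [NumberField M] (w : HeightOneSpectrum (𝓞 M)) (F h : M[X]) : Prop :=
  LocIm (Nr w)
    ((F.map (algebraMap M (w.adicCompletion M))).map (algebraMap (w.adicCompletion M) (Nr w)))
    ((h.map (algebraMap M (w.adicCompletion M))).map (algebraMap (w.adicCompletion M) (Nr w)))

/-- The Selmer group with unramified local conditions is zero. -/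
def SelW {M : Type} [Field M] [NumberField M] (A : HeightOneSpectrum (𝓞 M) → Prop) (F : M[X]) :
    Prop :=
  ∀ h : M[X], IsCoprime h F → IsSquare (Algebra.norm M (AdjoinRoot.mk F h)) →
    (∀ w : HeightOneSpectrum (𝓞 M), A w → LocF (w.adicCompletion M) F h) →
    (∀ w : HeightOneSpectrum (𝓞 M), (2 : 𝓞 M) ∉ w.asIdeal → LocU w F h) →
    (∀ σ : M →+* ℝ, LocIm ℝ (F.map σ) (h.map σ)) →
    ∃ s : M[X], F ∣ h - s ^ 2

section top

variable {F L : Type} [Field F] [NumberField F] [Field L] [NumberField L] [Algebra F L]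
variable {M Ω : Type} [Field M] [NumberField M] [Field Ω] [NumberField Ω] [Algebra F M]
  [Algebra L Ω] [Algebra M Ω] [Algebra F Ω] [IsScalarTower F L Ω] [IsScalarTower F M Ω]

theorem cnd_top {g W : ℕ} {f f₁ : (𝓞 F)[X]} {θ : L} {S J : Finset ℕ}
    {𝔮 : ℕ → Ideal (𝓞 F)} {r P : ℕ → (𝓞 F)[X]} (hg : 1 ≤ g) (hG : IsGen g f θ) (hsq : SqF g f)
    (hF₁ : GoodF g W f₁) (hS : GoodS g W S 𝔮 r P) (hc1 : Cg (sp F W) f f₁)
    (hcq : ∀ q ∈ S, Cg (sp F q) f (P q)) (hJ : J ⊆ S)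
    (hM : Mok M S 𝔮 f) (hθ : M⟮algebraMap L Ω θ⟯ = ⊤) (hr : Module.finrank M Ω = 2 * g + 1)
    {h : M[X]} (hne : aeval ((Dp J : Ω) * algebraMap L Ω θ) h ≠ 0)
    (hgd : Good 2 (-1 : M)
      (fF ((f.scaleRoots ((Dp J : ℕ) : 𝓞 F)).map (algebraMap (𝓞 F) (𝓞 M)))))
    {A : HeightOneSpectrum (𝓞 M) → Prop}
    (hA1 : ∀ q ∈ S, ∀ v : HeightOneSpectrum (𝓞 F), v.asIdeal = 𝔮 q →
      ∀ w : HeightOneSpectrum (𝓞 M), Ab v w → NF (w.adicCompletion M)
      (fF ((f.scaleRoots ((Dp J : ℕ) : 𝓞 F)).map (algebraMap (𝓞 F) (𝓞 M)))) → A w)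
    (hA2 : ∀ w : HeightOneSpectrum (𝓞 M), (2 : 𝓞 M) ∈ w.asIdeal → A w)
    (hloc : ∀ w : HeightOneSpectrum (𝓞 M), A w →
      LocF (w.adicCompletion M)
      (fF ((f.scaleRoots ((Dp J : ℕ) : 𝓞 F)).map (algebraMap (𝓞 F) (𝓞 M)))) h)
    (hunr : ∀ w : HeightOneSpectrum (𝓞 M), (2 : 𝓞 M) ∉ w.asIdeal → LocU w
      (fF ((f.scaleRoots ((Dp J : ℕ) : 𝓞 F)).map (algebraMap (𝓞 F) (𝓞 M)))) h)
    (hreal : ∀ σ : M →+* ℝ, LocIm ℝ
      ((fF ((f.scaleRoots ((Dp J : ℕ) : 𝓞 F)).map (algebraMap (𝓞 F) (𝓞 M)))).map σ) (h.map σ)) :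
    Cnd M J 𝔮 f θ (aeval ((Dp J : Ω) * algebraMap L Ω θ) h) := by
  have hGM := isGen_up (M := M) hG hθ hr
  set fm : (𝓞 M)[X] := f.map (algebraMap (𝓞 F) (𝓞 M)) with hfm
  have hqp : ∀ q ∈ S, q.Prime := fun q hq => (hS q hq).1
  have hcQ : ∀ q ∈ S, Cg (𝔮 q) f (X * r q) := by
    intro q hq j
    obtain ⟨-, -, -, -, -, -, a2, -, -, -, -, -, -, a3, -⟩ := hS q hq
    have b1 := Pool.Agent.N78.PF.sp_le (F := F) a2 (hcq q hq j)
    have b2 := a3 j
    have := Ideal.add_mem _ b1 b2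
    simpa using this
  obtain ⟨D, hD⟩ : ∃ D : ℕ, D = Dp J := ⟨_, rfl⟩
  rw [← hD] at hne hgd hA1 hloc hunr hreal ⊢
  rw [scale_map hG.mon] at hgd hA1 hloc hunr hreal
  have hD0 : D ≠ 0 := by
    rw [hD, Dp, Finset.prod_ne_zero_iff]
    exact fun q hq => (hqp q (hJ hq)).ne_zero
  have hD8 : D % 8 = 1 := by
    rw [hD]
    have : ∀ T : Finset ℕ, T ⊆ S → (∏ q ∈ T, q) % 8 = 1 := by
      intro T
      induction T using Finset.induction_on with
      | empty => intro _; rfl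
      | insert a T ha ih =>
        intro hT
        rw [Finset.prod_insert ha, Nat.mul_mod, ih fun x hx => hT (Finset.mem_insert_of_mem hx),
          (hS a (hT (Finset.mem_insert_self _ _))).2.2.2.1]
    exact this J hJ
  refine ⟨fun 𝔓 h1 h2 h3 => ?_, fun q hq 𝔓 h1 v1 => ?_, ?_⟩
  · -- even valuations
    obtain ⟨w, hw⟩ := exists_ab (F := M) 𝔓
    have h2w : (2 : 𝓞 M) ∉ w.asIdeal := by
      rw [two_mem, ← val_lt_iff hw, map_ofNat, h1]
      exact lt_irrefl _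
    refine ev_nr hGM (lies_ab hw) h2w ?_ h ?_ (hunr w h2w) hne
    · rw [nat_mem, ← val_lt_iff hw, map_natCast, hD, Dp, Nat.cast_prod, map_prod,
        Finset.prod_congr rfl h2, Finset.prod_const_one]
      exact lt_irrefl _
    · rw [hfm, der_up]
      exact h3
  · -- the primes in `J`
    have hqS := hJ hq
    obtain ⟨w, hw⟩ := exists_ab (F := M) 𝔓
    obtain ⟨v, hv⟩ := exists_ab (F := F) w
    obtain ⟨𝔭, h𝔭⟩ := exists_ab (F := L) 𝔓
    have hv𝔓 : Ab (E := Ω) v 𝔓 := ab_tr hv hw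
    have hv𝔭 : Ab v 𝔭 := ab_down hv𝔓 h𝔭
    have hpr : (𝔮 q).IsPrime := (hS q hqS).2.2.2.2.2.1
    have hmax : (𝔮 q).IsMaximal := hpr.isMaximal (q_ne hS hqS)
    have evq : 𝔮 q = v.asIdeal := by
      refine hmax.eq_of_le v.isPrime.ne_top fun a ha => ?_
      have h4 := (val_lt_iff hv𝔓 (a : F)).1 (h1 a ha)
      exact (HeightOneSpectrum.valuation_lt_one_iff_mem (K := F) v a).1 h4
    have hsp := hM.spl q hqS v evq.symm
    obtain ⟨a1, a2, a3, a4, a5, a6, a7, a8, a9, a10, a11, a12, a13, a14, a15⟩ := hS q hqS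
    have o1 : Ov (𝔮 q) 𝔭 := by
      rw [evq]
      exact ov_of_ab hv𝔭
    have v1' : 𝔭.valuation L θ = 1 := (val_eq_iff h𝔭 θ).1 v1
    obtain ⟨c1, -, c3, -⟩ := csq g W F L f θ S 𝔮 r P hg hG hsq hS q hqS (hcQ q hqS) 𝔭 o1 v1'
    have hder : 𝔓.valuation Ω (algebraMap L Ω (aeval θ (derivative (fF f)))) = 1 :=
      (val_eq_iff h𝔭 _).2 c3
    -- the valuation at `𝔓` is that at `w`
    have hwv : ∀ x : M, 𝔓.valuation Ω (algebraMap M Ω x) = w.valuation M x := by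
      obtain ⟨w₁, hw₁⟩ := over_M (M := M) hG.mon hG.root hθ 𝔓 hder
      have : w₁ = w := ab_unique (E := Ω) (fun x hx => by rw [hw₁]; exact hx) hw
      rw [← this]
      exact hw₁
    have vqv : v.valuation F (q : F) = exp (-1 : ℤ) := by
      obtain ⟨𝔓₁, 𝔓₂, e1, e2, e3, e4, e5, e6, e7⟩ :=
        exq g W F L f θ S 𝔮 r P hg hG hsq hS q hqS (hcQ q hqS)
      have h5 : 𝔭.valuation L (q : L) = exp (-1 : ℤ) := by
        rcases e7 𝔭 o1 with rfl | rfl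
        · exact e5
        · exact e6
      obtain ⟨e, he0, he⟩ := ab_e (ov_of_ab hv𝔭)
      have h6 := he (q : F)
      rw [map_natCast, h5] at h6
      have h7 := exp_pow' h6.symm
      rw [h7, pow_one] at h6
      exact h6.symm
    have vq : 𝔓.valuation Ω (algebraMap M Ω (q : M)) = WithZero.exp (-1 : ℤ) := by
      rw [hwv]
      have h5 := (hsp w hv).1 (q : F)
      rw [map_natCast] at h5
      rw [h5, vqv]
    haveI : Finite (𝓞 M ⧸ w.asIdeal) := Ideal.finiteQuotientOfFreeOfNeBot _ w.ne_bot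
    haveI : Finite (𝓞 Ω ⧸ 𝔓.asIdeal) := Ideal.finiteQuotientOfFreeOfNeBot _ 𝔓.ne_bot
    have h2q : (2 : 𝓞 F) ∉ 𝔮 q := by
      intro hm
      have h9 : ((q : 𝓞 F)) - 2 * ((q / 2 : ℕ) : 𝓞 F) = 1 := by
        have h10 : q = 2 * (q / 2) + 1 := by omega
        have h11 : (q : 𝓞 F) = 2 * ((q / 2 : ℕ) : 𝓞 F) + 1 := by
          exact_mod_cast congrArg (Nat.cast (R := 𝓞 F)) h10
        rw [h11]
        ring
      apply a6.ne_top
      rw [Ideal.eq_top_iff_one, ← h9]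
      exact Ideal.sub_mem _ a7 (Ideal.mul_mem_right _ _ hm)
    have nat_mem' : ∀ p : ℕ, p.Prime → (p : 𝓞 F) ∈ 𝔮 q → p = q := by
      intro p hp hpm
      by_contra hpq
      have hco : Nat.Coprime p q := (Nat.coprime_primes hp a1).2 hpq
      obtain ⟨u, v, huv⟩ := (Nat.isCoprime_iff_coprime.2 hco)
      apply a6.ne_top
      rw [Ideal.eq_top_iff_one]
      have h9 : (1 : 𝓞 F) = (u : 𝓞 F) * (p : 𝓞 F) + (v : 𝓞 F) * (q : 𝓞 F) := by
        have := congrArg (Int.cast (R := 𝓞 F)) huv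
        push_cast at this
        exact this.symm
      rw [h9]
      exact Ideal.add_mem _ (Ideal.mul_mem_left _ _ hpm) (Ideal.mul_mem_left _ _ a7)
    obtain ⟨D', hD'⟩ : ∃ D' : ℕ, D' = ∏ p ∈ J.erase q, p := ⟨_, rfl⟩
    have hDD : D = q * D' := by
      rw [hD, hD']
      exact (Finset.mul_prod_erase J (fun P => P) hq).symm
    have hD'm : (D' : 𝓞 F) ∉ 𝔮 q := by
      intro hd
      rw [hD', Nat.cast_prod] at hd
      haveI := a6
      obtain ⟨p, hp, hpm⟩ := (Ideal.IsPrime.prod_mem_iff).1 hd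
      have hp' := Finset.mem_erase.1 hp
      exact hp'.1 (nat_mem' p (hqp p (hJ hp'.2)) hpm)
    have hunit : ∀ n : ℕ, (n : 𝓞 F) ∉ 𝔮 q → w.valuation M (n : M) = 1 := by
      intro n hn
      have h5 := (val_eq_iff hv (n : F)).2 (val_nat_eq v n (by rw [← evq]; exact hn))
      rwa [map_natCast] at h5
    have v2 : w.valuation M 2 = 1 := by
      have := hunit 2 (by exact_mod_cast h2q)
      exact_mod_cast this
    have vD' : w.valuation M (D' : M) = 1 := hunit D' hD'm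
    have s1 : Sq1 𝔓 (-1 : Ω) := by
      have h5 := c1 (-1) (by
        intro hm
        apply a6.ne_top
        rw [Ideal.eq_top_iff_one]
        have := Ideal.neg_mem_iff _ |>.2 hm
        simpa using this)
      have h6 := sq_up h𝔭 h5
      simpa using h6
    have s2 : Sq1 𝔓 (algebraMap M Ω (D' : M)) := by
      have h6 := sq_up h𝔭 (c1 (D' : 𝓞 F) hD'm)
      simpa using h6
    have hl := hloc w
    rw [Pool.Agent.N78.PF.fF_scale hGM.mon, hDD, Nat.cast_mul] at hl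
    rw [Pool.Agent.N78.PF.fF_scale hGM.mon, hDD, Nat.cast_mul] at hgd
    have hA3 := hA1 q hqS v evq.symm w hv
    rw [Pool.Agent.N78.PF.fF_scale hGM.mon, hDD, Nat.cast_mul] at hA3
    have hfd : (fF fm).natDegree = 2 * g + 1 := by
      rw [fF, hGM.mon.natDegree_map, hGM.deg]
    have hrd : ((r q).map (algebraMap (𝓞 F) (𝓞 M))).natDegree = 2 * g := by
      rw [a8.natDegree_map, a9]
    have hfc : ∀ j, w.valuation M ((fF fm).coeff j - algebraMap (𝓞 M) M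
        ((X * (r q).map (algebraMap (𝓞 F) (𝓞 M))).coeff j)) < 1 := by
      intro j
      have e1 : (X * (r q).map (algebraMap (𝓞 F) (𝓞 M))) =
          (X * r q).map (algebraMap (𝓞 F) (𝓞 M)) := by
        rw [Polynomial.map_mul, map_X]
      rw [e1, fF, hfm, coeff_map, coeff_map, coeff_map, ← map_sub, ← map_sub]
      refine (HeightOneSpectrum.valuation_lt_one_iff_mem (K := M) w _).2 ?_
      refine ov_of_ab hv _ ?_
      rw [← evq]
      exact hcQ q hqS j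
    have hnf := nf_q M Ω (𝓞 M) (𝓞 Ω) w 𝔓 (lies_ab hw) g (fF fm)
      ((r q).map (algebraMap (𝓞 F) (𝓞 M))) (q : M) (D' : M) (algebraMap L Ω θ) hg
      (hGM.mon.map _) hfd (a8.map _) hrd (irr_w hsp hv (by rw [← evq]; exact a10)) hfc hGM.root
      v1 vq vD' hgd
    specialize hl (hA3 hnf)
    have e8 : (D : Ω) = algebraMap M Ω ((q : M) * (D' : M)) := by
      rw [hDD]
      simp
    have e9 : (q : Ω) = algebraMap M Ω (q : M) := by simp
    rw [e8] at hne ⊢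
    rw [e9]
    refine Pool.Agent.N78.PF.LOC2 M Ω (𝓞 M) (𝓞 Ω) w 𝔓 (lies_ab hw) v2 g (fF fm) h
      ((r q).map (algebraMap (𝓞 F) (𝓞 M))) (q : M) (D' : M) (algebraMap L Ω θ) hg
      (hGM.mon.map _) hfd (a8.map _) hrd (irr_w hsp hv (by rw [← evq]; exact a10)) hfc hGM.root
      v1 vq vD' s1 s2 hl hne
  · -- the image at two and at infinity
    have e0 : aeval (algebraMap L Ω θ) (h.comp (C ((D : ℕ) : M) * X)) =
        aeval ((D : Ω) * algebraMap L Ω θ) h := by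
      rw [aeval_comp, map_mul, aeval_C, aeval_X, map_natCast]
    refine ⟨h.comp (C ((D : ℕ) : M) * X), e0, fun w hw => ?_, fun σ => ?_⟩
    · haveI : Fact (Nat.Prime 2) := ⟨Nat.prime_two⟩
      obtain ⟨δ, hδ⟩ := Pool.Agent.N891.PQ.sq_two D hD8
      obtain ⟨ι, hι, -, -⟩ := Pool.Agent.N498.PQ.cpl M 2 w (by
        change ((2 : ℕ) : 𝓞 M) ∈ w.asIdeal
        exact_mod_cast hw)
      haveI : CharZero (w.adicCompletion M) :=
        charZero_of_injective_algebraMap (algebraMap M (w.adicCompletion M)).injective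
      exact Pool.Agent.N78.PF.map_locF hGM.mon hGM.deg hD0 (ι δ)
        (by rw [← map_pow, hδ, map_natCast]) h (hloc w (hA2 w hw))
    · letI : Algebra M ℝ := σ.toAlgebra
      exact Pool.Agent.N78.PF.map_locF (E := ℝ) hGM.mon hGM.deg hD0 (Real.sqrt D)
        (Real.sq_sqrt (Nat.cast_nonneg D)) h (hreal σ)

end top

/-- From elements of the field to polynomials. -/
theorem selW_of {M Ω : Type} [Field M] [NumberField M] [Field Ω] [NumberField Ω]
    [Algebra M Ω] {g : ℕ} {f : (𝓞 M)[X]} {θ : Ω} (hc : IsGen g f θ) {D : ℕ} (hD0 : D ≠ 0)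
    (hirr : Irreducible (fF f)) {A : HeightOneSpectrum (𝓞 M) → Prop}
    (H : ∀ h : M[X], aeval ((D : Ω) * θ) h ≠ 0 →
      IsSquare (Algebra.norm M (aeval ((D : Ω) * θ) h)) →
      (∀ w : HeightOneSpectrum (𝓞 M), A w →
        LocF (w.adicCompletion M) (fF (f.scaleRoots ((D : ℕ) : 𝓞 M))) h) →
      (∀ w : HeightOneSpectrum (𝓞 M), (2 : 𝓞 M) ∉ w.asIdeal →
        LocU w (fF (f.scaleRoots ((D : ℕ) : 𝓞 M))) h) →
      (∀ σ : M →+* ℝ, LocIm ℝ ((fF (f.scaleRoots ((D : ℕ) : 𝓞 M))).map σ) (h.map σ)) →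
      IsSquare (aeval ((D : Ω) * θ) h)) :
    Irreducible (fF (f.scaleRoots ((D : ℕ) : 𝓞 M))) ∧
      SelW A (fF (f.scaleRoots ((D : ℕ) : 𝓞 M))) := by
  have hm := hc.mon
  have hd := hc.deg
  have hD0F : (D : M) ≠ 0 := Nat.cast_ne_zero.2 hD0
  have hmD : (f.scaleRoots (D : 𝓞 M)).Monic := (monic_scaleRoots_iff (D : 𝓞 M)).2 hm
  have hirrD : Irreducible (fF (f.scaleRoots (D : 𝓞 M))) := by
    rw [Pool.Agent.N170.PF.fF_scale hm]
    exact Pool.Agent.N170.PF.irr_scale hD0F hirr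
  refine ⟨hirrD, ?_⟩
  intro h hcop hnorm hloc hunr hlocR
  obtain ⟨F', hF'⟩ : ∃ F' : M[X], F' = fF (f.scaleRoots (D : 𝓞 M)) := ⟨_, rfl⟩
  obtain ⟨Θ, hΘ⟩ : ∃ Θ : Ω, Θ = (D : Ω) * θ := ⟨_, rfl⟩
  have hsel := H h
  rw [← hΘ] at hsel
  have hroot : aeval Θ F' = 0 := by
    have e1 := scaleRoots_eval₂_mul (p := fF f) (algebraMap M Ω) θ (D : M)
    have e2 : eval₂ (algebraMap M Ω) θ (fF f) = 0 := by
      rw [← aeval_def]
      exact hc.root
    rw [e2, mul_zero, map_natCast] at e1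
    rw [hF', Pool.Agent.N170.PF.fF_scale hm, aeval_def, hΘ]
    exact e1
  have hmF' : F'.Monic := by
    rw [hF']
    exact hmD.map _
  have hdF' : F'.natDegree = 2 * g + 1 := by
    rw [hF', fF, hmD.natDegree_map, natDegree_scaleRoots, hd]
  rw [← hF'] at hirrD hcop hnorm ⊢
  haveI hfact' : Fact (Irreducible F') := ⟨hirrD⟩
  obtain ⟨φ, hφ⟩ : ∃ φ : AdjoinRoot F' →ₐ[M] Ω,
      φ = AdjoinRoot.liftAlgHom F' (Algebra.ofId M _) Θ hroot := ⟨_, rfl⟩
  have hφmk : ∀ p : M[X], φ (AdjoinRoot.mk F' p) = aeval Θ p := by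
    intro p
    have h1 := AdjoinRoot.liftAlgHom_mk F' (Algebra.ofId M Ω) Θ hroot p
    rw [Algebra.toRingHom_ofId, ← Polynomial.aeval_def] at h1
    rw [hφ]
    exact h1
  have hφinj : Function.Injective φ := φ.toRingHom.injective
  haveI : FiniteDimensional M (AdjoinRoot F') := hmF'.finite_adjoinRoot
  haveI : FiniteDimensional M Ω := Module.finite_of_finrank_pos (by rw [hc.rank]; omega)
  have hrk : Module.finrank M (AdjoinRoot F') = Module.finrank M Ω := by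
    rw [hc.rank, (AdjoinRoot.powerBasis hmF'.ne_zero).finrank, AdjoinRoot.powerBasis_dim, hdF']
  have hφsurj : Function.Surjective φ :=
    (LinearMap.injective_iff_surjective_of_finrank_eq_finrank (f := φ.toLinearMap) hrk).1 hφinj
  obtain ⟨e, he⟩ : ∃ e : AdjoinRoot F' ≃ₐ[M] Ω, ∀ x, e x = φ x :=
    ⟨AlgEquiv.ofBijective φ ⟨hφinj, hφsurj⟩, fun _ => rfl⟩
  have hemk : ∀ p : M[X], e (AdjoinRoot.mk F' p) = aeval Θ p := fun p => (he _).trans (hφmk p)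
  have hne : aeval Θ h ≠ 0 := by
    intro h0
    obtain ⟨u, v, huv⟩ := hcop
    have := congrArg (aeval Θ) huv
    rw [map_add, map_mul, map_mul, hroot, h0, mul_zero, mul_zero, add_zero, map_one] at this
    exact zero_ne_one this
  have hnorm' : IsSquare (Algebra.norm M (aeval Θ h)) := by
    rw [← hemk, Algebra.norm_eq_of_algEquiv]
    exact hnorm
  obtain ⟨y, hy⟩ := hsel hne hnorm' hloc hunr hlocR
  obtain ⟨z, rfl⟩ := hφsurj y
  obtain ⟨s, rfl⟩ := AdjoinRoot.mk_surjective z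
  refine ⟨s, ?_⟩
  rw [← AdjoinRoot.mk_eq_zero]
  apply hφinj
  rw [map_zero, hφmk, map_sub, map_pow, sub_eq_zero]
  rw [hφmk] at hy
  rw [pow_two]
  exact hy

section tower

variable {F L M Ω : Type} [Field F] [NumberField F] [Field L] [NumberField L] [Algebra F L]
  [Field M] [NumberField M] [Field Ω] [NumberField Ω] [Algebra F M]
  [Algebra L Ω] [Algebra M Ω] [Algebra F Ω] [IsScalarTower F L Ω] [IsScalarTower F M Ω]

/-- The descent. -/
theorem sel_abs [IsGalois F M] {n : ℕ} (hn : Module.finrank F M = 2 ^ n) {g W : ℕ}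
    {f f₁ : (𝓞 F)[X]} {θ : L} {S J : Finset ℕ}
    {𝔮 : ℕ → Ideal (𝓞 F)} {r P : ℕ → (𝓞 F)[X]} (hg : 1 ≤ g) (hG : IsGen g f θ) (hsq : SqF g f)
    (hF₁ : GoodF g W f₁) (hS : GoodS g W S 𝔮 r P) (hc1 : Cg (sp F W) f f₁)
    (hcq : ∀ q ∈ S, Cg (sp F q) f (P q)) (hJ : J ⊆ S)
    (hsel : ∀ h : F[X], aeval θ h ≠ 0 → IsSquare (Algebra.norm F (aeval θ h)) →
      (∀ 𝔓 : HeightOneSpectrum (𝓞 L), (∀ q ∈ J, Ov (𝔮 q) 𝔓 → 𝔓.valuation L θ ≠ 1) →
        Ev 𝔓 (aeval θ h)) →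
      (∀ q ∈ J, ∀ 𝔓 : HeightOneSpectrum (𝓞 L), Ov (𝔮 q) 𝔓 → 𝔓.valuation L θ = 1 →
        U0 𝔓 ((q : L) * θ) (aeval θ h)) →
      (∀ w : HeightOneSpectrum (𝓞 F), (2 : 𝓞 F) ∈ w.asIdeal →
        LocF (w.adicCompletion F) (fF f) h) →
      (∀ σ : F →+* ℝ, LocIm ℝ ((fF f).map σ) (h.map σ)) → IsSquare (aeval θ h))
    (hM : Mok M S 𝔮 f) (hθ : M⟮algebraMap L Ω θ⟯ = ⊤) (hr : Module.finrank M Ω = 2 * g + 1)
    (hirr : Irreducible (fM M f))
    {A : HeightOneSpectrum (𝓞 M) → Prop}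
    (hA1 : ∀ q ∈ S, ∀ v : HeightOneSpectrum (𝓞 F), v.asIdeal = 𝔮 q →
      ∀ w : HeightOneSpectrum (𝓞 M), Ab v w → NF (w.adicCompletion M)
      (fF ((f.scaleRoots ((Dp J : ℕ) : 𝓞 F)).map (algebraMap (𝓞 F) (𝓞 M)))) → A w)
    (hA2 : ∀ w : HeightOneSpectrum (𝓞 M), (2 : 𝓞 M) ∈ w.asIdeal → A w) :
    Irreducible (fF ((f.scaleRoots ((Dp J : ℕ) : 𝓞 F)).map (algebraMap (𝓞 F) (𝓞 M)))) ∧
      SelW A (fF ((f.scaleRoots ((Dp J : ℕ) : 𝓞 F)).map (algebraMap (𝓞 F) (𝓞 M)))) := by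
  have hGM := isGen_up (M := M) hG hθ hr
  have hD0 : Dp J ≠ 0 := by
    rw [Dp, Finset.prod_ne_zero_iff]
    exact fun q hq => (hS q (hJ hq)).1.ne_zero
  have hgd : Good 2 (-1 : M)
      (fF ((f.scaleRoots ((Dp J : ℕ) : 𝓞 F)).map (algebraMap (𝓞 F) (𝓞 M)))) := by
    have hmD : (f.scaleRoots ((Dp J : ℕ) : 𝓞 F)).Monic := (monic_scaleRoots_iff _).2 hG.mon
    have h1 : Irreducible (fF ((f.scaleRoots ((Dp J : ℕ) : 𝓞 F)).map
        (algebraMap (𝓞 F) (𝓞 M)))) := by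
      rw [scale_map hG.mon, Pool.Agent.N170.PF.fF_scale (hG.mon.map _)]
      exact Pool.Agent.N170.PF.irr_scale (Nat.cast_ne_zero.2 hD0) hirr
    refine Pool.Agent.N106.JB.good2 two_ne_zero ((hmD.map _).map _) h1.separable ?_
    rw [fF, (hmD.map _).natDegree_map, hmD.natDegree_map, natDegree_scaleRoots, hG.deg]
    exact odd_two_mul_add_one g
  rw [scale_map hG.mon]
  refine selW_of hGM hD0 hirr fun h hne hN hloc hunr hreal => ?_
  rw [← scale_map hG.mon] at hloc hunr hreal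
  have hcnd := cnd_top (M := M) (Ω := Ω) hg hG hsq hF₁ hS hc1 hcq hJ hM hθ hr hne hgd hA1 hA2
    hloc hunr hreal
  have h2F : (2 : F) ≠ 0 := two_ne_zero
  refine Pool.Agent.N301.JM.tow' n F L M Ω h2F hn
    (by rw [hG.rank]; exact odd_two_mul_add_one g) (by rw [hr, hG.rank])
    (fun x => Cnd M J 𝔮 f θ x) (fun x hx => cnd_sq hθ hx)
    (fun x y hx hy h h' => cnd_mul (fun q hq => ?_) (fun q hq 𝔓 h1 v1 => ?_) hx hy h h')
    (fun σ x h => cnd_sig σ h)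
    (fun x hx hC hN => base_sq (M := M) (Ω := Ω) hg hG hsq hF₁ hS hc1 hcq hJ hsel hM hθ hirr hx
      hC hN) _ hne hcnd hN
  · have hqS := hJ hq
    refine ⟨(hS q hqS).1, fun h2 => ?_, nat_mem_q hS hqS⟩
    have := (hS q hqS).2.2.2.1
    rw [h2] at this
    omega
  · -- the valuation of `q θ`
    have hqS := hJ hq
    have hcQ : Cg (𝔮 q) f (X * r q) := by
      intro j
      obtain ⟨-, -, -, -, -, -, a2, -, -, -, -, -, -, a3, -⟩ := hS q hqS
      have b1 := Pool.Agent.N78.PF.sp_le (F := F) a2 (hcq q hqS j)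
      have b2 := a3 j
      have := Ideal.add_mem _ b1 b2
      simpa using this
    obtain ⟨w, hw⟩ := exists_ab (F := M) 𝔓
    obtain ⟨v, hv⟩ := exists_ab (F := F) w
    obtain ⟨𝔭, h𝔭⟩ := exists_ab (F := L) 𝔓
    have hv𝔓 : Ab (E := Ω) v 𝔓 := ab_tr hv hw
    have hv𝔭 : Ab v 𝔭 := ab_down hv𝔓 h𝔭
    have hpr : (𝔮 q).IsPrime := (hS q hqS).2.2.2.2.2.1
    have hmax : (𝔮 q).IsMaximal := hpr.isMaximal (q_ne hS hqS)
    have evq : 𝔮 q = v.asIdeal := by
      refine hmax.eq_of_le v.isPrime.ne_top fun a ha => ?_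
      have h4 := (val_lt_iff hv𝔓 (a : F)).1 (h1 a ha)
      exact (HeightOneSpectrum.valuation_lt_one_iff_mem (K := F) v a).1 h4
    have hsp := hM.spl q hqS v evq.symm
    have o1 : Ov (𝔮 q) 𝔭 := by
      rw [evq]
      exact ov_of_ab hv𝔭
    have v1' : 𝔭.valuation L θ = 1 := (val_eq_iff h𝔭 θ).1 v1
    obtain ⟨c1, -, c3, -⟩ := csq g W F L f θ S 𝔮 r P hg hG hsq hS q hqS hcQ 𝔭 o1 v1'
    have hder : 𝔓.valuation Ω (algebraMap L Ω (aeval θ (derivative (fF f)))) = 1 :=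
      (val_eq_iff h𝔭 _).2 c3
    have hwv : ∀ x : M, 𝔓.valuation Ω (algebraMap M Ω x) = w.valuation M x := by
      obtain ⟨w₁, hw₁⟩ := over_M (M := M) hG.mon hG.root hθ 𝔓 hder
      have : w₁ = w := ab_unique (E := Ω) (fun x hx => by rw [hw₁]; exact hx) hw
      rw [← this]
      exact hw₁
    have vqv : v.valuation F (q : F) = exp (-1 : ℤ) := by
      obtain ⟨𝔓₁, 𝔓₂, e1, e2, e3, e4, e5, e6, e7⟩ :=
        exq g W F L f θ S 𝔮 r P hg hG hsq hS q hqS hcQ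
      have h5 : 𝔭.valuation L (q : L) = exp (-1 : ℤ) := by
        rcases e7 𝔭 o1 with rfl | rfl
        · exact e5
        · exact e6
      obtain ⟨e, he0, he⟩ := ab_e (ov_of_ab hv𝔭)
      have h6 := he (q : F)
      rw [map_natCast, h5] at h6
      have h7 := exp_pow' h6.symm
      rw [h7, pow_one] at h6
      exact h6.symm
    apply not_ev_exp'
    have e9 : (q : Ω) = algebraMap M Ω (q : M) := by simp
    have h5 := (hsp w hv).1 (q : F)
    rw [map_natCast] at h5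
    rw [map_mul, v1, mul_one, e9, hwv, h5, vqv]

end tower

/-- One subset `J` for all the extensions. -/
theorem sel_uni (g : ℕ) (F : Type) [Field F] [NumberField F] (hg : 1 ≤ g) : ∃ κ : ℕ,
    ∀ (B N W : ℕ) (f₁ : (𝓞 F)[X]) (S : Finset ℕ) (𝔮 : ℕ → Ideal (𝓞 F)) (r P : ℕ → (𝓞 F)[X])
    (f : (𝓞 F)[X]), κ ≤ W → GoodF g W f₁ → GoodS g W S 𝔮 r P → Fam g B W f₁ S P f →
    2 ^ κ * B ≤ 4 ^ N → 1 ≤ B → ¬ LBad g N κ S 𝔮 P f →
    ∃ J ⊆ S, Irreducible (fF (f.scaleRoots ((Dp J : ℕ) : 𝓞 F))) ∧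
      Min g (f.scaleRoots ((Dp J : ℕ) : 𝓞 F)) ∧
      ∀ (M : Type) [Field M] [NumberField M] [Algebra F M] [IsGalois F M] (n : ℕ),
        Module.finrank F M = 2 ^ n → Mok M S 𝔮 f →
        ∀ A : HeightOneSpectrum (𝓞 M) → Prop,
        (∀ q ∈ S, ∀ v : HeightOneSpectrum (𝓞 F), v.asIdeal = 𝔮 q →
          ∀ w : HeightOneSpectrum (𝓞 M), Ab v w → NF (w.adicCompletion M)
          (fF ((f.scaleRoots ((Dp J : ℕ) : 𝓞 F)).map (algebraMap (𝓞 F) (𝓞 M)))) → A w) →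
        (∀ w : HeightOneSpectrum (𝓞 M), (2 : 𝓞 M) ∈ w.asIdeal → A w) →
        Irreducible (fF ((f.scaleRoots ((Dp J : ℕ) : 𝓞 F)).map (algebraMap (𝓞 F) (𝓞 M)))) ∧
        SelW A (fF ((f.scaleRoots ((Dp J : ℕ) : 𝓞 F)).map (algebraMap (𝓞 F) (𝓞 M)))) := by
  obtain ⟨κ₁, hκ₁⟩ := core g F hg
  obtain ⟨κ₂, hκ₂⟩ := sqf g F hg
  refine ⟨max κ₁ κ₂, fun B N W f₁ S 𝔮 r P f hW hf₁ hS hF hBN hB hnb => ?_⟩
  have hBN1 : 2 ^ κ₁ * B ≤ 4 ^ N :=
    (Nat.mul_le_mul_right _ (Nat.pow_le_pow_right (by norm_num) (le_max_left _ _))).trans hBN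
  have hBN2 : 2 ^ κ₂ * B ≤ 4 ^ N :=
    (Nat.mul_le_mul_right _ (Nat.pow_le_pow_right (by norm_num) (le_max_right _ _))).trans hBN
  have hnb1 : ¬ LBad g N κ₁ S 𝔮 P f := fun h =>
    hnb (Pool.Agent.N170.PF.LBad.mono (le_max_left _ _) h)
  have hnb2 : ¬ LBad g N κ₂ S 𝔮 P f := fun h =>
    hnb (Pool.Agent.N170.PF.LBad.mono (le_max_right _ _) h)
  have hm := hF.ht.mon
  have hd := hF.ht.deg
  have hirr : Irreducible (fF f) := Pool.Agent.N667.PF.irr F g W f₁ f hf₁ hF.one hm hd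
  have hsq : SqF g f := hκ₂ B N W f₁ S 𝔮 r P f ((le_max_right _ _).trans hW) hf₁ hS hF hirr hBN2
    hB hnb2
  obtain ⟨L, _, _, _, θ, hc⟩ := Pool.Agent.N667.PF.gen F g f hm hd hirr
  obtain ⟨J, hJ, hcore⟩ := hκ₁ L f f₁ θ B N W S 𝔮 r P ((le_max_left _ _).trans hW) hc hsq hf₁ hS
    hF hBN1 hB hnb1
  have hmin := Pool.Agent.N547.PF.min g W F S J 𝔮 r P f hg hS hsq hm hd hF.con hJ
  have hD0 : Dp J ≠ 0 := by
    rw [Dp, Finset.prod_ne_zero_iff]
    exact fun q hq => (hS q (hJ hq)).1.ne_zero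
  have hirrD : Irreducible (fF (f.scaleRoots ((Dp J : ℕ) : 𝓞 F))) := by
    rw [Pool.Agent.N170.PF.fF_scale hm]
    exact Pool.Agent.N170.PF.irr_scale (Nat.cast_ne_zero.2 hD0) hirr
  refine ⟨J, hJ, hirrD, hmin, ?_⟩
  intro M _ _ _ _ n hn hM A hA1 hA2
  have hmF : (fF f).Monic := hm.map _
  have hirrM : Irreducible (fM M f) := by
    rw [fM, fF_map]
    refine Pool.Agent.N874.JM.irr_up hn hirr hmF ?_
    rw [fF, hm.natDegree_map, hd]
    exact odd_two_mul_add_one g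
  have hmM : (fM M f).Monic := (hm.map _).map _
  obtain ⟨Ω, iF, iA, t, ht, hr, htop, hfin, hmin⟩ :=
    Pool.Agent.N874.JM.exists_field hirrM hmM
  have hdM : (fM M f).natDegree = 2 * g + 1 := by
    rw [fM, fF, (hm.map _).natDegree_map, hm.natDegree_map, hd]
  rw [hdM] at hr
  haveI : CharZero Ω := charZero_of_injective_algebraMap (algebraMap M Ω).injective
  haveI : FiniteDimensional ℚ Ω := FiniteDimensional.trans ℚ M Ω
  haveI : NumberField Ω := ⟨⟩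
  letI : Algebra F Ω := ((algebraMap M Ω).comp (algebraMap F M)).toAlgebra
  haveI : IsScalarTower F M Ω := IsScalarTower.of_algebraMap_eq fun x => rfl
  have ht' : aeval t (minpoly F (Pool.Agent.N459.PF.pb hc).gen) = 0 := by
    have e1 : minpoly F (Pool.Agent.N459.PF.pb hc).gen = fF f := Pool.Agent.N459.PF.minp hc
    rw [e1]
    rw [fM, fF_map, aeval_map_algebraMap] at ht
    exact ht
  let φ : L →ₐ[F] Ω := (Pool.Agent.N459.PF.pb hc).lift t ht'
  have hφ : φ θ = t := (Pool.Agent.N459.PF.pb hc).lift_gen t ht'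
  letI : Algebra L Ω := φ.toRingHom.toAlgebra
  haveI : IsScalarTower F L Ω := IsScalarTower.of_algebraMap_eq fun x => (φ.commutes x).symm
  have hroot : algebraMap L Ω θ = t := hφ
  have htop' : M⟮algebraMap L Ω θ⟯ = ⊤ := by rw [hroot]; exact htop
  exact sel_abs (L := L) (Ω := Ω) hn hg hc hsq hf₁ hS hF.one hF.con hJ hcore hM htop' hr hirrM
    hA1 hA2

end Run7.h23.Gn.W
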