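import Pool.Agent.Run7.h23.Tw.Tc
import Pool.Agent.Run7.h23.Tw.Sel

/-!
# Twisted cocycles over a number field
-/

set_option autoImplicit false
set_option linter.all false

open Polynomial IsDedekindDomain NumberField Topology
open scoped Classical

namespace Run7.h23.Tw

open Pool.Agent.Y160.SE
open Pool.Agent.N352.JB (S_KUM S_LOC S_COB S_LC KumD)
open Pool.Agent.TH115.GD (incl rs ak exists_restrict)

section act

variable {K Ω : Type} [Field K] [Field Ω] [Algebra K Ω] {f : K[X]} {n : ℕ}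
  (ρ : (Ω ≃ₐ[K] Ω) →* Matrix (Fin n) (Fin n) ℤ_[2])

/-- The twisted action. -/
noncomputable def act (σ : Ω ≃ₐ[K] Ω) (x : Fin n → Jac 2 f Ω) : Fin n → Jac 2 f Ω :=
  ta (ρ σ) (fun j => jm 2 f (ak σ) (x j))

variable {ρ} {x y : Fin n → Jac 2 f Ω}

theorem act_tt (hx : ∀ j, Tt (x j)) (σ : Ω ≃ₐ[K] Ω) (i : Fin n) : Tt (act ρ σ x i) :=
  ta_tt (fun j => (hx j).map _) i

theorem act_add (hx : ∀ j, Tt (x j)) (hy : ∀ j, Tt (y j)) (σ : Ω ≃ₐ[K] Ω) :
    act ρ σ (x + y) = act ρ σ x + act ρ σ y := by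
  unfold act
  rw [← ta_add (fun j => (hx j).map _) (fun j => (hy j).map _)]
  congr 1
  funext j
  exact map_add _ _ _

theorem act_sub (hx : ∀ j, Tt (x j)) (hy : ∀ j, Tt (y j)) (σ : Ω ≃ₐ[K] Ω) :
    act ρ σ (x - y) = act ρ σ x - act ρ σ y := by
  unfold act
  rw [← ta_sub (fun j => (hx j).map _) (fun j => (hy j).map _)]
  congr 1
  funext j
  exact map_sub _ _ _

theorem act_smul (hx : ∀ j, Tt (x j)) (m : ℤ) (σ : Ω ≃ₐ[K] Ω) :
    act ρ σ (m • x) = m • act ρ σ x := by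
  unfold act
  rw [← ta_nsmul (fun j => (hx j).map _)]
  congr 1
  funext j
  exact map_zsmul _ _ _

theorem act_zero (σ : Ω ≃ₐ[K] Ω) : act ρ σ (0 : Fin n → Jac 2 f Ω) = 0 := by
  unfold act
  have e : (fun j : Fin n => jm 2 f (ak σ) ((0 : Fin n → Jac 2 f Ω) j)) = 0 := by
    funext j
    exact map_zero _
  rw [e, ta_zero]

theorem act_mul (hx : ∀ j, Tt (x j)) (σ τ : Ω ≃ₐ[K] Ω) :
    act ρ (σ * τ) x = act ρ σ (act ρ τ x) := by
  unfold act
  have h1 : ∀ i, jm 2 f (ak σ) (ta (ρ τ) (fun j => jm 2 f (ak τ) (x j)) i) =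
      ta (ρ τ) (fun j => jm 2 f (ak (σ * τ)) (x j)) i := by
    intro i
    rw [ta_map (fun j => (hx j).map _)]
    have e : (fun j => jm 2 f (ak σ) (jm 2 f (ak τ) (x j))) =
        fun j => jm 2 f (ak (σ * τ)) (x j) := by
      funext j
      rw [jm_jm]
      rfl
    rw [e]
  rw [map_mul, ta_mul (fun j => (hx j).map _)]
  congr 1
  funext i
  exact (h1 i).symm

theorem act_one (hx : ∀ j, Tt (x j)) : act ρ 1 x = x := by
  unfold act
  have e : (fun j => jm 2 f (ak (1 : Ω ≃ₐ[K] Ω)) (x j)) = x := by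
    funext j
    exact jm_id (x j)
  rw [map_one, e, ta_one hx]

theorem cob_eq (σ : Ω ≃ₐ[K] Ω) : cob ρ x σ = act ρ σ x - x := rfl

theorem cob_tt (hx : ∀ j, Tt (x j)) (σ : Ω ≃ₐ[K] Ω) (i : Fin n) : Tt (cob ρ x σ i) :=
  (act_tt hx σ i).sub (hx i)

theorem cob_add (hx : ∀ j, Tt (x j)) (hy : ∀ j, Tt (y j)) (σ : Ω ≃ₐ[K] Ω) :
    cob ρ (x + y) σ = cob ρ x σ + cob ρ y σ := by
  rw [cob_eq, cob_eq, cob_eq, act_add hx hy]
  exact add_sub_add_comm _ _ _ _

theorem cob_smul (hx : ∀ j, Tt (x j)) (m : ℤ) (σ : Ω ≃ₐ[K] Ω) :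
    cob ρ (m • x) σ = m • cob ρ x σ := by
  rw [cob_eq, cob_eq, act_smul hx, smul_sub]

theorem cob_mul (hx : ∀ j, Tt (x j)) (σ τ : Ω ≃ₐ[K] Ω) :
    cob ρ x (σ * τ) = cob ρ x σ + act ρ σ (cob ρ x τ) := by
  rw [cob_eq, cob_eq, cob_eq, act_sub (act_tt hx τ) hx, act_mul hx]
  exact (sub_add_sub_cancel' _ _ _).symm

variable {b : (Ω ≃ₐ[K] Ω) → Fin n → Jac 2 f Ω}

theorem TCoc.smul (h : TCoc ρ b) (m : ℤ) : TCoc ρ fun σ => m • b σ where
  lc i := (h.lc i).comp fun x => m • x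
  tor σ i := (h.tor σ i).smul m
  mul σ τ := by
    show m • b (σ * τ) = m • b σ + act ρ σ (m • b τ)
    rw [act_smul (h.tor τ), h.mul, smul_add]
    rfl

/-- The action on an element is locally constant. -/
theorem act_lc [IsGalois K Ω] (hg : Good 2 (-1 : K) f)
    (hρ : ∀ i j, Continuous fun σ => ρ σ i j) (hx : ∀ j, Tt (x j)) (i : Fin n) :
    IsLocallyConstant fun σ => act ρ σ x i := by
  have h1 : ∀ j, IsLocallyConstant fun σ : Ω ≃ₐ[K] Ω => jm 2 f (ak σ) (x j) := fun j =>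
    Pool.Agent.N615.JB.lc K Ω f hg (x j)
  have h2 : ∀ j, IsLocallyConstant fun σ : Ω ≃ₐ[K] Ω => zm (ρ σ i j) (jm 2 f (ak σ) (x j)) := by
    intro j
    rw [IsLocallyConstant.iff_eventually_eq]
    intro σ₀
    obtain ⟨k, hk⟩ := (hx j).map (jm 2 f (ak σ₀))
    have h3 := (IsLocallyConstant.iff_eventually_eq _).1 (h1 j) σ₀
    have h4 : ∀ᶠ σ in 𝓝 σ₀, (2 : ℤ_[2]) ^ k ∣ ρ σ i j - ρ σ₀ i j := by
      have h5 : ∀ᶠ a in 𝓝 (ρ σ₀ i j), (2 : ℤ_[2]) ^ k ∣ a - ρ σ₀ i j := by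
        have h6 : ∀ᶠ a in 𝓝 (ρ σ₀ i j), dist a (ρ σ₀ i j) < (2 : ℝ) ^ (-(k : ℤ) + 1) :=
          Metric.eventually_nhds_iff.2 ⟨_, by positivity, fun _ h => h⟩
        filter_upwards [h6] with a ha
        rw [dist_eq_norm] at ha
        have h7 := (PadicInt.norm_le_pow_iff_mem_span_pow (a - ρ σ₀ i j) k).1 (by
          rw [PadicInt.norm_le_pow_iff_norm_lt_pow_add_one]
          exact_mod_cast ha)
        rw [Ideal.mem_span_singleton] at h7
        exact_mod_cast h7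
      exact (hρ i j).continuousAt.eventually h5
    filter_upwards [h3, h4] with σ h5 h6
    rw [h5]
    obtain ⟨N, hN⟩ := near (ρ σ₀ i j) k
    rw [zm_eq hk hN, zm_eq hk]
    have := dvd_add h6 hN
    rwa [sub_add_sub_cancel] at this
  have h3 : ∀ s : Finset (Fin n), IsLocallyConstant fun σ : Ω ≃ₐ[K] Ω =>
      ∑ j ∈ s, zm (ρ σ i j) (jm 2 f (ak σ) (x j)) := by
    intro s
    induction s using Finset.induction_on with
    | empty =>
      simp only [Finset.sum_empty]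
      exact IsLocallyConstant.const _
    | insert j s hj ih =>
      simp only [Finset.sum_insert hj]
      exact (h2 j).add ih
  exact h3 Finset.univ

theorem TCoc.sub [IsGalois K Ω] (hg : Good 2 (-1 : K) f)
    (hρ : ∀ i j, Continuous fun σ => ρ σ i j) (h : TCoc ρ b) (hx : ∀ j, Tt (x j)) :
    TCoc ρ fun σ => b σ - cob ρ x σ where
  lc i := (h.lc i).sub ((act_lc hg hρ hx i).sub (IsLocallyConstant.const (x i)))
  tor σ i := (h.tor σ i).sub (cob_tt hx σ i)
  mul σ τ := by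
    show b (σ * τ) - cob ρ x (σ * τ) = b σ - cob ρ x σ + act ρ σ (b τ - cob ρ x τ)
    rw [act_sub (h.tor τ) (cob_tt hx τ), h.mul, cob_mul hx]
    exact add_sub_add_comm _ _ _ _

end act

section res

variable {K Ω : Type} [Field K] [Field Ω] [Algebra K Ω] {f : K[X]} {n : ℕ}
  {ρ : (Ω ≃ₐ[K] Ω) →* Matrix (Fin n) (Fin n) ℤ_[2]} {b : (Ω ≃ₐ[K] Ω) → Fin n → Jac 2 f Ω}
  {E E' Ω' : Type} [Field E] [Field E'] [Field Ω'] [Algebra E Ω'] [Algebra E' Ω'] [Algebra E E']
  [IsScalarTower E E' Ω'] [Algebra K E] [Algebra K E'] [Algebra K Ω']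
  [IsScalarTower K E Ω'] [IsScalarTower K E' Ω']

/-- Restriction to a larger field. -/
theorem TLoc.res (h : TLoc ρ E Ω' b) : TLoc ρ E' Ω' b := by
  obtain ⟨ι, P, hP, h⟩ := h
  refine ⟨ι, P, hP, fun τ σ hx => ?_⟩
  exact h (τ.restrictScalars E) σ hx

/-- From the untwisted local condition to the image of the points. -/
theorem locim_of [IsGalois K Ω] [IsSepClosed Ω] [IsGalois E Ω'] [IsSepClosed Ω']
    (hg : Good 2 (-1 : K) f) (hb : ∀ σ i, (2 : ℤ) • b σ i = 0) (hu : ULoc E Ω' b) (i : Fin n)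
    {h : K[X]} {bb : Ω → Ω} (hK : KumD hg (fun σ => b σ i) h bb) :
    Pool.Agent.N352.JB.LocIm E (f.map (algebraMap K E)) (h.map (algebraMap K E)) := by
  obtain ⟨ι, P, hP⟩ := hu
  refine Pool.Agent.N424.JB.loc Pool.Agent.N615.JB.lag Pool.Agent.N352.JB.sqlT K Ω E Ω' f hg
    (fun σ => b σ i) (fun σ => ?_) h bb hK ι (P i) (fun τ σ hx => hP τ σ hx i)
  rw [Run7.h23.Se.tor_iff2 hg, ← natCast_zsmul]
  exact hb σ i

end res

section nf

open Pool.Agent.N874.JM (LocF)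
open Run7.h23.Gn.W (SelW LocU)

variable {M : Type} [Field M] [NumberField M] {F : M[X]} {n : ℕ}

instance tower_nr (w : HeightOneSpectrum (𝓞 M)) :
    IsScalarTower M (Nr w) (SeparableClosure (w.adicCompletion M)) :=
  IsScalarTower.of_algebraMap_eq fun x => rfl

/-- The conditions on the representation `ρ` over `M`. -/
structure RhoK (F : M[X]) (SW : HeightOneSpectrum (𝓞 M) → Prop)
    (ρ : (SeparableClosure M ≃ₐ[M] SeparableClosure M) →* Matrix (Fin n) (Fin n) ℤ_[2]) :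
    Prop where
  cont : ∀ i j, Continuous fun σ => ρ σ i j
  two : ∀ σ, Cg1 1 (ρ σ)
  real : ∀ [Algebra M ℝ], Dec ρ ℝ (SeparableClosure ℝ) fun N => N = 1
  four : ∀ w, SW w → Dec ρ (w.adicCompletion M) (SeparableClosure (w.adicCompletion M)) (Cg1 2)
  unr : ∀ w : HeightOneSpectrum (𝓞 M), (2 : 𝓞 M) ∉ w.asIdeal → N2 (w.adicCompletion M) F ∨
    Dec ρ (Nr w) (SeparableClosure (w.adicCompletion M)) fun N => N = 1

variable {ρ : (SeparableClosure M ≃ₐ[M] SeparableClosure M) →* Matrix (Fin n) (Fin n) ℤ_[2]}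

variable (F ρ) in
/-- The places with a local condition over the completion. -/
def AW (w : HeightOneSpectrum (𝓞 M)) : Prop :=
  N2 (w.adicCompletion M) F ∨ (NF (w.adicCompletion M) F ∧
    Dec ρ (w.adicCompletion M) (SeparableClosure (w.adicCompletion M)) (Cg1 2))

/-- The local conditions. -/
structure LT (ρ : (SeparableClosure M ≃ₐ[M] SeparableClosure M) →* Matrix (Fin n) (Fin n) ℤ_[2])
    (b : (SeparableClosure M ≃ₐ[M] SeparableClosure M) → Fin n → Jac 2 F (SeparableClosure M)) :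
    Prop where
  fin : ∀ w : HeightOneSpectrum (𝓞 M),
    TLoc ρ (w.adicCompletion M) (SeparableClosure (w.adicCompletion M)) b
  real : ∀ [Algebra M ℝ], TLoc ρ ℝ (SeparableClosure ℝ) b

variable {b : (SeparableClosure M ≃ₐ[M] SeparableClosure M) → Fin n →
  Jac 2 F (SeparableClosure M)}

theorem inv_compat {K Ω Ω' : Type} [Field K] [Field Ω] [Field Ω'] [Algebra K Ω] [Algebra K Ω']
    {ι : Ω →ₐ[K] Ω'} {τ : Ω' → Ω'} {σ : Ω ≃ₐ[K] Ω} (hτ : ∀ x, τ (τ x) = x)
    (hx : ∀ x, τ (ι x) = ι (σ x)) : σ * σ = 1 := by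
  ext x
  apply ι.injective
  show ι (σ (σ x)) = ι x
  rw [← hx, ← hx, hτ]

/-- The automorphisms of the separable closure of the real numbers. -/
theorem real_inv (τ : SeparableClosure ℝ ≃ₐ[ℝ] SeparableClosure ℝ) :
    (∀ x, τ (τ x) = x) ∧ ∀ τ' : SeparableClosure ℝ ≃ₐ[ℝ] SeparableClosure ℝ,
      τ ≠ 1 → τ' ≠ 1 → τ = τ' := by
  haveI : IsSepClosure ℝ ℂ := ⟨inferInstance, inferInstance⟩
  let e : SeparableClosure ℝ ≃ₐ[ℝ] ℂ := IsSepClosure.equiv ℝ _ _
  have key : ∀ τ : SeparableClosure ℝ ≃ₐ[ℝ] SeparableClosure ℝ,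
      (∀ x, e (τ x) = e x) ∨ ∀ x, e (τ x) = Complex.conjAe (e x) := by
    intro τ
    have h1 := Complex.real_algHom_eq_id_or_conj
      (((e : SeparableClosure ℝ →ₐ[ℝ] ℂ).comp (τ : SeparableClosure ℝ →ₐ[ℝ] _)).comp
        (e.symm : ℂ →ₐ[ℝ] SeparableClosure ℝ))
    rcases h1 with h1 | h1
    · left
      intro x
      have := congrArg (fun g => g (e x)) h1
      simpa using this
    · right
      intro x
      have := congrArg (fun g => g (e x)) h1
      simpa using this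
  refine ⟨fun x => ?_, fun τ' h h' => ?_⟩
  · apply e.injective
    rcases key τ with h | h
    · rw [h, h]
    · rw [h, h]
      simp
  · have h1 : ∀ τ : SeparableClosure ℝ ≃ₐ[ℝ] SeparableClosure ℝ, τ ≠ 1 →
        ∀ x, e (τ x) = Complex.conjAe (e x) := by
      intro τ hτ
      rcases key τ with h | h
      · exfalso
        apply hτ
        ext x
        exact congrArg _ (e.injective (h x))
      · exact h
    ext x
    apply congrArg
    apply e.injective
    rw [h1 τ h, h1 τ' h']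

theorem two_step {SW : HeightOneSpectrum (𝓞 M) → Prop} (hg : Good 2 (-1 : M) F)
    (hirr : Irreducible F) (hρ : RhoK F SW ρ) (hsel : SelW (AW F ρ) F) (hb : TCoc ρ b)
    (h2 : ∀ σ i, (2 : ℤ) • b σ i = 0) (hl : LT ρ b) :
    ∃ R : Fin n → Jac 2 F (SeparableClosure M), (∀ i, (2 : ℤ) • R i = 0) ∧ ∀ σ, b σ = cob ρ R σ := by
  have key : ∀ i, ∃ R : Jac 2 F (SeparableClosure M), Tor hg R ∧
      ∀ σ, b σ i = jm 2 F (ak σ) R - R := by
    intro i
    have htor : ∀ σ, Tor hg (b σ i) := fun σ => by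
      rw [Run7.h23.Se.tor_iff2 hg, ← natCast_zsmul]
      exact h2 σ i
    have hco : ∀ σ τ, b (σ * τ) i = b σ i + jm 2 F (ak σ) (b τ i) := by
      intro σ τ
      have h3 := congrFun (hb.mul σ τ) i
      rw [ta_cg (hρ.two σ) (fun j => by
        rw [← map_zsmul]
        have : (2 ^ 1 : ℤ) • b τ j = 0 := kill_succ (h2 τ j) 0
        rw [this, map_zero])] at h3
      exact h3
    obtain ⟨h, bb, hK, hsq⟩ := Pool.Agent.N232.JB.kum Pool.Agent.N615.JB.lag Pool.Agent.N615.JB.nrm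
      M (SeparableClosure M) F hg hirr (fun σ => b σ i) (hb.lc i) hco htor
    have hcop : IsCoprime h F := by
      have hnd : ¬ F ∣ h := by
        intro hd
        obtain ⟨e, he⟩ := exists_rt hg (SeparableClosure M)
        obtain ⟨hb0, hb1⟩ := hK.val e he
        apply hb0
        have : aeval e h = 0 := by
          obtain ⟨q, hq⟩ := hd
          rw [hq, map_mul, show aeval e F = 0 from he, zero_mul]
        rw [this] at hb1
        exact pow_eq_zero_iff (two_ne_zero) |>.1 hb1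
      exact ((hirr.coprime_iff_not_dvd).2 hnd).symm
    have hN2 : ∀ w : HeightOneSpectrum (𝓞 M), N2 (w.adicCompletion M) F →
        LocF (w.adicCompletion M) F h := fun w hw =>
      locim_of hg h2 (loc_two hg hw (fun ι τ σ hx => hρ.two σ) h2 (hl.fin w)) i hK
    have hfin : ∀ w : HeightOneSpectrum (𝓞 M), AW F ρ w → LocF (w.adicCompletion M) F h := by
      rintro w (hw | ⟨hw, hw4⟩)
      · exact hN2 w hw
      · exact locim_of hg h2 (loc_four hg hw hw4 h2 (hl.fin w)) i hK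
    have hunr : ∀ w : HeightOneSpectrum (𝓞 M), (2 : 𝓞 M) ∉ w.asIdeal → LocU w F h := by
      intro w hw
      rcases hρ.unr w hw with h3 | h3
      · exact Run7.h23.Gn.locIm_map (algebraMap (w.adicCompletion M) (Nr w)) (hN2 w h3)
      · have h4 : TLoc ρ (Nr w) (SeparableClosure (w.adicCompletion M)) b := (hl.fin w).res
        have h5 := locim_of hg h2 (loc_one h3 h4) i hK
        unfold LocU
        rw [Polynomial.map_map, Polynomial.map_map]
        exact h5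
    have hreal : ∀ σ : M →+* ℝ, Pool.Agent.N783.PQ.LocIm ℝ (F.map σ) (h.map σ) := by
      intro σ
      letI : Algebra M ℝ := σ.toAlgebra
      have h3 : Dec ρ ℝ (SeparableClosure ℝ) fun N => N = 1 := hρ.real
      exact locim_of hg h2 (loc_one h3 hl.real) i hK
    obtain ⟨s, hs⟩ := hsel h hcop hsq hfin hunr hreal
    exact Pool.Agent.N615.JB.cob M (SeparableClosure M) F hg hirr (fun σ => b σ i) hco htor h bb hK
      s hs
  choose R hR1 hR2 using key
  have hR : ∀ i, (2 : ℤ) • R i = 0 := fun i => by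
    have := (Run7.h23.Se.tor_iff2 hg (R i)).1 (hR1 i)
    rw [← natCast_zsmul] at this
    exact this
  refine ⟨R, hR, fun σ => ?_⟩
  have h3 : act ρ σ R = fun j => jm 2 F (ak σ) (R j) :=
    ta_cg (hρ.two σ) (fun j => by
      rw [← map_zsmul]
      have : (2 ^ 1 : ℤ) • R j = 0 := kill_succ (hR j) 0
      rw [this, map_zero])
  rw [cob_eq, h3]
  funext i
  exact hR2 i σ

/-- Locally trivial classes of 2-power order vanish. -/
theorem claimA {SW : HeightOneSpectrum (𝓞 M) → Prop} (hg : Good 2 (-1 : M) F)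
    (hirr : Irreducible F) (hρ : RhoK F SW ρ) (hsel : SelW (AW F ρ) F) (k : ℕ)
    (b : (SeparableClosure M ≃ₐ[M] SeparableClosure M) → Fin n → Jac 2 F (SeparableClosure M))
    (hb : TCoc ρ b) (h2 : ∀ σ i, (2 ^ k : ℤ) • b σ i = 0) (hl : LT ρ b) :
    ∃ R : Fin n → Jac 2 F (SeparableClosure M), (∀ i, Tt (R i)) ∧ ∀ σ, b σ = cob ρ R σ := by
  induction k generalizing b with
  | zero =>
    refine ⟨0, fun i => Tt.zero, fun σ => ?_⟩
    rw [cob_eq, act_zero, sub_zero]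
    funext i
    have := h2 σ i
    rw [pow_zero] at this
    rw [one_smul] at this
    exact this
  | succ k ih =>
    obtain ⟨Q', hQ', h3⟩ := ih (fun σ => (2 : ℤ) • b σ) (hb.smul 2)
      (fun σ i => smul_tri (2 ^ k) 2 (2 ^ (k + 1)) (by ring) (h2 σ i))
      ⟨fun w => (hl.fin w).smul 2, hl.real.smul 2⟩
    have hd : ∀ i, ∃ y : Jac 2 F (SeparableClosure M), (2 : ℤ) • y = Q' i := by
      intro i
      obtain ⟨y, hy⟩ := Run7.h23.Se.dbl_surj hg (Q' i)
      refine ⟨y, ?_⟩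
      rw [← natCast_zsmul] at hy
      exact hy
    choose Q hQ using hd
    have hQt : ∀ i, Tt (Q i) := fun i => Tt.half (by rw [hQ]; exact hQ' i)
    have hQQ : (2 : ℤ) • Q = Q' := funext hQ
    obtain ⟨R, hR, h4⟩ := two_step (b := fun σ => b σ - cob ρ Q σ) hg hirr hρ hsel
      (hb.sub hg hρ.cont hQt) (fun σ i => by
        have h5 := congrFun (h3 σ) i
        rw [← hQQ, cob_smul hQt] at h5
        show (2 : ℤ) • (b σ i - cob ρ Q σ i) = 0
        rw [smul_sub]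
        exact sub_eq_zero.2 h5)
      ⟨fun w => (hl.fin w).sub hQt, hl.real.sub hQt⟩
    refine ⟨Q + R, fun i => (hQt i).add ⟨1, kill_succ (hR i) 0⟩, fun σ => ?_⟩
    rw [cob_add hQt (fun i => ⟨1, kill_succ (hR i) 0⟩), ← h4]
    exact (add_sub_cancel _ _).symm

end nf

end Run7.h23.Tw
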