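import Pool.Agent.Run7.h23.Tw.Half
import Pool.Agent.Run7.h23.Se.Un
import Pool.Agent.N78.PF.Loc

/-!
# No points of order four over the completions at the primes of bad reduction
-/

set_option autoImplicit false
set_option linter.all false

open Polynomial IsDedekindDomain WithZero
open scoped Classical NNReal

namespace Run7.h23.Tw

open Pool.Agent.Y160.SE
open Pool.Agent.TH115.GD (incl rs ak)
open Pool.Agent.N874.PP (Ev Sq1 U0)
open Pool.Agent.N874.PM (Lies)
open Pool.Agent.N352.PJ (S_E2 S_EQ S_EXT CV ac prd near)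
open Pool.Agent.N704.PP (vx sq1_of near_one)
open Pool.Agent.N704.PJ (WV wv_le wv_lt wv_eq eval_lt eq_prod sq_list)
open Pool.Agent.N849.PM (Lies.eq_one resR u0_of_sq1 u0_of_sq1')
open Pool.Agent.N507.JM (split eM veM eval_eM fin_res)

/-- No points of order four over `E`. -/
def NF {M : Type} (E : Type) [Field M] [Field E] [Algebra M E] (f : M[X]) : Prop :=
  ∀ P : Jac 2 f E, 4 • P = 0 → 2 • P = 0

theorem nf_trans {K E L : Type} [Field K] [Field E] [Field L] [Algebra K E] [Algebra K L]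
    {f : K[X]} (hg : Good 2 (-1 : K) f) (j : E →ₐ[K] L)
    (v : Valuation L (WithZero (Multiplicative ℤ))) {n : ℕ}
    (hn : Odd n) (r : Fin n → L) (hr : Function.Injective r)
    (hf : f.map (algebraMap K L) = ∏ i, (X - C (r i)))
    (hv : ∀ i j, i ≠ j → v (r i - r j) = exp (-1 : ℤ)) : NF E f := by
  intro P hP
  letI : Algebra E (SeparableClosure L) :=
    ((algebraMap L (SeparableClosure L)).comp (j : E →+* L)).toAlgebra
  let κ : SeparableClosure E →ₐ[E] SeparableClosure L := IsSepClosed.lift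
  have hκ : ∀ x : E, κ (algebraMap E _ x) = algebraMap L (SeparableClosure L) (j x) := fun x =>
    κ.commutes x
  let κ' : SeparableClosure E →ₐ[K] SeparableClosure L :=
    { (κ : SeparableClosure E →+* SeparableClosure L) with
      commutes' := fun x => by
        show κ (algebraMap K (SeparableClosure E) x) = algebraMap K (SeparableClosure L) x
        rw [IsScalarTower.algebraMap_apply K E (SeparableClosure E), hκ, j.commutes,
          ← IsScalarTower.algebraMap_apply K L (SeparableClosure L)] }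
  have h1 := half (Ω := SeparableClosure L) hg v hn r hr hf hv (jm 2 f j P) (by
    rw [← map_nsmul, hP, map_zero])
  have h2 : jm 2 f κ' (jm 2 f (incl K E (SeparableClosure E)) (2 • P)) = 0 := by
    rw [jm_jm]
    rw [← map_nsmul, jm_jm] at h1
    have e : κ'.comp (incl K E (SeparableClosure E)) =
        (incl K L (SeparableClosure L)).comp j := AlgHom.ext fun x => hκ x
    rw [e]
    exact h1
  have h3 : jm 2 f (incl K E (SeparableClosure E)) (2 • P) = 0 :=
    Run7.h23.Se.tor2_inj hg κ' (by rw [← map_nsmul, ← mul_smul, show 2 * 2 = 4 from rfl, hP,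
      map_zero]) h2
  refine Run7.h23.Se.jm_inj (Λ := SeparableClosure E) hg ?_
  rw [map_zero]
  exact h3

theorem nf_q (M Ω R O : Type) [Field M] [Field Ω] [Algebra M Ω] [CommRing R]
    [IsDedekindDomain R] [Algebra R M] [IsFractionRing R M] [CommRing O] [IsDedekindDomain O]
    [Algebra O Ω] [IsFractionRing O Ω] (w : HeightOneSpectrum R) (𝔓 : HeightOneSpectrum O)
    [Finite (R ⧸ w.asIdeal)] [Finite (O ⧸ 𝔓.asIdeal)]
    (hL : Lies (M := M) (Ω := Ω) w 𝔓)
    (g : ℕ) (f : M[X]) (h₀ : R[X]) (ϖ D' : M) (θ : Ω) (hg : 1 ≤ g) (hfmon : f.Monic)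
    (hfdeg : f.natDegree = 2 * g + 1) (h₀m : h₀.Monic) (h₀d : h₀.natDegree = 2 * g)
    (h₀i : Irreducible (h₀.map (Ideal.Quotient.mk w.asIdeal)))
    (hfc : ∀ j, w.valuation M (f.coeff j - algebraMap R M ((X * h₀).coeff j)) < 1)
    (hroot : aeval θ f = 0)
    (hθ : 𝔓.valuation Ω θ = 1) (hvϖ : 𝔓.valuation Ω (algebraMap M Ω ϖ) = WithZero.exp (-1 : ℤ))
    (hwD' : w.valuation M D' = 1) (hgd : Good 2 (-1 : M) (f.scaleRoots (ϖ * D'))) :
    NF (w.adicCompletion M) (f.scaleRoots (ϖ * D')) := by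
  haveI hwm : w.asIdeal.IsMaximal := w.isMaximal
  have hvD' : 𝔓.valuation Ω (algebraMap M Ω D') = 1 := Lies.eq_one hL hwD'
  set t := algebraMap Ω (𝔓.adicCompletion Ω) θ with ht
  have vt : Valued.v (Γ₀ := WithZero (Multiplicative ℤ)) t = 1 := by rw [ht, vx, hθ]
  set ε := (eM M Ω 𝔓).comp (algebraMap R M) with hε
  have hft : (f.map (eM M Ω 𝔓)).eval t = 0 := by
    rw [ht, eval_eM, hroot, map_zero]
  obtain ⟨z, hz1, hz2, hz3, hz4, hz5⟩ := split w.asIdeal ε
    (fun r => by
      show Valued.v (Γ₀ := WithZero (Multiplicative ℤ)) (eM M Ω 𝔓 (algebraMap R M r)) ≤ 1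
      rw [veM]
      exact hL.le _ (w.valuation_le_one r))
    (fun r hr => by
      show Valued.v (Γ₀ := WithZero (Multiplicative ℤ)) (eM M Ω 𝔓 (algebraMap R M r)) < 1
      rw [veM]
      exact hL.lt _ ((HeightOneSpectrum.valuation_lt_one_iff_mem w r).2 hr))
    (fin_res (Ω := Ω) 𝔓) (n := 2 * g) (by omega) h₀m h₀d h₀i (F := f.map (eM M Ω 𝔓))
    (fun j => by
      have e : (f.map (eM M Ω 𝔓)).coeff j - ε ((X * h₀).coeff j) =
          eM M Ω 𝔓 (f.coeff j - algebraMap R M ((X * h₀).coeff j)) := by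
        rw [coeff_map, map_sub]; rfl
      rw [e, veM]
      exact hL.lt _ (hfc j)) vt hft
  obtain ⟨j, hj1, -, -⟩ := Pool.Agent.N814.JM.cpl M Ω R O w 𝔓 hL
  set D := eM M Ω 𝔓 (ϖ * D') with hDd
  have vD : Valued.v (Γ₀ := WithZero (Multiplicative ℤ)) D = exp (-1 : ℤ) := by
    rw [hDd, veM, map_mul, map_mul, hvϖ, hvD', mul_one]
  have hD0 : D ≠ 0 := by
    intro h
    rw [h, map_zero] at vD
    exact exp_ne_zero vD.symm
  have hzinj : Function.Injective z := by
    intro i i' hii
    by_contra hne'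
    have := hz4 i i' hne'
    rw [hii, sub_self, map_zero] at this
    exact zero_ne_one this
  have hFm : ((f.scaleRoots (ϖ * D')).map (eM M Ω 𝔓)).Monic :=
    ((monic_scaleRoots_iff _).2 hfmon).map _
  have hFd : ((f.scaleRoots (ϖ * D')).map (eM M Ω 𝔓)).natDegree = 2 * g + 1 := by
    rw [Monic.natDegree_map ((monic_scaleRoots_iff _).2 hfmon), natDegree_scaleRoots, hfdeg]
  have hinj : Function.Injective fun i => D * z i := by
    intro i i' hii
    exact hzinj (mul_left_cancel₀ hD0 hii)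
  have hFp : (f.scaleRoots (ϖ * D')).map (eM M Ω 𝔓) = ∏ i, (X - C (D * z i)) := by
    refine eq_prod hFm hFd (r := fun i => D * z i) hinj ?_
    intro i
    rw [eval_map]
    refine scaleRoots_eval₂_eq_zero _ ?_
    rw [← eval_map]
    exact hz1 i
  letI : Algebra M (𝔓.adicCompletion Ω) := (eM M Ω 𝔓).toAlgebra
  let j' : w.adicCompletion M →ₐ[M] 𝔓.adicCompletion Ω :=
    { j with commutes' := fun x => hj1 x }
  refine nf_trans hgd j' (Valued.v (R := 𝔓.adicCompletion Ω)) (odd_two_mul_add_one g)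
    (fun i => D * z i) hinj hFp ?_
  intro i i' hii
  rw [← mul_sub, map_mul, hz4 i i' hii, mul_one]
  exact vD

end Run7.h23.Tw
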