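import Pool.Agent.Run7.h23.Tw.Zm
import Pool.Agent.Run7.h23.Tw.IrrW

/-!
# Twisted cocycles: the local conditions
-/

set_option autoImplicit false
set_option linter.all false

open Polynomial IsDedekindDomain
open scoped Classical

namespace Run7.h23.Tw

open Pool.Agent.Y160.SE
open Pool.Agent.N352.JB
open Pool.Agent.TH115.GD (incl rs ak exists_restrict)

theorem kill_succ {A : Type} [AddCommGroup A] {x : A} (h : (2 : ℤ) • x = 0) (t : ℕ) :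
    (2 ^ (t + 1) : ℤ) • x = 0 := by rw [pow_succ, mul_smul, h, smul_zero]

theorem smul_one' {A : Type} [AddCommGroup A] {x : A} (h : (2 ^ 1 : ℤ) • x = 0) :
    (2 : ℤ) • x = 0 := by rw [pow_one] at h; exact h

theorem smul_four {A : Type} [AddCommGroup A] {x : A} (h : (2 ^ 2 : ℤ) • x = 0) :
    4 • x = 0 := by
  rw [← natCast_zsmul]
  exact h

theorem smul_tri {A : Type} [AddCommGroup A] {x : A} (a b c : ℤ) (h : a * b = c)
    (hx : c • x = 0) : a • b • x = 0 := by rw [← mul_smul, h, hx]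

theorem smul_tri' {A : Type} [AddCommGroup A] {x : A} (a b c : ℤ) (h : a * b = c)
    (hx : a • b • x = 0) : c • x = 0 := by rw [← h, mul_smul, hx]

section coc

variable {K Ω : Type} [Field K] [Field Ω] [Algebra K Ω] {f : K[X]} {n : ℕ}

/-- The cocycles with values in the 2-power torsion, twisted by `ρ`. -/
structure TCoc (ρ : (Ω ≃ₐ[K] Ω) →* Matrix (Fin n) (Fin n) ℤ_[2])
    (b : (Ω ≃ₐ[K] Ω) → Fin n → Jac 2 f Ω) : Prop where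
  lc : ∀ i, IsLocallyConstant fun σ => b σ i
  tor : ∀ σ i, Tt (b σ i)
  mul : ∀ σ τ, b (σ * τ) = b σ + ta (ρ σ) (fun j => jm 2 f (ak σ) (b τ j))

/-- The twisted coboundary of `Q`. -/
noncomputable def cob (ρ : (Ω ≃ₐ[K] Ω) →* Matrix (Fin n) (Fin n) ℤ_[2]) (Q : Fin n → Jac 2 f Ω)
    (σ : Ω ≃ₐ[K] Ω) : Fin n → Jac 2 f Ω := ta (ρ σ) (fun j => jm 2 f (ak σ) (Q j)) - Q

/-- Local triviality. -/
def TLoc (ρ : (Ω ≃ₐ[K] Ω) →* Matrix (Fin n) (Fin n) ℤ_[2])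
    (E Ω' : Type) [Field E] [Field Ω'] [Algebra E Ω'] [Algebra K E] [Algebra K Ω']
    [IsScalarTower K E Ω'] (b : (Ω ≃ₐ[K] Ω) → Fin n → Jac 2 f Ω) : Prop :=
  ∃ (ι : Ω →ₐ[K] Ω') (P : Fin n → Jac 2 f Ω'), (∀ i, Tt (P i)) ∧
    ∀ (τ : Ω' ≃ₐ[E] Ω') (σ : Ω ≃ₐ[K] Ω), (∀ x, τ (ι x) = ι (σ x)) →
      (fun i => jm 2 f ι (b σ i)) = ta (ρ σ) (fun j => jm 2 f (rs K τ) (P j)) - P

variable {ρ : (Ω ≃ₐ[K] Ω) →* Matrix (Fin n) (Fin n) ℤ_[2]}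
  {b : (Ω ≃ₐ[K] Ω) → Fin n → Jac 2 f Ω}

section loc

variable {E Ω' : Type} [Field E] [Field Ω'] [Algebra E Ω'] [Algebra K E] [Algebra K Ω']
    [IsScalarTower K E Ω']

theorem TLoc.smul (h : TLoc ρ E Ω' b) (m : ℤ) : TLoc ρ E Ω' (fun σ => m • b σ) := by
  obtain ⟨ι, P, hP, h⟩ := h
  refine ⟨ι, m • P, fun i => (hP i).smul m, fun τ σ hx => ?_⟩
  have e1 : (fun i => jm 2 f ι ((m • b σ) i)) = m • fun i => jm 2 f ι (b σ i) := by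
    funext i
    exact map_zsmul _ _ _
  have e2 : (fun j => jm 2 f (rs K τ) ((m • P) j)) = m • fun j => jm 2 f (rs K τ) (P j) := by
    funext i
    exact map_zsmul _ _ _
  rw [e1, e2, h τ σ hx, ta_nsmul (fun j => (hP j).map _), smul_sub]

theorem TLoc.sub (h : TLoc ρ E Ω' b) {Q : Fin n → Jac 2 f Ω} (hQ : ∀ i, Tt (Q i)) :
    TLoc ρ E Ω' (fun σ => b σ - cob ρ Q σ) := by
  obtain ⟨ι, P, hP, h⟩ := h
  refine ⟨ι, P - fun i => jm 2 f ι (Q i), fun i => (hP i).sub ((hQ i).map _), fun τ σ hx => ?_⟩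
  have hcomm : ∀ x : Jac 2 f Ω, jm 2 f ι (jm 2 f (ak σ) x) = jm 2 f (rs K τ) (jm 2 f ι x) := by
    intro x
    rw [jm_jm, jm_jm]
    have e : ι.comp (ak σ) = (rs K τ).comp ι := AlgHom.ext fun x => (hx x).symm
    rw [e]
  have e2 : (fun j => jm 2 f (rs K τ) ((P - fun i => jm 2 f ι (Q i)) j)) =
      (fun j => jm 2 f (rs K τ) (P j)) - fun j => jm 2 f (rs K τ) (jm 2 f ι (Q j)) := by
    funext j
    exact map_sub _ _ _
  rw [e2, ta_sub (fun j => (hP j).map _) (fun j => ((hQ j).map _).map _)]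
  have h1 := h τ σ hx
  funext i
  have h2 := congrFun h1 i
  have e3 : (fun j => jm 2 f ι (jm 2 f (ak σ) (Q j))) =
      fun j => jm 2 f (rs K τ) (jm 2 f ι (Q j)) := funext fun j => hcomm (Q j)
  have h3 : jm 2 f ι (cob ρ Q σ i) =
      ta (ρ σ) (fun j => jm 2 f (rs K τ) (jm 2 f ι (Q j))) i - jm 2 f ι (Q i) := by
    show jm 2 f ι (ta (ρ σ) (fun j => jm 2 f (ak σ) (Q j)) i - Q i) = _
    rw [map_sub, ta_map (fun j => (hQ j).map _), e3]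
  show jm 2 f ι (b σ i - cob ρ Q σ i) = _
  rw [map_sub, h3]
  have h4 : jm 2 f ι (b σ i) = ta (ρ σ) (fun j => jm 2 f (rs K τ) (P j)) i - P i := h2
  rw [h4]
  exact sub_sub_sub_comm _ _ _ _

/-- The untwisted form of the local condition. -/
def ULoc (E Ω' : Type) [Field E] [Field Ω'] [Algebra E Ω'] [Algebra K E] [Algebra K Ω']
    [IsScalarTower K E Ω'] (b : (Ω ≃ₐ[K] Ω) → Fin n → Jac 2 f Ω) : Prop :=
  ∃ (ι : Ω →ₐ[K] Ω') (P : Fin n → Jac 2 f Ω'),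
    ∀ (τ : Ω' ≃ₐ[E] Ω') (σ : Ω ≃ₐ[K] Ω), (∀ x, τ (ι x) = ι (σ x)) →
      ∀ i, jm 2 f ι (b σ i) = jm 2 f (rs K τ) (P i) - P i

/-- `C` holds for all the elements of the decomposition groups. -/
def Dec (ρ : (Ω ≃ₐ[K] Ω) →* Matrix (Fin n) (Fin n) ℤ_[2])
    (E Ω' : Type) [Field E] [Field Ω'] [Algebra E Ω'] [Algebra K E] [Algebra K Ω']
    [IsScalarTower K E Ω'] (C : Matrix (Fin n) (Fin n) ℤ_[2] → Prop) : Prop :=
  ∀ (ι : Ω →ₐ[K] Ω') (τ : Ω' ≃ₐ[E] Ω') (σ : Ω ≃ₐ[K] Ω), (∀ x, τ (ι x) = ι (σ x)) → C (ρ σ)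

theorem loc_one (h1 : Dec ρ E Ω' fun M => M = 1) (h : TLoc ρ E Ω' b) : ULoc E Ω' b := by
  obtain ⟨ι, P, hP, h⟩ := h
  refine ⟨ι, P, fun τ σ hx i => ?_⟩
  have h2 := h τ σ hx
  rw [h1 ι τ σ hx, ta_one (fun j => (hP j).map _)] at h2
  exact congrFun h2 i

variable [IsGalois K Ω] [IsGalois E Ω']

/-- A point fixed by the twisted action. -/
theorem fixed_of (hg : Good 2 (-1 : K) f) {ι : Ω →ₐ[K] Ω'} {k : ℕ}
    (hk : ∀ (τ : Ω' ≃ₐ[E] Ω') (σ : Ω ≃ₐ[K] Ω), (∀ x, τ (ι x) = ι (σ x)) → Cg1 k (ρ σ))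
    {P : Fin n → Jac 2 f Ω'} (hP : ∀ i, (2 ^ k : ℤ) • P i = 0)
    (h : ∀ (τ : Ω' ≃ₐ[E] Ω') (σ : Ω ≃ₐ[K] Ω), (∀ x, τ (ι x) = ι (σ x)) →
      ta (ρ σ) (fun j => jm 2 f (rs K τ) (P j)) = P) (i : Fin n) :
    ∃ y : Jac 2 f E, jm 2 f (incl K E Ω') y = P i ∧ (2 ^ k : ℤ) • y = 0 := by
  obtain ⟨y, hy⟩ := fixed_class (E := E) hyps hg (P i) fun τ => by
    obtain ⟨σ, hσ⟩ := exists_restrict (F := K) (Ω := Ω) (L := E) (Ω' := Ω') ι τ
    have h1 := h τ σ hσ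
    rw [ta_cg (hk τ σ hσ) (fun j => by rw [← map_zsmul, hP, map_zero])] at h1
    exact congrFun h1 i
  refine ⟨y, hy, ?_⟩
  refine Run7.h23.Se.jm_inj (Λ := Ω') hg ?_
  rw [map_zero]
  have h2 : jm 2 f (incl K E Ω') ((2 ^ k : ℤ) • y) = 0 := by rw [map_zsmul, hy, hP]
  exact h2

theorem down {P : Fin n → Jac 2 f Ω'} (hP : ∀ i, Tt (P i)) {s₀ : ℕ}
    (h : ∀ s ≥ s₀, (∀ i, (2 ^ (s + 1) : ℤ) • P i = 0) → ∀ i, (2 ^ s : ℤ) • P i = 0) (i : Fin n) :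
    (2 ^ s₀ : ℤ) • P i = 0 := by
  obtain ⟨k, hk⟩ := Tt.pi hP
  have key : ∀ m : ℕ, (∀ i, (2 ^ (s₀ + m) : ℤ) • P i = 0) → ∀ i, (2 ^ s₀ : ℤ) • P i = 0 := by
    intro m
    induction m with
    | zero => intro h i; exact h i
    | succ m ih => intro h1; exact ih (h (s₀ + m) (Nat.le_add_right _ _) h1)
  exact key k (fun i => kill_mono (Nat.le_add_left _ _) (hk i)) i

theorem tsmul (ρ : (Ω ≃ₐ[K] Ω) →* Matrix (Fin n) (Fin n) ℤ_[2]) {ι : Ω →ₐ[K] Ω'}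
    {P : Fin n → Jac 2 f Ω'} (hP : ∀ i, Tt (P i))
    (h : ∀ (τ : Ω' ≃ₐ[E] Ω') (σ : Ω ≃ₐ[K] Ω), (∀ x, τ (ι x) = ι (σ x)) →
      (fun i => jm 2 f ι (b σ i)) = ta (ρ σ) (fun j => jm 2 f (rs K τ) (P j)) - P)
    {s : ℤ} (hb : ∀ σ i, s • b σ i = 0) (τ : Ω' ≃ₐ[E] Ω') (σ : Ω ≃ₐ[K] Ω)
    (hx : ∀ x, τ (ι x) = ι (σ x)) :
    ta (ρ σ) (fun j => jm 2 f (rs K τ) (s • P j)) = s • P := by
  have h1 := h τ σ hx
  have h2 : s • (fun i => jm 2 f ι (b σ i)) = 0 := by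
    funext i
    show s • jm 2 f ι (b σ i) = 0
    rw [← map_zsmul, hb, map_zero]
  rw [h1, smul_sub, sub_eq_zero] at h2
  have e2 : (fun j => jm 2 f (rs K τ) (s • P j)) = s • fun j => jm 2 f (rs K τ) (P j) := by
    funext i
    exact map_zsmul _ _ _
  rw [e2, ta_nsmul (fun j => (hP j).map _), h2]

theorem loc_four (hg : Good 2 (-1 : K) f) (hNF : NF E f) (h4 : Dec ρ E Ω' (Cg1 2))
    (hb : ∀ σ i, (2 : ℤ) • b σ i = 0) (h : TLoc ρ E Ω' b) : ULoc E Ω' b := by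
  obtain ⟨ι, P, hP, h⟩ := h
  have h5 : ∀ i, (2 ^ 2 : ℤ) • P i = 0 := by
    refine down hP fun s hs h1 i => ?_
    obtain ⟨t, rfl⟩ : ∃ t, s = t + 1 + 1 := ⟨s - 2, by omega⟩
    have hb' : ∀ σ i, (2 ^ (t + 1) : ℤ) • b σ i = 0 := fun σ i => kill_succ (hb σ i) t
    obtain ⟨y, hy1, hy2⟩ := fixed_of (ρ := ρ) (ι := ι) hg (fun τ σ hx => h4 ι τ σ hx)
      (P := (2 ^ (t + 1) : ℤ) • P) (fun i => smul_tri (2 ^ 2) (2 ^ (t + 1)) _ (by ring) (h1 i)) (fun τ σ hx => tsmul ρ hP h hb' τ σ hx) i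
    have h6 : 2 • y = 0 := hNF y (smul_four hy2)
    have h7 : (2 : ℤ) • ((2 ^ (t + 1) : ℤ) • P i) = 0 := by
      have e : (2 : ℤ) • ((2 ^ (t + 1) : ℤ) • P i) = jm 2 f (incl K E Ω') (2 • y) := by
        rw [map_nsmul, hy1, ← natCast_zsmul]
        rfl
      rw [e, h6, map_zero]
    exact smul_tri' 2 (2 ^ (t + 1)) _ (by ring) h7
  refine ⟨ι, P, fun τ σ hx i => ?_⟩
  have h2 := h τ σ hx
  rw [ta_cg (h4 ι τ σ hx) (fun j => by rw [← map_zsmul, h5, map_zero])] at h2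
  exact congrFun h2 i

/-- No points of order two over `E`. -/
def N2 {M : Type} (E : Type) [Field M] [Field E] [Algebra M E] (f : M[X]) : Prop :=
  ∀ P : Jac 2 f E, (2 : ℤ) • P = 0 → P = 0

theorem loc_two (hg : Good 2 (-1 : K) f) (hN : N2 E f) (h2 : Dec ρ E Ω' (Cg1 1))
    (hb : ∀ σ i, (2 : ℤ) • b σ i = 0) (h : TLoc ρ E Ω' b) : ULoc E Ω' b := by
  obtain ⟨ι, P, hP, h⟩ := h
  have h5 : ∀ i, (2 ^ 1 : ℤ) • P i = 0 := by
    refine down hP fun s hs h1 i => ?_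
    have hb' : ∀ σ i, (2 ^ s : ℤ) • b σ i = 0 := by
      intro σ i
      obtain ⟨t, rfl⟩ : ∃ t, s = t + 1 := ⟨s - 1, by omega⟩
      exact kill_succ (hb σ i) t
    obtain ⟨y, hy1, hy2⟩ := fixed_of (ρ := ρ) (ι := ι) hg (fun τ σ hx => h2 ι τ σ hx)
      (P := (2 ^ s : ℤ) • P) (fun i => smul_tri (2 ^ 1) (2 ^ s) _ (by ring) (h1 i)) (fun τ σ hx => tsmul ρ hP h hb' τ σ hx) i
    have h6 : y = 0 := hN y (smul_one' hy2)
    rw [h6, map_zero] at hy1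
    exact hy1.symm
  refine ⟨ι, P, fun τ σ hx i => ?_⟩
  have h3 := h τ σ hx
  rw [ta_cg (h2 ι τ σ hx) (fun j => by rw [← map_zsmul, h5, map_zero])] at h3
  exact congrFun h3 i

end loc

end coc

theorem n2_irr {K E : Type} [Field K] [Field E] [Algebra K E] {f : K[X]}
    (hg : Good 2 (-1 : K) f) (hirr : Irreducible (f.map (algebraMap K E))) : N2 E f := by
  intro P hP
  have hP' : 2 • P = 0 := by
    rw [← natCast_zsmul]
    exact hP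
  have h1 : Tor hg (jm 2 f (incl K E (SeparableClosure E)) P) := by
    rw [Run7.h23.Se.tor_iff2 hg, ← map_nsmul, hP', map_zero]
  have h2 := no_tor (F := E) hyps hg hirr h1 (fun σ => by
    rw [jm_jm]
    have e : (rs K σ).comp (incl K E (SeparableClosure E)) = incl K E (SeparableClosure E) :=
      AlgHom.ext fun x => σ.commutes x
    rw [e])
  refine Run7.h23.Se.jm_inj (Λ := SeparableClosure E) hg ?_
  rw [map_zero]
  exact h2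

end Run7.h23.Tw
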