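import Mathlib

/-!
# Roots of unity of order prime to the residue characteristic do not change the value group
-/

set_option autoImplicit false
set_option linter.all false

open Polynomial
open scoped Classical NNReal

namespace Run7.h23.Tw

section unr

variable {E A : Type} [Field E] [Field A] [Algebra E A]

/-- A discrete valuation with a finite residue field and its extension to the algebraic closure. -/
structure Dat (E : Type) {A : Type} [Field E] [Field A] [Algebra E A] (W : Valuation A ℝ≥0)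
    (c : ℝ≥0) (p f : ℕ) : Prop where
  c0 : 0 < c
  c1 : c < 1
  disc : ∀ x : E, x ≠ 0 → ∃ n : ℤ, W (algebraMap E A x) = c ^ n
  unif : ∃ π : E, W (algebraMap E A π) = c
  conj : ∀ (σ : A ≃ₐ[E] A) (x : A), W (σ x) = W x
  pp : p.Prime
  vp : W (p : A) < 1
  f0 : f ≠ 0
  frob : ∀ a : E, W (algebraMap E A a) ≤ 1 →
    W (algebraMap E A a ^ p ^ f - algebraMap E A a) < 1

/-- The elements which are fixed by the power `Q` modulo `c`. -/
def Fx (W : Valuation A ℝ≥0) (c : ℝ≥0) (Q : ℕ) (x : A) : Prop := W x ≤ 1 ∧ W (x ^ Q - x) ≤ c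

variable {W : Valuation A ℝ≥0} {c : ℝ≥0} {p f : ℕ}

theorem Dat.le_c (D : Dat E W c p f) {x : E} (hx : W (algebraMap E A x) < 1) :
    W (algebraMap E A x) ≤ c := by
  by_cases h0 : x = 0
  · rw [h0, map_zero, map_zero]
    exact zero_le'
  · obtain ⟨n, hn⟩ := D.disc x h0
    rw [hn] at hx ⊢
    have h1 : 0 < n := by
      rw [← zpow_zero c] at hx
      exact (zpow_lt_zpow_iff_right_of_lt_one₀ D.c0 D.c1).1 hx
    calc c ^ n ≤ c ^ (1 : ℤ) := (zpow_le_zpow_iff_right_of_lt_one₀ D.c0 D.c1).2 (by omega)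
      _ = c := zpow_one c

theorem Dat.p_le (D : Dat E W c p f) : W (p : A) ≤ c := by
  have h := D.le_c (x := (p : E)) (by rw [map_natCast]; exact D.vp)
  rwa [map_natCast] at h

theorem fx_add (hp : p.Prime) (vp : W (p : A) ≤ c) (s : ℕ) {x y : A} (hx : Fx W c (p ^ s) x)
    (hy : Fx W c (p ^ s) y) : Fx W c (p ^ s) (x + y) := by
  refine ⟨(Valuation.map_add _ _ _).trans (max_le hx.1 hy.1), ?_⟩
  obtain ⟨r, hr⟩ := exists_add_pow_prime_pow_eq hp (⟨x, hx.1⟩ : W.integer) ⟨y, hy.1⟩ s
  have h1 := congrArg (fun z : W.integer => (z : A)) hr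
  simp only [Subring.coe_add, Subring.coe_mul, SubmonoidClass.coe_pow] at h1
  have h2 : (((p : W.integer)) : A) = (p : A) := by simp
  rw [h2] at h1
  have e : (x + y) ^ p ^ s - (x + y) = ((x ^ p ^ s - x) + (y ^ p ^ s - y)) +
      (p : A) * (x * y * (r : A)) := by
    rw [h1]
    ring
  rw [e]
  refine (Valuation.map_add _ _ _).trans (max_le ((Valuation.map_add _ _ _).trans
    (max_le hx.2 hy.2)) ?_)
  rw [map_mul]
  calc W (p : A) * W (x * y * (r : A)) ≤ c * 1 := mul_le_mul' vp (by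
        rw [map_mul, map_mul]
        exact mul_le_one' (mul_le_one' hx.1 hy.1) r.2)
    _ = c := mul_one c

theorem fx_mul {Q : ℕ} {x y : A} (hx : Fx W c Q x) (hy : Fx W c Q y) : Fx W c Q (x * y) := by
  refine ⟨?_, ?_⟩
  · rw [map_mul]
    exact mul_le_one' hx.1 hy.1
  · have e : (x * y) ^ Q - x * y = x ^ Q * (y ^ Q - y) + y * (x ^ Q - x) := by
      rw [mul_pow]
      ring
    rw [e]
    refine (Valuation.map_add _ _ _).trans (max_le ?_ ?_)
    · rw [map_mul, map_pow]
      calc W x ^ Q * W (y ^ Q - y) ≤ 1 * c := mul_le_mul' (pow_le_one' hx.1 Q) hy.2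
        _ = c := one_mul c
    · rw [map_mul]
      calc W y * W (x ^ Q - x) ≤ 1 * c := mul_le_mul' hy.1 hx.2
        _ = c := one_mul c

theorem fx_zero {Q : ℕ} (hQ : Q ≠ 0) : Fx W c Q 0 := by
  refine ⟨by rw [map_zero]; exact zero_le', ?_⟩
  rw [zero_pow hQ, sub_zero, map_zero]
  exact zero_le'

theorem fx_pow {Q : ℕ} {x : A} (hx : Fx W c Q x) (h1 : Fx W c Q 1) (n : ℕ) : Fx W c Q (x ^ n) := by
  induction n with
  | zero => rw [pow_zero]; exact h1
  | succ n ih => rw [pow_succ]; exact fx_mul ih hx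

theorem fx_one {Q : ℕ} : Fx W c Q 1 := by
  refine ⟨by rw [map_one], ?_⟩
  rw [one_pow, sub_self, map_zero]
  exact zero_le'

theorem fx_small {Q : ℕ} (hQ : 2 ≤ Q) {x : A} (hx : Fx W c Q x) (h1 : W x < 1) : W x ≤ c := by
  by_cases h0 : x = 0
  · rw [h0, map_zero]
    exact zero_le'
  have hp : 0 < W x := zero_lt_iff.2 ((Valuation.ne_zero_iff _).2 h0)
  have h2 : W (x ^ Q) < W x := by
    rw [map_pow]
    calc W x ^ Q ≤ W x ^ 2 := pow_le_pow_of_le_one zero_le' h1.le hQ
      _ = W x * W x := sq _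
      _ < W x * 1 := mul_lt_mul_of_pos_left h1 hp
      _ = W x := mul_one _
  have h3 := Valuation.map_sub_eq_of_lt_left W h2
  have h4 := hx.2
  rw [Valuation.map_sub_swap, Valuation.map_sub_swap] at h4
  have h5 : W (x ^ Q - x) = W x := by
    rw [Valuation.map_sub_swap]
    exact h3
  rw [h5] at h4
  exact h4

theorem Dat.fx_E (D : Dat E W c p f) (r : ℕ) {a : E} (ha : W (algebraMap E A a) ≤ 1) :
    Fx W c (p ^ (f * r)) (algebraMap E A a) := by
  refine ⟨ha, ?_⟩
  induction r with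
  | zero =>
    rw [mul_zero, pow_zero, pow_one, sub_self, map_zero]
    exact zero_le'
  | succ r ih =>
    set b : E := a ^ p ^ (f * r) with hb
    have hb1 : W (algebraMap E A b) ≤ 1 := by
      rw [hb, map_pow, map_pow]
      exact pow_le_one' ha _
    have h1 := D.frob b hb1
    have h2 : W (algebraMap E A (b ^ p ^ f - b)) < 1 := by
      rw [map_sub, map_pow]
      exact h1
    have h3 := D.le_c h2
    have e : algebraMap E A a ^ p ^ (f * (r + 1)) - algebraMap E A a =
        algebraMap E A (b ^ p ^ f - b) + (algebraMap E A a ^ p ^ (f * r) - algebraMap E A a) := by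
      rw [map_sub, map_pow, hb, map_pow, ← pow_mul, ← pow_add]
      have : f * r + f = f * (r + 1) := by ring
      rw [this]
      ring
    rw [e]
    exact (Valuation.map_add _ _ _).trans (max_le h3 ih)

theorem Dat.coprime (D : Dat E W c p f) {N : ℕ} (hN : W (N : A) = 1) : Nat.Coprime p N := by
  rw [Nat.Prime.coprime_iff_not_dvd D.pp]
  rintro ⟨k, rfl⟩
  rw [Nat.cast_mul, map_mul] at hN
  have h1 : W (k : A) ≤ 1 := by
    exact (natCast_mem W.integer k : (k : A) ∈ W.integer)
  have h2 : W (p : A) * W (k : A) < 1 :=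
    lt_of_le_of_lt (mul_le_of_le_one_right' h1) D.vp
  rw [hN] at h2
  exact lt_irrefl _ h2

theorem Dat.fx_root (D : Dat E W c p f) {N : ℕ} (hN : W (N : A) = 1) {ζ : A} (hζ : ζ ^ N = 1) :
    Fx W c (p ^ (f * N.totient)) ζ := by
  have hN0 : N ≠ 0 := by
    rintro rfl
    rw [Nat.cast_zero, map_zero] at hN
    exact zero_ne_one hN
  have h1 : W ζ = 1 := by
    have h2 : W ζ ^ N = 1 := by rw [← map_pow, hζ, map_one]
    exact (pow_eq_one_iff_of_nonneg zero_le' hN0).1 h2
  refine ⟨h1.le, ?_⟩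
  have h3 : p ^ (f * N.totient) ≡ 1 [MOD N] := by
    rw [mul_comm, pow_mul]
    have h4 := Nat.ModEq.pow_totient (D.coprime hN)
    have h5 := h4.pow f
    rwa [one_pow] at h5
  have h4 : ζ ^ p ^ (f * N.totient) = ζ := by
    have h6 : 1 ≤ p ^ (f * N.totient) := Nat.one_le_pow _ _ D.pp.pos
    obtain ⟨k, hk⟩ := (Nat.modEq_iff_dvd' h6).1 h3.symm
    have h7 : p ^ (f * N.totient) = 1 + N * k := by omega
    rw [h7, pow_add, pow_mul, hζ, one_pow, pow_one, mul_one]
  rw [h4, sub_self, map_zero]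
  exact zero_le'

theorem one_le_tot {N : ℕ} (hN0 : N ≠ 0) : 1 ≤ N.totient := Nat.totient_pos.2 (Nat.pos_of_ne_zero hN0)

end unr

section dft

variable {E A : Type} [Field E] [Field A] [Algebra E A] [IsAlgClosed A] [Algebra.IsAlgebraic E A]
  [CharZero E] {W : Valuation A ℝ≥0} {c : ℝ≥0} {p f : ℕ}

/-- Embeddings do not change the valuation. -/
theorem Dat.emb (D : Dat E W c p f) {K : IntermediateField E A} (σ : K →ₐ[E] A) (x : K) :
    W (σ x) = W (x : A) := by
  haveI : Algebra.IsAlgebraic K A := Algebra.IsAlgebraic.tower_top (K := E) K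
  obtain ⟨φ, hφ⟩ := IsAlgClosed.surjective_restrictDomain_of_isAlgebraic (K := E) (L := K) (M := A)
    (E := A) σ
  have h1 : ∀ y : K, φ (y : A) = σ y := fun y => by
    rw [← hφ]
    rfl
  have hb := Algebra.IsAlgebraic.algHom_bijective φ
  have h2 := D.conj (AlgEquiv.ofBijective φ hb) (x : A)
  rw [← h1, ← h2]
  rfl

/-- The discrete Fourier transform. -/
theorem Dat.dft (D : Dat E W c p f) {N : ℕ} (hN : W (N : A) = 1) {ξ : A} (hξ : ξ ^ N = 1)
    {x : A} (hx : x ∈ IntermediateField.adjoin E {ξ}) (hx1 : W x ≤ 1) :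
    Fx W c (p ^ (f * N.totient)) x := by
  have hN0 : N ≠ 0 := by
    rintro rfl
    rw [Nat.cast_zero, map_zero] at hN
    exact zero_ne_one hN
  have hξ0 : ξ ≠ 0 := by
    rintro rfl
    rw [zero_pow hN0] at hξ
    exact zero_ne_one hξ
  have hWξ : W ξ = 1 := by
    have h2 : W ξ ^ N = 1 := by rw [← map_pow, hξ, map_one]
    exact (pow_eq_one_iff_of_nonneg zero_le' hN0).1 h2
  set K := IntermediateField.adjoin E ({ξ} : Set A) with hK
  haveI : FiniteDimensional E K :=
    IntermediateField.adjoin.finiteDimensional (Algebra.IsIntegral.isIntegral ξ)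
  haveI : CharZero A := charZero_of_injective_algebraMap (algebraMap E A).injective
  obtain ⟨g, hg⟩ : ∃ g : K, (g : A) = ξ := ⟨⟨ξ, IntermediateField.mem_adjoin_simple_self E ξ⟩, rfl⟩
  obtain ⟨y, hy⟩ : ∃ y : K, (y : A) = x := ⟨⟨x, hx⟩, rfl⟩
  set T : ℕ → E := fun i => Algebra.trace E K (y * g⁻¹ ^ i) with hT
  have hTA : ∀ i, algebraMap E A (T i) = ∑ σ : K →ₐ[E] A, σ y * (σ g)⁻¹ ^ i := by
    intro i
    rw [hT]
    simp only
    rw [trace_eq_sum_embeddings (E := A)]
    refine Finset.sum_congr rfl fun σ _ => ?_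
    rw [map_mul, map_pow, map_inv₀]
  have hTv : ∀ i, W (algebraMap E A (T i)) ≤ 1 := by
    intro i
    rw [hTA]
    refine Valuation.map_sum_le W fun σ _ => ?_
    rw [map_mul, map_pow, map_inv₀, D.emb, D.emb, hy, hg, hWξ, inv_one, one_pow, mul_one]
    exact hx1
  have hsum : ∑ i ∈ Finset.range N, algebraMap E A (T i) * ξ ^ i = (N : A) * x := by
    simp only [hTA, Finset.sum_mul]
    rw [Finset.sum_comm]
    have key : ∀ σ : K →ₐ[E] A, ∑ i ∈ Finset.range N, σ y * (σ g)⁻¹ ^ i * ξ ^ i =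
        if σ = K.val then (N : A) * x else 0 := by
      intro σ
      have e1 : ∀ i, σ y * (σ g)⁻¹ ^ i * ξ ^ i = σ y * ((σ g)⁻¹ * ξ) ^ i := fun i => by
        rw [mul_pow, mul_assoc]
      simp only [e1]
      rw [← Finset.mul_sum]
      by_cases hσ : σ = K.val
      · rw [if_pos hσ, hσ]
        have e2 : K.val g = ξ := hg
        have e3 : K.val y = x := hy
        rw [e2, e3, inv_mul_cancel₀ hξ0]
        simp [mul_comm]
      · rw [if_neg hσ]
        have h3 : σ g ≠ ξ := by
          intro h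
          apply hσ
          refine IntermediateField.algHom_ext_of_eq_adjoin E hK ?_
          rintro z hz
          rw [Set.mem_singleton_iff] at hz
          have e4 : (⟨z, by rw [hK]; exact IntermediateField.subset_adjoin E _ hz⟩ : K) = g := by
            apply Subtype.ext
            rw [hg]
            exact hz
          rw [e4, h]
          exact hg.symm
        have h4 : (σ g)⁻¹ * ξ ≠ 1 := by
          intro h
          apply h3
          have hσg : σ g ≠ 0 := by
            intro h5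
            rw [h5, inv_zero, zero_mul] at h
            exact zero_ne_one h
          field_simp at h
          exact h.symm
        have h5 : ((σ g)⁻¹ * ξ) ^ N = 1 := by
          rw [mul_pow, hξ, mul_one, inv_pow, ← map_pow]
          have e5 : g ^ N = 1 := by
            apply Subtype.ext
            rw [SubmonoidClass.coe_pow, hg, hξ]
            rfl
          rw [e5, map_one, inv_one]
        rw [geom_sum_eq h4, h5, sub_self, zero_div, mul_zero]
    rw [Finset.sum_congr rfl fun σ _ => key σ, Finset.sum_ite_eq' Finset.univ K.val,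
      if_pos (Finset.mem_univ _)]
  have hNA : (N : A) ≠ 0 := Nat.cast_ne_zero.2 hN0
  have hxe : x = ∑ i ∈ Finset.range N, algebraMap E A ((N : E)⁻¹ * T i) * ξ ^ i := by
    have e1 : ∀ i, algebraMap E A ((N : E)⁻¹ * T i) * ξ ^ i =
        (N : A)⁻¹ * (algebraMap E A (T i) * ξ ^ i) := fun i => by
      rw [map_mul, map_inv₀, map_natCast]
      ring
    rw [Finset.sum_congr rfl fun i _ => e1 i, ← Finset.mul_sum, hsum, ← mul_assoc,
      inv_mul_cancel₀ hNA, one_mul]
  have hQ0 : p ^ (f * N.totient) ≠ 0 := pow_ne_zero _ D.pp.ne_zero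
  rw [hxe]
  have key : ∀ s : Finset ℕ, Fx W c (p ^ (f * N.totient))
      (∑ i ∈ s, algebraMap E A ((N : E)⁻¹ * T i) * ξ ^ i) := by
    intro s
    induction s using Finset.induction_on with
    | empty => rw [Finset.sum_empty]; exact fx_zero hQ0
    | insert i s hi ih =>
      rw [Finset.sum_insert hi]
      refine fx_add D.pp D.p_le _ (fx_mul (D.fx_E _ ?_) (fx_pow (D.fx_root hN hξ) fx_one i)) ih
      rw [map_mul, map_inv₀, map_natCast, map_mul, map_inv₀, hN, inv_one, one_mul]
      exact hTv i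
  exact key _

/-- The value group of `E(ξ)`. -/
theorem Dat.val_simple (D : Dat E W c p f) {N : ℕ} (hN : W (N : A) = 1) {ξ : A} (hξ : ξ ^ N = 1)
    {x : A} (hx : x ∈ IntermediateField.adjoin E {ξ}) (hx0 : x ≠ 0) : ∃ n : ℤ, W x = c ^ n := by
  have hN0 : N ≠ 0 := by
    rintro rfl
    rw [Nat.cast_zero, map_zero] at hN
    exact zero_ne_one hN
  have hWx : 0 < W x := zero_lt_iff.2 ((Valuation.ne_zero_iff _).2 hx0)
  obtain ⟨n, hn1, hn2⟩ := exists_mem_Ico_zpow hWx ((one_lt_inv₀ D.c0).2 D.c1)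
  obtain ⟨π, hπ⟩ := D.unif
  have hπ0 : algebraMap E A π ≠ 0 := by
    intro h
    rw [h, map_zero] at hπ
    exact D.c0.ne hπ
  -- `y = x π ^ (n + 1)` has `c < W y ≤ 1`
  set y : A := x * algebraMap E A π ^ (n + 1) with hy
  have hWy : W y = W x * c ^ (n + 1) := by rw [hy, map_mul, map_zpow₀, hπ]
  have hc : (0 : ℝ≥0) < c ^ (n + 1) := zpow_pos D.c0 _
  have h1 : W y < 1 ∨ W y = 1 ∨ 1 < W y := lt_trichotomy _ _
  have h2 : W y < 1 := by
    rw [hWy]
    calc W x * c ^ (n + 1) < c⁻¹ ^ (n + 1) * c ^ (n + 1) := mul_lt_mul_of_pos_right hn2 hc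
      _ = 1 := by rw [inv_zpow, inv_mul_cancel₀ hc.ne']
  have h3 : c ≤ W y := by
    rw [hWy]
    calc c = c⁻¹ ^ n * c ^ (n + 1) := by
          rw [inv_zpow, zpow_add_one₀ D.c0.ne', ← mul_assoc,
            inv_mul_cancel₀ (zpow_pos D.c0 n).ne', one_mul]
      _ ≤ W x * c ^ (n + 1) := mul_le_mul_left hn1 _
  have hyK : y ∈ IntermediateField.adjoin E {ξ} := by
    rw [hy]
    exact mul_mem hx (zpow_mem (IntermediateField.algebraMap_mem _ π) _)
  have hQ : 2 ≤ p ^ (f * N.totient) := by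
    calc 2 ≤ p := D.pp.two_le
      _ = p ^ 1 := (pow_one p).symm
      _ ≤ p ^ (f * N.totient) := Nat.pow_le_pow_right D.pp.pos
        (Nat.mul_pos (Nat.pos_of_ne_zero D.f0) (Nat.totient_pos.2 (Nat.pos_of_ne_zero hN0)))
  have h4 := fx_small hQ (D.dft hN hξ hyK h2.le) h2
  have h5 : W y = c := le_antisymm h4 h3
  refine ⟨-n, ?_⟩
  rw [hWy, zpow_add_one₀ D.c0.ne', ← mul_assoc] at h5
  have h6 : W x * c ^ n = 1 := by
    have := mul_right_cancel₀ D.c0.ne' (h5.trans (one_mul c).symm)
    exact this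
  rw [zpow_neg]
  exact eq_inv_of_mul_eq_one_left h6

/-- The roots of unity. -/
def muS (W : Valuation A ℝ≥0) : Set A := {ζ | ∃ N : ℕ, W (N : A) = 1 ∧ ζ ^ N = 1}

/-- The value group of the extension generated by the roots of unity. -/
theorem Dat.val_nr (D : Dat E W c p f) {x : A} (hx : x ∈ IntermediateField.adjoin E (muS W))
    (hx0 : x ≠ 0) : ∃ n : ℤ, W x = c ^ n := by
  haveI : CharZero A := charZero_of_injective_algebraMap (algebraMap E A).injective
  -- every element is in the field generated by the roots of unity of order `N`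
  have key : ∃ N : ℕ, W (N : A) = 1 ∧ x ∈ IntermediateField.adjoin E {ζ : A | ζ ^ N = 1} := by
    have mono : ∀ {N M : ℕ}, IntermediateField.adjoin E {ζ : A | ζ ^ N = 1} ≤
        IntermediateField.adjoin E {ζ : A | ζ ^ (N * M) = 1} := by
      intro N M
      refine IntermediateField.adjoin.mono _ _ _ fun ζ hζ => ?_
      rw [Set.mem_setOf_eq] at hζ ⊢
      rw [pow_mul, hζ, one_pow]
    have mono' : ∀ {N M : ℕ}, IntermediateField.adjoin E {ζ : A | ζ ^ M = 1} ≤
        IntermediateField.adjoin E {ζ : A | ζ ^ (N * M) = 1} := by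
      intro N M
      rw [mul_comm]
      exact mono
    induction hx using IntermediateField.adjoin_induction with
    | mem x hx =>
      obtain ⟨N, hN, h⟩ := hx
      exact ⟨N, hN, IntermediateField.subset_adjoin E _ h⟩
    | algebraMap x => exact ⟨1, by rw [Nat.cast_one, map_one], IntermediateField.algebraMap_mem _ x⟩
    | add x y hx hy ihx ihy =>
      by_cases hx0' : x = 0
      · by_cases hy0' : y = 0
        · refine ⟨1, by rw [Nat.cast_one, map_one], ?_⟩
          rw [hx0', hy0', add_zero]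
          exact zero_mem _
        · obtain ⟨M, hM, h2⟩ := ihy hy0'
          exact ⟨M, hM, by rw [hx0', zero_add]; exact h2⟩
      · by_cases hy0' : y = 0
        · obtain ⟨M, hM, h2⟩ := ihx hx0'
          exact ⟨M, hM, by rw [hy0', add_zero]; exact h2⟩
        · obtain ⟨N, hN, h1⟩ := ihx hx0'
          obtain ⟨M, hM, h2⟩ := ihy hy0'
          exact ⟨N * M, by rw [Nat.cast_mul, map_mul, hN, hM, one_mul],
            add_mem (mono h1) (mono' h2)⟩
    | mul x y hx hy ihx ihy =>
      by_cases hx0' : x = 0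
      · exact absurd (by rw [hx0', zero_mul]) hx0
      by_cases hy0' : y = 0
      · exact absurd (by rw [hy0', mul_zero]) hx0
      obtain ⟨N, hN, h1⟩ := ihx hx0'
      obtain ⟨M, hM, h2⟩ := ihy hy0'
      exact ⟨N * M, by rw [Nat.cast_mul, map_mul, hN, hM, one_mul],
        mul_mem (mono h1) (mono' h2)⟩
    | inv x hx ih =>
      obtain ⟨N, hN, h⟩ := ih (fun h => hx0 (by rw [h, inv_zero]))
      exact ⟨N, hN, inv_mem h⟩
  obtain ⟨N, hN, hxN⟩ := key
  have hN0 : N ≠ 0 := by
    rintro rfl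
    rw [Nat.cast_zero, map_zero] at hN
    exact zero_ne_one hN
  haveI : NeZero (N : A) := ⟨Nat.cast_ne_zero.2 hN0⟩
  obtain ⟨ξ, hξ⟩ := IsAlgClosed.exists_root (cyclotomic N A)
    (degree_cyclotomic_pos N A (Nat.pos_of_ne_zero hN0)).ne'
  have hprim : IsPrimitiveRoot ξ N := isRoot_cyclotomic_iff.1 hξ
  haveI : NeZero N := ⟨hN0⟩
  refine D.val_simple hN hprim.pow_eq_one ?_ hx0
  have hle : IntermediateField.adjoin E {ζ : A | ζ ^ N = 1} ≤ IntermediateField.adjoin E {ξ} := by
    rw [IntermediateField.adjoin_le_iff]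
    intro ζ hζ
    obtain ⟨i, -, hi⟩ := hprim.eq_pow_of_pow_eq_one (show ζ ^ N = 1 from hζ)
    rw [← hi]
    exact pow_mem (IntermediateField.mem_adjoin_simple_self E ξ) i
  exact hle hxN

end dft

end Run7.h23.Tw
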