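import Mathlib

/-!
# Multiplication by 2-adic integers on 2-power torsion
-/

set_option autoImplicit false
set_option linter.all false

open scoped Classical

namespace Run7.h23.Tw

section zm

variable {A B : Type} [AddCommGroup A] [AddCommGroup B]

/-- `x` has 2-power order. -/
def Tt (x : A) : Prop := ∃ k : ℕ, (2 ^ k : ℤ) • x = 0

/-- Multiplication by a 2-adic integer. -/
noncomputable def zm (a : ℤ_[2]) (x : A) : A := a.appr (addOrderOf x) • x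

theorem kill_mono {x : A} {k l : ℕ} (h : k ≤ l) (hx : (2 ^ k : ℤ) • x = 0) :
    (2 ^ l : ℤ) • x = 0 := by
  obtain ⟨m, rfl⟩ := Nat.exists_eq_add_of_le h
  rw [pow_add, mul_comm, mul_smul, hx, smul_zero]

theorem kill_add {x y : A} {k : ℕ} (hx : (2 ^ k : ℤ) • x = 0) (hy : (2 ^ k : ℤ) • y = 0) :
    (2 ^ k : ℤ) • (x + y) = 0 := by rw [smul_add, hx, hy, add_zero]

theorem Tt.two {x y : A} (hx : Tt x) (hy : Tt y) : ∃ k : ℕ, (2 ^ k : ℤ) • x = 0 ∧
    (2 ^ k : ℤ) • y = 0 := by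
  obtain ⟨k, hk⟩ := hx
  obtain ⟨l, hl⟩ := hy
  exact ⟨max k l, kill_mono (le_max_left _ _) hk, kill_mono (le_max_right _ _) hl⟩

theorem Tt.pi {n : ℕ} {x : Fin n → A} (hx : ∀ i, Tt (x i)) :
    ∃ k : ℕ, ∀ i, (2 ^ k : ℤ) • x i = 0 := by
  choose k hk using hx
  exact ⟨Finset.univ.sup k, fun i => kill_mono (Finset.le_sup (Finset.mem_univ i)) (hk i)⟩

theorem Tt.zero : Tt (0 : A) := ⟨0, smul_zero _⟩

theorem Tt.add {x y : A} (hx : Tt x) (hy : Tt y) : Tt (x + y) := by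
  obtain ⟨k, h1, h2⟩ := hx.two hy
  exact ⟨k, kill_add h1 h2⟩

theorem Tt.neg {x : A} (hx : Tt x) : Tt (-x) := by
  obtain ⟨k, h1⟩ := hx
  exact ⟨k, by rw [smul_neg, h1, neg_zero]⟩

theorem Tt.sub {x y : A} (hx : Tt x) (hy : Tt y) : Tt (x - y) := by
  rw [sub_eq_add_neg]
  exact hx.add hy.neg

theorem Tt.smul {x : A} (hx : Tt x) (a : ℤ) : Tt (a • x) := by
  obtain ⟨k, h1⟩ := hx
  exact ⟨k, by rw [smul_comm, h1, smul_zero]⟩

theorem Tt.map {x : A} (hx : Tt x) (φ : A →+ B) : Tt (φ x) := by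
  obtain ⟨k, h1⟩ := hx
  exact ⟨k, by rw [← map_zsmul, h1, map_zero]⟩

theorem Tt.half {x : A} (h : Tt ((2 : ℤ) • x)) : Tt x := by
  obtain ⟨k, h1⟩ := h
  exact ⟨k + 1, by rw [pow_succ, mul_smul, h1]⟩

theorem two_dvd_iff (n : ℕ) (a : ℤ) : (2 : ℤ_[2]) ^ n ∣ (a : ℤ_[2]) ↔ (2 ^ n : ℤ) ∣ a := by
  have h := PadicInt.pow_p_dvd_int_iff (p := 2) n a
  push_cast at h
  exact_mod_cast h

theorem appr_dvd (a : ℤ_[2]) (n : ℕ) : (2 : ℤ_[2]) ^ n ∣ a - ((a.appr n : ℕ) : ℤ) := by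
  have h := PadicInt.appr_spec (p := 2) n a
  rw [Ideal.mem_span_singleton] at h
  push_cast at h ⊢
  exact h

theorem zm_eq {k : ℕ} {a : ℤ_[2]} {N : ℤ} {x : A} (hx : (2 ^ k : ℤ) • x = 0)
    (h : (2 : ℤ_[2]) ^ k ∣ a - N) : zm a x = N • x := by
  have h1 : addOrderOf x ∣ 2 ^ k := by
    rw [addOrderOf_dvd_iff_nsmul_eq_zero]
    exact_mod_cast hx
  obtain ⟨j, hj, hjo⟩ := (Nat.dvd_prime_pow Nat.prime_two).1 h1
  have h2 := appr_dvd a (addOrderOf x)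
  have h3 : (2 : ℤ_[2]) ^ j ∣ ((N - (a.appr (addOrderOf x) : ℤ) : ℤ) : ℤ_[2]) := by
    have e1 : (2 : ℤ_[2]) ^ j ∣ a - ((a.appr (addOrderOf x) : ℕ) : ℤ) :=
      (pow_dvd_pow _ (by rw [hjo]; exact Nat.lt_two_pow_self.le)).trans h2
    have e2 : (2 : ℤ_[2]) ^ j ∣ a - N := (pow_dvd_pow _ hj).trans h
    have e3 := dvd_sub e1 e2
    have e4 : a - ((a.appr (addOrderOf x) : ℕ) : ℤ) - (a - N) =
        ((N - (a.appr (addOrderOf x) : ℤ) : ℤ) : ℤ_[2]) := by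
      push_cast
      ring
    rwa [e4] at e3
  rw [two_dvd_iff] at h3
  obtain ⟨m, hm⟩ := h3
  have h4 : (2 ^ j : ℤ) • x = 0 := by
    have := addOrderOf_nsmul_eq_zero x
    rw [hjo] at this
    exact_mod_cast this
  have h5 : N • x - (a.appr (addOrderOf x) : ℤ) • x = 0 := by
    rw [← sub_smul, hm, mul_comm, mul_smul, h4, smul_zero]
  unfold zm
  rw [← natCast_zsmul]
  exact (sub_eq_zero.1 h5).symm

/-- An integer near a 2-adic integer. -/
theorem near (a : ℤ_[2]) (k : ℕ) : ∃ N : ℤ, (2 : ℤ_[2]) ^ k ∣ a - N := ⟨_, appr_dvd a k⟩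

theorem zm_kill {a : ℤ_[2]} {k : ℕ} {x : A} (hx : (2 ^ k : ℤ) • x = 0) :
    (2 ^ k : ℤ) • zm a x = 0 := by
  obtain ⟨N, hN⟩ := near a k
  rw [zm_eq hx hN, smul_comm, hx, smul_zero]

theorem Tt.zm {x : A} (hx : Tt x) (a : ℤ_[2]) : Tt (zm a x) := by
  obtain ⟨k, hk⟩ := hx
  exact ⟨k, zm_kill hk⟩

theorem zm_add_left {x : A} (hx : Tt x) (a b : ℤ_[2]) : zm (a + b) x = zm a x + zm b x := by
  obtain ⟨k, hk⟩ := hx
  obtain ⟨N, hN⟩ := near a k
  obtain ⟨N', hN'⟩ := near b k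
  rw [zm_eq hk hN, zm_eq hk hN', zm_eq (N := N + N') hk, add_smul]
  have := dvd_add hN hN'
  push_cast
  convert this using 1
  ring

theorem zm_zero_left (x : A) (hx : Tt x) : zm 0 x = 0 := by
  obtain ⟨k, hk⟩ := hx
  rw [zm_eq (N := 0) hk (by simp), zero_smul]

theorem zm_one (x : A) (hx : Tt x) : zm 1 x = x := by
  obtain ⟨k, hk⟩ := hx
  rw [zm_eq (N := 1) hk (by simp), one_smul]

theorem zm_mul {x : A} (hx : Tt x) (a b : ℤ_[2]) : zm (a * b) x = zm a (zm b x) := by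
  obtain ⟨k, hk⟩ := hx
  obtain ⟨N, hN⟩ := near a k
  obtain ⟨N', hN'⟩ := near b k
  have h1 : (2 ^ k : ℤ) • (N' • x) = 0 := by rw [smul_comm, hk, smul_zero]
  rw [zm_eq hk hN', zm_eq h1 hN, zm_eq (N := N * N') hk, mul_smul]
  have e : a * b - ((N * N' : ℤ) : ℤ_[2]) = (a - N) * b + N * (b - N') := by
    push_cast
    ring
  rw [e]
  exact dvd_add (Dvd.dvd.mul_right hN _) (Dvd.dvd.mul_left hN' _)

theorem zm_add_right {x y : A} (hx : Tt x) (hy : Tt y) (a : ℤ_[2]) :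
    zm a (x + y) = zm a x + zm a y := by
  obtain ⟨k, h1, h2⟩ := hx.two hy
  obtain ⟨N, hN⟩ := near a k
  rw [zm_eq h1 hN, zm_eq h2 hN, zm_eq (kill_add h1 h2) hN, smul_add]

theorem zm_zero_right (a : ℤ_[2]) : zm a (0 : A) = 0 := by
  unfold zm
  rw [smul_zero]

theorem zm_map {x : A} (hx : Tt x) (a : ℤ_[2]) (φ : A →+ B) : φ (zm a x) = zm a (φ x) := by
  obtain ⟨k, hk⟩ := hx
  obtain ⟨N, hN⟩ := near a k
  have h1 : (2 ^ k : ℤ) • φ x = 0 := by rw [← map_zsmul, hk, map_zero]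
  rw [zm_eq hk hN, zm_eq h1 hN, map_zsmul]

theorem zm_sum {ι : Type} (s : Finset ι) (x : ι → A) (hx : ∀ i, Tt (x i)) (a : ℤ_[2]) :
    zm a (∑ i ∈ s, x i) = ∑ i ∈ s, zm a (x i) ∧ Tt (∑ i ∈ s, x i) := by
  induction s using Finset.induction_on with
  | empty => rw [Finset.sum_empty, Finset.sum_empty]; exact ⟨zm_zero_right a, Tt.zero⟩
  | insert i s hi ih =>
    rw [Finset.sum_insert hi, Finset.sum_insert hi, zm_add_right (hx i) ih.2, ih.1]
    exact ⟨rfl, (hx i).add ih.2⟩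

theorem zm_sum_left {ι : Type} (s : Finset ι) (a : ι → ℤ_[2]) {x : A} (hx : Tt x) :
    zm (∑ i ∈ s, a i) x = ∑ i ∈ s, zm (a i) x := by
  induction s using Finset.induction_on with
  | empty => rw [Finset.sum_empty, Finset.sum_empty]; exact zm_zero_left x hx
  | insert i s hi ih =>
    rw [Finset.sum_insert hi, Finset.sum_insert hi, zm_add_left hx, ih]

end zm

section ta

variable {A B : Type} [AddCommGroup A] [AddCommGroup B] {n : ℕ}

/-- The action of a matrix. -/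
noncomputable def ta (M : Matrix (Fin n) (Fin n) ℤ_[2]) (x : Fin n → A) (i : Fin n) : A :=
  ∑ j, zm (M i j) (x j)

theorem ta_tt {M : Matrix (Fin n) (Fin n) ℤ_[2]} {x : Fin n → A} (hx : ∀ j, Tt (x j)) (i : Fin n) :
    Tt (ta M x i) := (zm_sum Finset.univ (fun j => zm (M i j) (x j)) (fun j => (hx j).zm _) 0).2

theorem ta_add {M : Matrix (Fin n) (Fin n) ℤ_[2]} {x y : Fin n → A} (hx : ∀ j, Tt (x j))
    (hy : ∀ j, Tt (y j)) : ta M (x + y) = ta M x + ta M y := by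
  funext i
  show ∑ j, zm (M i j) (x j + y j) = (∑ j, zm (M i j) (x j)) + ∑ j, zm (M i j) (y j)
  rw [← Finset.sum_add_distrib]
  exact Finset.sum_congr rfl fun j _ => zm_add_right (hx j) (hy j) _

theorem ta_zero {M : Matrix (Fin n) (Fin n) ℤ_[2]} : ta M (0 : Fin n → A) = 0 := by
  funext i
  show ∑ j, zm (M i j) (0 : A) = 0
  exact Finset.sum_eq_zero fun j _ => zm_zero_right _

theorem ta_neg {M : Matrix (Fin n) (Fin n) ℤ_[2]} {x : Fin n → A} (hx : ∀ j, Tt (x j)) :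
    ta M (-x) = -ta M x := by
  have h := ta_add (M := M) hx (y := -x) (fun j => (hx j).neg)
  rw [add_neg_cancel, ta_zero] at h
  exact eq_neg_of_add_eq_zero_right h.symm

theorem ta_sub {M : Matrix (Fin n) (Fin n) ℤ_[2]} {x y : Fin n → A} (hx : ∀ j, Tt (x j))
    (hy : ∀ j, Tt (y j)) : ta M (x - y) = ta M x - ta M y := by
  rw [sub_eq_add_neg, ta_add (y := -y) hx (fun j => (hy j).neg), ta_neg hy, ← sub_eq_add_neg]

theorem ta_nsmul {M : Matrix (Fin n) (Fin n) ℤ_[2]} {x : Fin n → A} (hx : ∀ j, Tt (x j)) (m : ℤ) :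
    ta M (m • x) = m • ta M x := by
  funext i
  show ∑ j, zm (M i j) (m • x j) = m • ∑ j, zm (M i j) (x j)
  rw [Finset.smul_sum]
  refine Finset.sum_congr rfl fun j _ => ?_
  have h := zm_map (hx j) (M i j) (zsmulAddGroupHom m : A →+ A)
  exact h.symm

theorem ta_mul {M M' : Matrix (Fin n) (Fin n) ℤ_[2]} {x : Fin n → A} (hx : ∀ j, Tt (x j)) :
    ta (M * M') x = ta M (ta M' x) := by
  funext i
  show ∑ k, zm ((M * M') i k) (x k) = ∑ j, zm (M i j) (∑ k, zm (M' j k) (x k))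
  have h1 : ∀ j, zm (M i j) (∑ k, zm (M' j k) (x k)) = ∑ k, zm (M i j * M' j k) (x k) := by
    intro j
    rw [(zm_sum _ _ (fun k => (hx k).zm _) _).1]
    exact Finset.sum_congr rfl fun k _ => (zm_mul (hx k) _ _).symm
  rw [Finset.sum_congr rfl fun j _ => h1 j, Finset.sum_comm]
  refine Finset.sum_congr rfl fun k _ => ?_
  rw [Matrix.mul_apply, zm_sum_left _ _ (hx k)]

theorem ta_map {M : Matrix (Fin n) (Fin n) ℤ_[2]} {x : Fin n → A} (hx : ∀ j, Tt (x j))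
    (φ : A →+ B) (i : Fin n) : φ (ta M x i) = ta M (fun j => φ (x j)) i := by
  show φ (∑ j, zm (M i j) (x j)) = ∑ j, zm (M i j) (φ (x j))
  rw [map_sum]
  exact Finset.sum_congr rfl fun j _ => zm_map (hx j) _ _

/-- Matrices congruent to 1. -/
def Cg1 (k : ℕ) (M : Matrix (Fin n) (Fin n) ℤ_[2]) : Prop :=
  ∀ i j, (2 : ℤ_[2]) ^ k ∣ M i j - (1 : Matrix (Fin n) (Fin n) ℤ_[2]) i j

theorem ta_cg {M : Matrix (Fin n) (Fin n) ℤ_[2]} {k : ℕ} (hM : Cg1 k M) {x : Fin n → A}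
    (hx : ∀ j, (2 ^ k : ℤ) • x j = 0) : ta M x = x := by
  funext i
  show ∑ j, zm (M i j) (x j) = x i
  rw [Finset.sum_eq_single i]
  · rw [zm_eq (N := 1) (hx i) (by
      have := hM i i
      rw [Matrix.one_apply_eq] at this
      exact_mod_cast this), one_smul]
  · intro j _ hj
    rw [zm_eq (N := 0) (hx j) (by
      have := hM i j
      rw [Matrix.one_apply_ne (Ne.symm hj)] at this
      exact_mod_cast this), zero_smul]
  · intro h
    exact absurd (Finset.mem_univ i) h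

theorem ta_one {x : Fin n → A} (hx : ∀ j, Tt (x j)) :
    ta (1 : Matrix (Fin n) (Fin n) ℤ_[2]) x = x := by
  obtain ⟨k, hk⟩ := Tt.pi hx
  exact ta_cg (k := k) (fun i j => by rw [sub_self]; exact dvd_zero _) hk

end ta

end Run7.h23.Tw
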